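import Mathlib

/-!
# Definitions: values of integer polynomials on the unit circle and the number `R_DPV(n, θ)`
-/

namespace Pool.Agent.Work.MP_4c4335_nt

open Finset

/-- the point `e^{iθ}` of the unit circle -/
noncomputable def zpt (θ : ℝ) : ℂ := Complex.exp (θ * Complex.I)

/-- the argument of a complex number, normalised to lie in `[0, 2π)` -/
noncomputable def arg0 (w : ℂ) : ℝ :=
  if 0 ≤ w.arg then w.arg else w.arg + 2 * Real.pi

/-- the value at `z = e^{iθ}` of the polynomial with coefficients `c 0, ..., c D` -/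
noncomputable def val (θ : ℝ) (D : ℕ) (c : ℕ → ℤ) : ℂ :=
  ∑ j ∈ range (D + 1), (c j : ℂ) * zpt θ ^ j

/-- the set `S_n(θ)` of the logarithms `log |w| + i arg w` of the nonzero values `w` at `e^{iθ}`
of the integer polynomials of weight at most `n` -/
def SS (n : ℕ) (θ : ℝ) : Set ℂ :=
  {s | ∃ (D : ℕ) (c : ℕ → ℤ), ∑ j ∈ range (D + 1), (1 + |c j|) ≤ (n : ℤ) ∧ val θ D c ≠ 0 ∧
    s = ⟨Real.log ‖val θ D c‖, arg0 (val θ D c)⟩}

/-- the property `DPV(n, R)` of the angle `θ` -/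
def HasDPV (n : ℕ) (R : ℝ) (θ : ℝ) : Prop :=
  ∀ p : ℂ, p.re ∈ Set.Icc (-Real.log R) 0 → p.im ∈ Set.Icc 0 (2 * Real.pi) →
    ∃ s ∈ SS n θ, dist p s ≤ 0.1

/-- `R_DPV(n, θ)`: the supremum of the (positive) `R` such that `θ` has `DPV(n, R)` -/
noncomputable def RDPV (n : ℕ) (θ : ℝ) : ℝ := sSup {R : ℝ | 0 < R ∧ HasDPV n R θ}

end Pool.Agent.Work.MP_4c4335_nt
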