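import Mathlib

/-!
# Lower bounds for cyclotomic polynomials at Diophantine points of the unit circle
-/

namespace Pool.Agent.Work.MP_4c4335_nt

open Finset Polynomial Real

/-- `z` is a point of the unit circle which is badly approximable by roots of unity. -/
def DioZ (c : ℝ) (z : ℂ) : Prop := ‖z‖ = 1 ∧ ∀ q : ℕ, 1 ≤ q → c / (q:ℝ) ^ 2 ≤ ‖z ^ q - 1‖

/-- auxiliary weight -/
noncomputable def wt2 (a : ℝ) (p n : ℕ) : ℝ := if p ∣ n then a else 1

lemma wt2_mul {a : ℝ} {p m n : ℕ} (hp : p.Prime) (h : Nat.Coprime m n) :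
    wt2 a p (m * n) = wt2 a p m * wt2 a p n := by
  unfold wt2
  by_cases h1 : p ∣ m
  · have h2 : ¬ p ∣ n := fun h2 => by
      have := Nat.dvd_gcd h1 h2
      rw [h] at this
      exact hp.one_lt.ne' (Nat.dvd_one.mp this)
    have h3 : p ∣ m * n := Dvd.dvd.mul_right h1 n
    rw [if_pos h3, if_pos h1, if_neg h2, mul_one]
  · by_cases h2 : p ∣ n
    · have h3 : p ∣ m * n := Dvd.dvd.mul_left h2 m
      rw [if_pos h3, if_neg h1, if_pos h2, one_mul]
    · have h3 : ¬ p ∣ m * n := fun h => (hp.dvd_mul.mp h).elim h1 h2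
      rw [if_neg h3, if_neg h1, if_neg h2, one_mul]

lemma wt2_nonneg {a : ℝ} (ha : 1 ≤ a) (p n : ℕ) : 1 ≤ wt2 a p n := by
  unfold wt2; split_ifs <;> linarith

lemma wt2_le {a : ℝ} (ha : 1 ≤ a) (p n : ℕ) : wt2 a p n ≤ a := by
  unfold wt2; split_ifs <;> linarith

lemma wt2_prime_pow (a : ℝ) {p q : ℕ} (hp : p.Prime) (hq : q.Prime) (k : ℕ) :
    wt2 a q (p ^ (k + 1)) = if q = p then a else 1 := by
  unfold wt2
  by_cases h : q = p
  · rw [if_pos h, if_pos (by rw [h]; exact dvd_pow_self _ (by omega))]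
  · rw [if_neg h, if_neg]
    intro h1
    exact h ((Nat.prime_dvd_prime_iff_eq hq hp).mp (hq.dvd_of_dvd_pow h1))

lemma sq_aux3 (k : ℕ) : (k + 1 + 2) ^ 2 ≤ 3 * (k + 2) ^ 2 := by
  have : 3 * (k + 2) ^ 2 = (k + 1 + 2) ^ 2 + (2 * k ^ 2 + 6 * k + 3) := by ring
  omega

lemma sq_aux5 (k : ℕ) : (k + 1 + 2) ^ 2 ≤ 5 * (k + 2) ^ 2 := by
  have : 5 * (k + 2) ^ 2 = (k + 1 + 2) ^ 2 + (4 * k ^ 2 + 14 * k + 11) := by ring
  omega

lemma pow_ge_aux (k : ℕ) : (k + 2) ^ 2 ≤ 4 * 5 ^ k := by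
  induction k with
  | zero => norm_num
  | succ k ih =>
    have h1 : 4 * 5 ^ (k + 1) = 5 * (4 * 5 ^ k) := by ring
    have h2 := sq_aux5 k
    rw [h1]
    omega

lemma pow_ge_aux2 (k : ℕ) : 2 * (k + 2) ^ 2 ≤ 9 * 2 ^ k := by
  induction k with
  | zero => norm_num
  | succ k ih =>
    rcases Nat.lt_or_ge k 1 with h | h
    · interval_cases k; norm_num
    · have h1 : 9 * 2 ^ (k + 1) = 2 * (9 * 2 ^ k) := by ring
      have h2 : (k + 1 + 2) ^ 2 ≤ 2 * (k + 2) ^ 2 := by nlinarith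
      rw [h1]
      omega

lemma pow_ge_aux3 (k : ℕ) : (k + 2) ^ 2 ≤ 4 * 3 ^ k := by
  induction k with
  | zero => norm_num
  | succ k ih =>
    have h1 : 4 * 3 ^ (k + 1) = 3 * (4 * 3 ^ k) := by ring
    have h2 := sq_aux3 k
    rw [h1]
    omega

lemma card_divisors_sq_le (n : ℕ) : n ≠ 0 →
    ((n.divisors.card : ℝ)) ^ 2 ≤ (wt2 (9/2) 2 n * wt2 2 3 n) * (n.totient : ℝ) := by
  induction n using Nat.recOnPosPrimePosCoprime with
  | zero => intro h; exact absurd rfl h
  | one => intro _; simp [wt2]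
  | prime_pow p k hp hk =>
    intro _
    obtain ⟨k, rfl⟩ : ∃ j, k = j + 1 := ⟨k - 1, by omega⟩
    have h1 : (p ^ (k + 1)).divisors.card = k + 2 := by
      rw [Nat.divisors_prime_pow hp, Finset.card_map, Finset.card_range]
    rw [h1, Nat.totient_prime_pow_succ hp]
    rw [wt2_prime_pow _ hp Nat.prime_two, wt2_prime_pow _ hp Nat.prime_three]
    rcases eq_or_ne p 2 with rfl | h2
    · have := pow_ge_aux2 k
      have h' : (2:ℝ) * ((k:ℝ) + 2) ^ 2 ≤ 9 * 2 ^ k := by exact_mod_cast this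
      rw [if_pos rfl, if_neg (by norm_num)]
      push_cast
      norm_num
      linarith
    rcases eq_or_ne p 3 with rfl | h3
    · have := pow_ge_aux3 k
      have h' : ((k:ℝ) + 2) ^ 2 ≤ 4 * 3 ^ k := by exact_mod_cast this
      rw [if_neg (by norm_num), if_pos rfl]
      push_cast
      norm_num
      linarith
    · rw [if_neg (Ne.symm h2), if_neg (Ne.symm h3)]
      have hp5 : 5 ≤ p := by
        have := hp.two_le
        by_contra hcon
        push Not at hcon
        interval_cases p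
        · exact h2 rfl
        · exact h3 rfl
        · revert hp; decide
      have h4 := pow_ge_aux k
      have h5 : (k + 2) ^ 2 ≤ p ^ k * (p - 1) := by
        calc (k + 2) ^ 2 ≤ 4 * 5 ^ k := h4
          _ ≤ (p - 1) * p ^ k := by
              apply Nat.mul_le_mul (by omega) (Nat.pow_le_pow_left hp5 k)
          _ = p ^ k * (p - 1) := by ring
      rw [one_mul, one_mul]
      exact_mod_cast h5
  | coprime a b ha hb hab iha ihb =>
    intro _
    have i1 := iha (by omega)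
    have i2 := ihb (by omega)
    rw [hab.card_divisors_mul, Nat.totient_mul hab, wt2_mul Nat.prime_two hab,
      wt2_mul Nat.prime_three hab]
    push_cast
    calc ((a.divisors.card : ℝ) * b.divisors.card) ^ 2
        = (a.divisors.card : ℝ) ^ 2 * (b.divisors.card : ℝ) ^ 2 := by ring
      _ ≤ ((wt2 (9/2) 2 a * wt2 2 3 a) * (a.totient : ℝ)) *
          ((wt2 (9/2) 2 b * wt2 2 3 b) * (b.totient : ℝ)) := by
            apply mul_le_mul i1 i2 (by positivity)
            exact le_trans (by positivity) i1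
      _ = _ := by ring

lemma le_totient_sq (n : ℕ) : n ≠ 0 → (n : ℝ) ≤ wt2 2 2 n * (n.totient : ℝ) ^ 2 := by
  induction n using Nat.recOnPosPrimePosCoprime with
  | zero => intro h; exact absurd rfl h
  | one => intro _; simp [wt2]
  | prime_pow p k hp hk =>
    intro _
    obtain ⟨k, rfl⟩ : ∃ j, k = j + 1 := ⟨k - 1, by omega⟩
    rw [Nat.totient_prime_pow_succ hp]
    rw [wt2_prime_pow _ hp Nat.prime_two]
    rcases eq_or_ne p 2 with rfl | h2
    · rw [if_pos rfl]
      push_cast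
      have h1 : (1:ℝ) ≤ 2 ^ k := one_le_pow₀ (by norm_num)
      norm_num
      calc (2:ℝ) ^ (k + 1) = 2 * 2 ^ k := by ring
        _ ≤ 2 * (2 ^ k) ^ 2 := by nlinarith
    · rw [if_neg (Ne.symm h2)]
      have hp3 : 3 ≤ p := by have := hp.two_le; omega
      have h1 : (1:ℝ) ≤ (p:ℝ) ^ k := one_le_pow₀ (by exact_mod_cast hp.one_le)
      have h3 : (3:ℝ) ≤ p := by exact_mod_cast hp3
      rw [Nat.cast_mul, Nat.cast_pow, Nat.cast_pow, Nat.cast_sub hp.one_le]
      push_cast
      calc (p:ℝ) ^ (k + 1) = p ^ k * p := by ring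
        _ ≤ (p ^ k * p ^ k) * ((p - 1) ^ 2) := by
            apply mul_le_mul _ (by nlinarith) (by linarith) (by positivity)
            nlinarith
        _ = 1 * (p ^ k * (p - 1)) ^ 2 := by ring
  | coprime a b ha hb hab iha ihb =>
    intro _
    have i1 := iha (by omega)
    have i2 := ihb (by omega)
    rw [Nat.totient_mul hab, wt2_mul Nat.prime_two hab]
    push_cast
    calc (a:ℝ) * b ≤ (wt2 2 2 a * (a.totient : ℝ) ^ 2) * (wt2 2 2 b * (b.totient : ℝ) ^ 2) := by
            apply mul_le_mul i1 i2 (by positivity)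
            exact le_trans (by positivity) i1
      _ = _ := by ring

lemma log_mul_card_divisors_le {c : ℝ} (hc : 0 < c) (hc1 : c ≤ 1) {n : ℕ} (hn : n ≠ 0) :
    (n.divisors.card : ℝ) * Real.log (2 * (n:ℝ) ^ 2 / c) ≤
      3 * (Real.log (2 / c) + 10) * (n.totient : ℝ) := by
  have hn0 : (0:ℝ) < n := by exact_mod_cast Nat.pos_of_ne_zero hn
  have hφ : (1:ℝ) ≤ n.totient := by
    exact_mod_cast Nat.totient_pos.mpr (Nat.pos_of_ne_zero hn)
  set φ : ℝ := (n.totient : ℝ) with hφd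
  set s := √φ with hs
  have hs2 : s * s = φ := Real.mul_self_sqrt (by linarith)
  have hs1 : 1 ≤ s := by rw [hs]; exact Real.one_le_sqrt.mpr hφ
  have h1 : (n.divisors.card : ℝ) ≤ 3 * s := by
    have h2 := card_divisors_sq_le n hn
    have h3 : wt2 (9/2) 2 n * wt2 2 3 n ≤ 9 := by
      calc wt2 (9/2) 2 n * wt2 2 3 n ≤ (9/2) * 2 :=
            mul_le_mul (wt2_le (by norm_num) _ _) (wt2_le (by norm_num) _ _)
              (le_trans zero_le_one (wt2_nonneg (by norm_num) _ _)) (by norm_num)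
        _ = 9 := by norm_num
    have h4 : (n.divisors.card : ℝ) ^ 2 ≤ (3 * s) ^ 2 := by
      calc (n.divisors.card : ℝ) ^ 2 ≤ (wt2 (9/2) 2 n * wt2 2 3 n) * φ := h2
        _ ≤ 9 * φ := by gcongr
        _ = (3 * s) ^ 2 := by rw [← hs2]; ring
    exact le_of_sq_le_sq h4 (by positivity)
  have h5 : Real.log n ≤ 1 + 4 * s := by
    have h6 := le_totient_sq n hn
    have h7 : (n:ℝ) ≤ 2 * φ ^ 2 := by
      calc (n:ℝ) ≤ wt2 2 2 n * φ ^ 2 := h6
        _ ≤ 2 * φ ^ 2 := by gcongr; exact wt2_le (by norm_num) _ _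
    have h8 : φ = s * s := hs2.symm
    have h9 : Real.log n ≤ Real.log (2 * φ ^ 2) := Real.log_le_log hn0 h7
    rw [Real.log_mul (by norm_num) (by positivity), Real.log_pow, h8,
      Real.log_mul (by positivity) (by positivity)] at h9
    have h10 : Real.log s ≤ s := (Real.log_le_sub_one_of_pos (by positivity)).trans (by linarith)
    have h11 : Real.log 2 ≤ 1 := by linarith [Real.log_two_lt_d9]
    push_cast at h9
    linarith
  have h6 : Real.log (2 * (n:ℝ) ^ 2 / c) = Real.log (2 / c) + 2 * Real.log n := by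
    have : 2 * (n:ℝ) ^ 2 / c = (2 / c) * (n:ℝ) ^ 2 := by ring
    rw [this, Real.log_mul (by positivity) (by positivity), Real.log_pow]
    push_cast; ring
  have hl : 0 ≤ Real.log (2 / c) := by
    apply Real.log_nonneg
    rw [le_div_iff₀ hc]; linarith
  have h7 : Real.log (2 * (n:ℝ) ^ 2 / c) ≤ (Real.log (2 / c) + 10) * s := by
    rw [h6]
    nlinarith
  calc (n.divisors.card : ℝ) * Real.log (2 * (n:ℝ) ^ 2 / c)
      ≤ (3 * s) * ((Real.log (2 / c) + 10) * s) := by
        apply mul_le_mul h1 h7 _ (by positivity)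
        rw [h6]
        have : 0 ≤ Real.log n := Real.log_natCast_nonneg n
        positivity
    _ = 3 * (Real.log (2 / c) + 10) * φ := by rw [← hs2]; ring

/-- lower bound for cyclotomic polynomials -/
lemma cyclotomic_lower {c : ℝ} (hc : 0 < c) (hc1 : c ≤ 1) {z : ℂ} (hz : DioZ c z) {q : ℕ}
    (hq : 0 < q) :
    Real.exp (-(3 * (Real.log (2 / c) + 10)) * (q.totient : ℝ)) ≤ ‖(cyclotomic q ℂ).eval z‖ := by
  obtain ⟨hz1, hz2⟩ := hz
  have hg : ∀ n : ℕ, 0 < n → z ^ n - 1 ≠ 0 := by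
    intro n hn h0
    have := hz2 n hn
    rw [h0, norm_zero] at this
    have hn0 : (0:ℝ) < n := by exact_mod_cast hn
    have : 0 < c / (n:ℝ) ^ 2 := by positivity
    linarith
  have hprod : ∀ n > 0, ∏ i ∈ n.divisors, (cyclotomic i ℂ).eval z = z ^ n - 1 := by
    intro n hn
    rw [← eval_prod, prod_cyclotomic_eq_X_pow_sub_one hn]
    simp
  have hf : ∀ n : ℕ, 0 < n → (cyclotomic n ℂ).eval z ≠ 0 := by
    intro n hn h0
    apply hg n hn
    rw [← hprod n hn]
    exact Finset.prod_eq_zero (Nat.mem_divisors_self n hn.ne') h0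
  have key := (ArithmeticFunction.prod_eq_iff_prod_pow_moebius_eq_of_nonzero hf hg).mp hprod q hq
  rw [← key, norm_prod]
  have hq0 : (0:ℝ) < q := by exact_mod_cast hq
  set e := c / (2 * (q:ℝ) ^ 2) with he
  have he0 : 0 < e := by positivity
  have hq1 : (1:ℝ) ≤ (q:ℝ) ^ 2 := by
    have : (1:ℝ) ≤ q := by exact_mod_cast hq
    exact one_le_pow₀ this
  have he1 : e ≤ 1 / 2 := by
    rw [he, div_le_iff₀ (by positivity)]; nlinarith
  have hfac : ∀ x ∈ q.divisorsAntidiagonal,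
      e ≤ ‖(z ^ x.2 - 1) ^ (ArithmeticFunction.moebius x.1)‖ := by
    intro x hx
    rw [Nat.mem_divisorsAntidiagonal] at hx
    have hx2 : 0 < x.2 := Nat.pos_of_ne_zero (fun h => hx.2 (by rw [← hx.1, h, mul_zero]))
    have hx1 : 0 < x.1 := Nat.pos_of_ne_zero (fun h => hx.2 (by rw [← hx.1, h, zero_mul]))
    have hle : x.2 ≤ q := by
      calc x.2 = 1 * x.2 := (one_mul _).symm
        _ ≤ x.1 * x.2 := Nat.mul_le_mul_right _ hx1
        _ = q := hx.1
    have hle' : (x.2:ℝ) ≤ q := by exact_mod_cast hle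
    have hx20 : (0:ℝ) < x.2 := by exact_mod_cast hx2
    have hlow : 2 * e ≤ ‖z ^ x.2 - 1‖ := by
      calc 2 * e = c / (q:ℝ) ^ 2 := by rw [he]; field_simp
        _ ≤ c / (x.2:ℝ) ^ 2 := by gcongr
        _ ≤ _ := hz2 _ hx2
    have hup : ‖z ^ x.2 - 1‖ ≤ 2 := by
      calc ‖z ^ x.2 - 1‖ ≤ ‖z ^ x.2‖ + ‖(1:ℂ)‖ := norm_sub_le _ _
        _ = 2 := by rw [norm_pow, hz1]; norm_num
    rw [norm_zpow]
    rcases ArithmeticFunction.moebius_eq_or x.1 with h | h | h
    · rw [h, zpow_zero]; linarith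
    · rw [h, zpow_one]; linarith
    · rw [h, zpow_neg, zpow_one]
      have h3 : (2:ℝ)⁻¹ ≤ ‖z ^ x.2 - 1‖⁻¹ := by
        apply inv_anti₀ _ hup
        linarith
      have : (2:ℝ)⁻¹ = 1 / 2 := by norm_num
      linarith
  have h1 : e ^ (q.divisors.card) ≤
      ∏ x ∈ q.divisorsAntidiagonal, ‖(z ^ x.2 - 1) ^ (ArithmeticFunction.moebius x.1)‖ := by
    have hcard : q.divisors.card = q.divisorsAntidiagonal.card := by
      rw [← Nat.map_div_right_divisors, Finset.card_map]
    rw [hcard, ← Finset.prod_const]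
    exact Finset.prod_le_prod (fun _ _ => he0.le) hfac
  refine le_trans ?_ h1
  rw [← Real.exp_log (pow_pos he0 _), Real.exp_le_exp, Real.log_pow]
  have h2 := log_mul_card_divisors_le hc hc1 hq.ne'
  have h3 : Real.log e = - Real.log (2 * (q:ℝ) ^ 2 / c) := by
    rw [← Real.log_inv, he, inv_div]
  rw [h3]
  linarith

end Pool.Agent.Work.MP_4c4335_nt
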