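import Mathlib

/-!
# Pigeonhole in boxes, and norms of integer polynomials at the roots of a monic polynomial
-/

namespace Pool.Agent.Work.MP_4c4335_nt

open Finset Polynomial

/-- A pigeonhole principle: if there are more points than boxes of side `1/2`, two of them
are at distance `< 1` in every coordinate. -/
lemma box {β ι : Type*} [Fintype β] [Fintype ι] [DecidableEq ι] (f : β → ι → ℂ) (R : ι → ℝ)
    (hR : ∀ i, 1 ≤ R i) (hf : ∀ b i, ‖f b i‖ ≤ R i)
    (hcard : ∏ i, (49 * R i ^ 2) < (Fintype.card β : ℝ)) :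
    ∃ b b', b ≠ b' ∧ ∀ i, ‖f b i - f b' i‖ < 1 := by
  classical
  let I : ι → Finset (ℤ × ℤ) := fun i => Icc (-⌈2 * R i⌉) ⌈2 * R i⌉ ×ˢ Icc (-⌈2 * R i⌉) ⌈2 * R i⌉
  let φ : β → ι → ℤ × ℤ := fun b i => (⌊2 * (f b i).re⌋, ⌊2 * (f b i).im⌋)
  have hmaps : ∀ b ∈ (Finset.univ : Finset β), φ b ∈ Fintype.piFinset I := by
    intro b _
    rw [Fintype.mem_piFinset]
    intro i
    have h1 := (Complex.abs_re_le_norm (f b i)).trans (hf b i)
    have h2 := (Complex.abs_im_le_norm (f b i)).trans (hf b i)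
    rw [abs_le] at h1 h2
    have h3 := Int.le_ceil (2 * R i)
    simp only [I, φ, Finset.mem_product, Finset.mem_Icc]
    refine ⟨⟨?_, ?_⟩, ⟨?_, ?_⟩⟩
    · rw [Int.le_floor]; push_cast; linarith [h1.1]
    · have : (⌊2 * (f b i).re⌋ : ℝ) ≤ ⌈2 * R i⌉ := (Int.floor_le _).trans (by linarith [h1.2])
      exact_mod_cast this
    · rw [Int.le_floor]; push_cast; linarith [h2.1]
    · have : (⌊2 * (f b i).im⌋ : ℝ) ≤ ⌈2 * R i⌉ := (Int.floor_le _).trans (by linarith [h2.2])
      exact_mod_cast this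
  have hc : ((Fintype.piFinset I).card : ℝ) ≤ ∏ i, (49 * R i ^ 2) := by
    rw [Fintype.card_piFinset]
    push_cast
    apply Finset.prod_le_prod
    · intro i _; positivity
    · intro i _
      have hcl : (⌈2 * R i⌉ : ℝ) < 2 * R i + 1 := Int.ceil_lt_add_one _
      have hR1 := hR i
      have hpos : 0 ≤ ⌈2 * R i⌉ := Int.ceil_nonneg (by linarith)
      have e1 : (((Icc (-⌈2 * R i⌉) ⌈2 * R i⌉).card : ℕ) : ℝ) ≤ 7 * R i := by
        rw [Int.card_Icc]
        have : ((⌈2 * R i⌉ + 1 - -⌈2 * R i⌉).toNat : ℤ) = 2 * ⌈2 * R i⌉ + 1 := by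
          rw [Int.toNat_of_nonneg (by linarith)]; ring
        have h' : (((⌈2 * R i⌉ + 1 - -⌈2 * R i⌉).toNat : ℕ) : ℝ) = 2 * (⌈2 * R i⌉ : ℝ) + 1 := by
          exact_mod_cast this
        rw [h']; linarith
      have e2 : (((I i).card : ℕ) : ℝ)
          = ((Icc (-⌈2 * R i⌉) ⌈2 * R i⌉).card : ℝ) * ((Icc (-⌈2 * R i⌉) ⌈2 * R i⌉).card : ℝ) := by
        simp only [I, Finset.card_product]; push_cast; ring
      rw [e2]
      nlinarith [e1, Nat.cast_nonneg (α := ℝ) ((Icc (-⌈2 * R i⌉) ⌈2 * R i⌉).card)]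
  have hlt : (Fintype.piFinset I).card < (Finset.univ : Finset β).card := by
    have := lt_of_le_of_lt hc hcard
    rw [Finset.card_univ]
    exact_mod_cast this
  obtain ⟨b, _, b', _, hne, heq⟩ := Finset.exists_ne_map_eq_of_card_lt_of_maps_to hlt hmaps
  refine ⟨b, b', hne, fun i => ?_⟩
  have h := congrFun heq i
  simp only [φ, Prod.mk.injEq] at h
  obtain ⟨h1, h2⟩ := h
  have a1 := Int.abs_sub_lt_one_of_floor_eq_floor h1
  have a2 := Int.abs_sub_lt_one_of_floor_eq_floor h2
  have b1 : |(f b i - f b' i).re| < 1 / 2 := by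
    rw [Complex.sub_re]
    rw [abs_lt] at a1 ⊢
    constructor <;> linarith [a1.1, a1.2]
  have b2 : |(f b i - f b' i).im| < 1 / 2 := by
    rw [Complex.sub_im]
    rw [abs_lt] at a2 ⊢
    constructor <;> linarith [a2.1, a2.2]
  calc ‖f b i - f b' i‖ ≤ |(f b i - f b' i).re| + |(f b i - f b' i).im| :=
        Complex.norm_le_abs_re_add_abs_im _
    _ < 1 := by linarith

/-- The value of an integer polynomial at a complex number. -/
noncomputable abbrev ev (P : ℤ[X]) (w : ℂ) : ℂ := Polynomial.aeval w P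

/-- The (complex) roots of an integer polynomial. -/
noncomputable abbrev rts (g : ℤ[X]) : Multiset ℂ := (g.map (Int.castRingHom ℂ)).roots

/-- Mahler measure of an integer polynomial -/
noncomputable abbrev mm (g : ℤ[X]) : ℝ := (g.map (Int.castRingHom ℂ)).mahlerMeasure

lemma ev_eq_eval (P : ℤ[X]) (w : ℂ) : ev P w = (P.map (Int.castRingHom ℂ)).eval w := by
  simp [ev, aeval_def, eval_map]

lemma monic_map {g : ℤ[X]} (hg : g.Monic) : (g.map (Int.castRingHom ℂ)).Monic := hg.map _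

lemma mem_rts {g : ℤ[X]} (hg : g ≠ 0) {w : ℂ} : w ∈ rts g ↔ ev g w = 0 := by
  have : g.map (Int.castRingHom ℂ) ≠ 0 := by
    rwa [Ne, Polynomial.map_eq_zero_iff (Int.castRingHom ℂ).injective_int]
  rw [rts, mem_roots this, IsRoot, ev_eq_eval]

lemma card_rts {g : ℤ[X]} (hg : g.Monic) : Multiset.card (rts g) = g.natDegree := by
  have h := (IsAlgClosed.splits (g.map (Int.castRingHom ℂ))).natDegree_eq_card_roots
  rw [rts, ← h, hg.natDegree_map]

lemma mm_eq {g : ℤ[X]} (hg : g.Monic) : mm g = ((rts g).map (fun a ↦ max 1 ‖a‖)).prod := by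
  rw [mm, mahlerMeasure_eq_leadingCoeff_mul_prod_roots, (monic_map hg).leadingCoeff]
  simp

/-- The product of the values of an integer polynomial over the roots of a monic
integer polynomial is an integer. -/
lemma norm_int {g : ℤ[X]} (hg : g.Monic) (H : ℤ[X]) :
    ∃ k : ℤ, (k : ℂ) = ((rts g).map (fun a ↦ ev H a)).prod := by
  refine ⟨resultant g H g.natDegree H.natDegree, ?_⟩
  have h1 := resultant_map_map g H g.natDegree H.natDegree (Int.castRingHom ℂ)
  have h2 := resultant_eq_prod_eval (g.map (Int.castRingHom ℂ)) (H.map (Int.castRingHom ℂ))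
    H.natDegree natDegree_map_le (IsAlgClosed.splits _)
  rw [(monic_map hg).leadingCoeff, one_pow, one_mul, hg.natDegree_map] at h2
  rw [h2] at h1
  have h3 : ((Int.castRingHom ℂ) (g.resultant H)) = ((g.resultant H : ℤ) : ℂ) := rfl
  rw [h3] at h1
  rw [← h1]
  congr 1
  apply Multiset.map_congr rfl
  intro a _
  rw [ev_eq_eval]

lemma multiset_norm_prod (s : Multiset ℂ) (f : ℂ → ℂ) :
    ‖(s.map f).prod‖ = (s.map (fun a ↦ ‖f a‖)).prod := by
  induction s using Multiset.induction with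
  | empty => simp
  | cons a s ih => simp [ih]

/-- If the norm-product is `< 1` then the polynomial vanishes at some root. -/
lemma exists_root_of_norm_lt_one {g : ℤ[X]} (hg : g.Monic) (H : ℤ[X])
    (h : ((rts g).map (fun a ↦ ‖ev H a‖)).prod < 1) : ∃ a ∈ rts g, ev H a = 0 := by
  obtain ⟨k, hk⟩ := norm_int hg H
  have h1 : ‖(k : ℂ)‖ < 1 := by rw [hk, multiset_norm_prod]; exact h
  have h2 : k = 0 := by
    have : |(k : ℝ)| < 1 := by simpa using h1
    have : |k| < 1 := by exact_mod_cast this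
    exact Int.abs_lt_one_iff.mp this
  rw [h2] at hk
  have h3 : ((rts g).map (fun a ↦ ev H a)).prod = 0 := by rw [← hk]; simp
  rw [Multiset.prod_eq_zero_iff, Multiset.mem_map] at h3
  exact h3

/-- An irreducible monic integer polynomial divides any integer polynomial vanishing at one of
its roots. -/
lemma dvd_of_ev_eq_zero {g : ℤ[X]} (hg : g.Monic) (hirr : Irreducible g) {a : ℂ}
    (ha : a ∈ rts g) {H : ℤ[X]} (h : ev H a = 0) : g ∣ H := by
  have hga : ev g a = 0 := (mem_rts hg.ne_zero).mp ha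
  have hint : IsIntegral ℤ a := ⟨g, hg, by simpa [ev, aeval_def] using hga⟩
  have h1 : minpoly ℤ a ∣ g := minpoly.isIntegrallyClosed_dvd hint hga
  have h2 : g = minpoly ℤ a := by
    have hm := minpoly.monic hint
    obtain ⟨q, hq⟩ := h1
    have hq1 : q.Monic := hm.of_mul_monic_left (by rw [← hq]; exact hg)
    rcases hirr.isUnit_or_isUnit hq with hu | hu
    · exact absurd hu (minpoly.not_isUnit ℤ a)
    · have : q = 1 := hq1.eq_one_of_isUnit hu
      rw [hq, this, mul_one]
  rw [h2]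
  exact minpoly.isIntegrallyClosed_dvd hint h

/-- Main integrality principle. -/
lemma dvd_of_norm_lt_one {g : ℤ[X]} (hg : g.Monic) (hirr : Irreducible g) (H : ℤ[X])
    (h : ((rts g).map (fun a ↦ ‖ev H a‖)).prod < 1) : g ∣ H := by
  obtain ⟨a, ha, h0⟩ := exists_root_of_norm_lt_one hg H h
  exact dvd_of_ev_eq_zero hg hirr ha h0

end Pool.Agent.Work.MP_4c4335_nt
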