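import Mathlib
import Pool.Agent.Work.MP_4c4335_nt.Box

/-!
# Powers of algebraic integers which generate the same field
-/

namespace Pool.Agent.Work.MP_4c4335_nt

open Finset Polynomial IntermediateField

/-- the exponent `r` is good for `a` if `a` is a rational expression in `a^r`. -/
def Good (a : ℂ) (r : ℕ) : Prop := a ∈ ℚ⟮a ^ r⟯

lemma natDegree_minpoly_int {a : ℂ} (ha : IsIntegral ℤ a) :
    (minpoly ℤ a).natDegree = Module.finrank ℚ ℚ⟮a⟯ := by
  have h1 := minpoly.isIntegrallyClosed_eq_field_fractions' ℚ ha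
  rw [adjoin.finrank ha.tower_top, h1, (minpoly.monic ha).natDegree_map]

lemma isIntegral_pow {a : ℂ} (ha : IsIntegral ℤ a) (r : ℕ) : IsIntegral ℤ (a ^ r) := ha.pow r

lemma mem_rts_minpoly {a : ℂ} (ha : IsIntegral ℤ a) : a ∈ rts (minpoly ℤ a) := by
  rw [mem_rts (minpoly.ne_zero ha)]
  exact minpoly.aeval ℤ a

/-- roots of the minimal polynomial are distinct -/
lemma nodup_rts_minpoly {a : ℂ} (ha : IsIntegral ℤ a) : (rts (minpoly ℤ a)).Nodup := by
  have h1 := minpoly.isIntegrallyClosed_eq_field_fractions' ℚ ha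
  have h2 : (minpoly ℚ a).Separable := (minpoly.irreducible ha.tower_top).separable
  have h3 : (minpoly ℤ a).map (Int.castRingHom ℂ) = (minpoly ℚ a).map (algebraMap ℚ ℂ) := by
    rw [h1, Polynomial.map_map]
    congr 1
  rw [rts, h3]
  exact nodup_roots (h2.map)

/-- If a rational polynomial vanishes at `a`, it vanishes at all conjugates of `a`. -/
lemma conj_root {a b : ℂ} (ha : IsIntegral ℤ a) (hb : b ∈ rts (minpoly ℤ a)) {H : ℚ[X]}
    (h : aeval a H = 0) : aeval b H = 0 := by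
  have h1 := minpoly.isIntegrallyClosed_eq_field_fractions' ℚ ha
  obtain ⟨q, hq⟩ := minpoly.dvd ℚ a h
  have h2 : aeval b (minpoly ℚ a) = 0 := by
    rw [h1, aeval_map_algebraMap]
    exact (mem_rts (minpoly.ne_zero ha)).mp hb
  rw [hq, map_mul, h2, zero_mul]

lemma exists_rat_poly {a : ℂ} {r : ℕ} (ha : IsIntegral ℤ a) (h : Good a r) :
    ∃ R : ℚ[X], aeval (a ^ r) R = a := by
  have h1 : a ∈ (ℚ⟮a ^ r⟯).toSubalgebra := h
  have h2 : IsAlgebraic ℚ (a ^ r) := ((isIntegral_pow ha r).tower_top (A := ℚ)).isAlgebraic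
  rw [adjoin_simple_toSubalgebra_of_isAlgebraic h2, Algebra.adjoin_singleton_eq_range_aeval] at h1
  obtain ⟨R, hR⟩ := h1
  exact ⟨R, hR⟩

lemma pow_injOn {a : ℂ} {r : ℕ} (ha : IsIntegral ℤ a) (h : Good a r) :
    ∀ x ∈ rts (minpoly ℤ a), ∀ y ∈ rts (minpoly ℤ a), x ^ r = y ^ r → x = y := by
  obtain ⟨R, hR⟩ := exists_rat_poly ha h
  have key : ∀ x ∈ rts (minpoly ℤ a), aeval (x ^ r) R = x := by
    intro x hx
    have h1 : aeval a (R.comp (X ^ r) - X) = 0 := by
      rw [map_sub, aeval_comp]; simp [hR]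
    have h2 := conj_root ha hx h1
    rw [map_sub, aeval_comp] at h2
    simp only [map_pow, aeval_X] at h2
    exact sub_eq_zero.mp h2
  intro x hx y hy hxy
  rw [← key x hx, hxy, key y hy]

lemma natDegree_pow {a : ℂ} {r : ℕ} (ha : IsIntegral ℤ a) (h : Good a r) :
    (minpoly ℤ (a ^ r)).natDegree = (minpoly ℤ a).natDegree := by
  rw [natDegree_minpoly_int ha, natDegree_minpoly_int (isIntegral_pow ha r)]
  have : ℚ⟮a ^ r⟯ = ℚ⟮a⟯ := by
    apply le_antisymm
    · rw [adjoin_simple_le_iff]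
      exact pow_mem (mem_adjoin_simple_self ℚ a) r
    · rw [adjoin_simple_le_iff]
      exact h
  rw [this]

lemma pow_mem_rts {a : ℂ} {r : ℕ} (ha : IsIntegral ℤ a) {x : ℂ} (hx : x ∈ rts (minpoly ℤ a)) :
    x ^ r ∈ rts (minpoly ℤ (a ^ r)) := by
  rw [mem_rts (minpoly.ne_zero (isIntegral_pow ha r))]
  have h1 : ev ((minpoly ℤ (a ^ r)).comp (X ^ r)) a = 0 := by
    rw [ev, aeval_comp]; simp [minpoly.aeval]
  have h2 := dvd_of_ev_eq_zero (minpoly.monic ha) (minpoly.irreducible ha) (mem_rts_minpoly ha) h1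
  obtain ⟨q, hq⟩ := h2
  have h3 : ev ((minpoly ℤ (a ^ r)).comp (X ^ r)) x = 0 := by
    rw [ev, hq, map_mul]
    have := (mem_rts (minpoly.ne_zero ha)).mp hx
    rw [ev] at this
    rw [this, zero_mul]
  rw [ev, aeval_comp] at h3
  simpa using h3

/-- the conjugates of `a^r` are exactly the `r`-th powers of the conjugates of `a`. -/
lemma rts_pow {a : ℂ} {r : ℕ} (ha : IsIntegral ℤ a) (h : Good a r) :
    rts (minpoly ℤ (a ^ r)) = (rts (minpoly ℤ a)).map (fun x ↦ x ^ r) := by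
  symm
  apply Multiset.eq_of_le_of_card_le
  · rw [Multiset.le_iff_subset]
    · intro y hy
      rw [Multiset.mem_map] at hy
      obtain ⟨x, hx, rfl⟩ := hy
      exact pow_mem_rts ha hx
    · rw [Multiset.nodup_map_iff_inj_on (nodup_rts_minpoly ha)]
      exact pow_injOn ha h
  · rw [Multiset.card_map, card_rts (minpoly.monic ha),
      card_rts (minpoly.monic (isIntegral_pow ha r)), natDegree_pow ha h]

lemma max_one_pow (x : ℝ) (hx : 0 ≤ x) (r : ℕ) : max 1 (x ^ r) = (max 1 x) ^ r := by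
  rcases le_total 1 x with h | h
  · rw [max_eq_right h, max_eq_right (one_le_pow₀ h)]
  · rw [max_eq_left h, max_eq_left (pow_le_one₀ hx h), one_pow]

lemma mm_pow {a : ℂ} {r : ℕ} (ha : IsIntegral ℤ a) (h : Good a r) :
    mm (minpoly ℤ (a ^ r)) = mm (minpoly ℤ a) ^ r := by
  rw [mm_eq (minpoly.monic ha), mm_eq (minpoly.monic (isIntegral_pow ha r)), rts_pow ha h,
    Multiset.map_map, ← Multiset.prod_map_pow]
  congr 1
  apply Multiset.map_congr rfl
  intro x _
  simp only [Function.comp, norm_pow]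
  exact max_one_pow _ (norm_nonneg _) r

lemma one_le_mm {g : ℤ[X]} (hg : g ≠ 0) : 1 ≤ mm g := one_le_mahlerMeasure_of_ne_zero hg

lemma mm_le_of_dvd {g H : ℤ[X]} (h : g ∣ H) (hH : H ≠ 0) : mm g ≤ mm H := by
  obtain ⟨q, rfl⟩ := h
  have hq : q ≠ 0 := right_ne_zero_of_mul hH
  have hg : g ≠ 0 := left_ne_zero_of_mul hH
  rw [mm, mm, Polynomial.map_mul, mahlerMeasure_mul]
  have h1 := one_le_mm hq
  have h2 := one_le_mm hg
  rw [mm] at h1 h2
  nlinarith

/-- The Mahler measure is at most the sum of the absolute values of the coefficients. -/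
lemma mm_le_of_coeff_le {F : ℤ[X]} {n : ℕ} {B : ℝ} (hdeg : F.natDegree < n)
    (hB : ∀ i, |(F.coeff i : ℝ)| ≤ B) : mm F ≤ n * B := by
  refine (mahlerMeasure_le_sum_norm_coeff _).trans ?_
  rw [Polynomial.sum_def]
  have hB0 : 0 ≤ B := (abs_nonneg _).trans (hB 0)
  calc ∑ i ∈ (F.map (Int.castRingHom ℂ)).support, ‖(F.map (Int.castRingHom ℂ)).coeff i‖
      ≤ ∑ i ∈ Finset.range n, ‖(F.map (Int.castRingHom ℂ)).coeff i‖ := by
        apply Finset.sum_le_sum_of_subset_of_nonneg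
        · intro i hi
          rw [Finset.mem_range]
          have h1 := le_natDegree_of_mem_supp i hi
          have h2 : (F.map (Int.castRingHom ℂ)).natDegree ≤ F.natDegree := natDegree_map_le
          omega
        · intro i _ _; exact norm_nonneg _
    _ ≤ ∑ i ∈ Finset.range n, B := by
        apply Finset.sum_le_sum
        intro i _
        rw [coeff_map]
        have : ‖(Int.castRingHom ℂ) (F.coeff i)‖ = |(F.coeff i : ℝ)| := by simp
        rw [this]; exact hB i
    _ = n * B := by simp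

/-- The number of bad primes is at most logarithmic in the degree. -/
lemma bad_primes {a : ℂ} (ha : IsIntegral ℤ a) (ha0 : a ≠ 0) (S : Finset ℕ)
    (hS : ∀ p ∈ S, p.Prime ∧ ¬ Good a p) : 2 ^ S.card ≤ (minpoly ℤ a).natDegree := by
  rw [natDegree_minpoly_int ha]
  have hfin : ∀ r : ℕ, FiniteDimensional ℚ ℚ⟮a ^ r⟯ := fun r =>
    adjoin.finiteDimensional ((isIntegral_pow ha r).tower_top)
  suffices h : 2 ^ S.card * Module.finrank ℚ ℚ⟮a ^ (∏ p ∈ S, p)⟯ ≤ Module.finrank ℚ ℚ⟮a⟯ by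
    have := hfin (∏ p ∈ S, p)
    have hpos : 0 < Module.finrank ℚ ℚ⟮a ^ (∏ p ∈ S, p)⟯ := Module.finrank_pos
    nlinarith
  induction S using Finset.induction_on with
  | empty =>
    rw [Finset.card_empty, Finset.prod_empty, pow_zero, one_mul, pow_one]
  | insert p S hp ih =>
    have ih' := ih (fun q hq => hS q (Finset.mem_insert_of_mem hq))
    have hpp := hS p (Finset.mem_insert_self p S)
    rw [Finset.prod_insert hp, Finset.card_insert_of_notMem hp]
    set P := ∏ q ∈ S, q with hP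
    have hle : ℚ⟮a ^ (p * P)⟯ ≤ ℚ⟮a ^ P⟯ := by
      rw [adjoin_simple_le_iff, mul_comm, pow_mul]
      exact pow_mem (mem_adjoin_simple_self ℚ _) p
    have := hfin P
    have := hfin (p * P)
    have hne : ℚ⟮a ^ (p * P)⟯ ≠ ℚ⟮a ^ P⟯ := by
      intro heq
      apply hpp.2
      have h1 : a ^ P ∈ ℚ⟮a ^ p⟯ := by
        have h2 : a ^ P ∈ ℚ⟮a ^ (p * P)⟯ := by rw [heq]; exact mem_adjoin_simple_self ℚ _
        have h3 : ℚ⟮a ^ (p * P)⟯ ≤ ℚ⟮a ^ p⟯ := by
          rw [adjoin_simple_le_iff, pow_mul]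
          exact pow_mem (mem_adjoin_simple_self ℚ _) P
        exact h3 h2
      have h2 : a ^ p ∈ ℚ⟮a ^ p⟯ := mem_adjoin_simple_self ℚ _
      have hcop : Nat.Coprime P p := by
        rw [hP]
        apply Nat.Coprime.prod_left
        intro q hq
        have hqp := (hS q (Finset.mem_insert_of_mem hq)).1
        rw [Nat.coprime_primes hqp hpp.1]
        rintro rfl
        exact hp hq
      have hbez := Nat.gcd_eq_gcd_ab P p
      rw [hcop] at hbez
      have h4 : a = (a ^ P) ^ (P.gcdA p) * (a ^ p) ^ (P.gcdB p) := by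
        rw [← zpow_natCast, ← zpow_natCast, ← zpow_mul, ← zpow_mul, ← zpow_add₀ ha0, ← hbez]
        simp
      unfold Good
      rw [h4]
      have h5 := mul_mem (zpow_mem h1 (P.gcdA p)) (zpow_mem h2 (P.gcdB p))
      rw [← h4]
      rw [← h4] at h5
      exact h5
    have hdvd := finrank_dvd_of_le_right (K := ℚ) hle
    obtain ⟨c, hc⟩ := hdvd
    have hc2 : 2 ≤ c := by
      have hpos : 0 < Module.finrank ℚ ℚ⟮a ^ P⟯ := Module.finrank_pos
      rcases Nat.lt_or_ge c 2 with h | h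
      · interval_cases c
        · omega
        · exfalso
          apply hne
          apply eq_of_le_of_finrank_eq hle
          rw [hc, mul_one]
      · exact h
    calc 2 ^ (S.card + 1) * Module.finrank ℚ ℚ⟮a ^ (p * P)⟯
        = 2 ^ S.card * (Module.finrank ℚ ℚ⟮a ^ (p * P)⟯ * 2) := by ring
      _ ≤ 2 ^ S.card * (Module.finrank ℚ ℚ⟮a ^ (p * P)⟯ * c) := by gcongr
      _ = 2 ^ S.card * Module.finrank ℚ ℚ⟮a ^ P⟯ := by rw [hc]
      _ ≤ _ := ih'

end Pool.Agent.Work.MP_4c4335_nt
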