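import Mathlib
import Pool.Agent.Work.MP_4c4335_nt.Power

/-!
# Many good primes
-/

namespace Pool.Agent.Work.MP_4c4335_nt

open Finset Polynomial Filter Real

lemma eventually_log_le_rpow (c : ℝ) (hc : 0 < c) : ∀ᶠ x : ℝ in atTop, Real.log x ≤ x ^ c := by
  have h := (isLittleO_log_rpow_atTop hc).bound (show (0:ℝ) < 1 by norm_num)
  filter_upwards [h, eventually_ge_atTop 1] with x hx hx1
  have h1 : 0 ≤ Real.log x := Real.log_nonneg hx1
  have h2 : 0 ≤ x ^ c := by positivity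
  rw [one_mul, Real.norm_of_nonneg h1, Real.norm_of_nonneg h2] at hx
  exact hx

/-- The number of primes up to `x` eventually exceeds `C * x ^ c` for `c < 1`. -/
lemma pi_lower (c C : ℝ) (hc : c < 1) : ∀ᶠ x : ℝ in atTop,
    C * x ^ c ≤ (Nat.primeCounting ⌊x⌋₊ : ℝ) := by
  have hd : 0 < (1 - c) / 2 := by linarith
  have h1 := eventually_log_le_rpow ((1 - c) / 2) hd
  have h2 : ∀ᶠ x : ℝ in atTop, 10 * (|C| + 1) ≤ x ^ ((1 - c) / 2) :=
    (tendsto_rpow_atTop hd).eventually_ge_atTop _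
  have h3 := eventually_log_le_rpow (1/2) (by norm_num)
  have h4 : ∀ᶠ x : ℝ in atTop, 100 ≤ x ^ (1/2 : ℝ) :=
    (tendsto_rpow_atTop (by norm_num)).eventually_ge_atTop _
  filter_upwards [h1, h2, h3, h4, eventually_ge_atTop 10] with x hx1 hx2 hx3 hx4 hx5
  have hx0 : 0 < x := by linarith
  have hlogpos : 0 < Real.log x := Real.log_pos (by linarith)
  refine le_trans ?_ (Chebyshev.pi_ge' (by linarith : (1:ℝ) < x))
  rw [le_div_iff₀ hlogpos]
  set u := x ^ ((1 - c) / 2) with hu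
  have hu0 : 0 < u := by positivity
  have hxc : x ^ c * u * u = x := by
    rw [hu, ← Real.rpow_add hx0, ← Real.rpow_add hx0]
    have : c + (1 - c) / 2 + (1 - c) / 2 = 1 := by ring
    rw [this, Real.rpow_one]
  have hxc0 : 0 < x ^ c := by positivity
  have e1 : C * x ^ c * Real.log x ≤ x / 10 := by
    calc C * x ^ c * Real.log x ≤ |C| * x ^ c * Real.log x := by
          gcongr; exact le_abs_self C
      _ ≤ |C| * x ^ c * u := by gcongr
      _ = (|C|) * (x ^ c * u) := by ring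
      _ ≤ (u / 10) * (x ^ c * u) := by
          have : |C| ≤ u / 10 := by linarith
          gcongr
      _ = (x ^ c * u * u) / 10 := by ring
      _ = x / 10 := by rw [hxc]
  set y := x ^ (1/2 : ℝ) with hy
  have hy0 : 0 < y := by positivity
  have hyy : y * y = x := by
    rw [hy, ← Real.rpow_add hx0]; norm_num
  have hlog2 : Real.log (x + 2) ≤ 2 * y := by
    have : x + 2 ≤ x * x := by nlinarith
    calc Real.log (x + 2) ≤ Real.log (x * x) := Real.log_le_log (by linarith) this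
      _ = 2 * Real.log x := by rw [Real.log_mul hx0.ne' hx0.ne']; ring
      _ ≤ 2 * y := by linarith
  have hl2 : (0.69 : ℝ) ≤ Real.log 2 := by linarith [Real.log_two_gt_d9]
  have e2 : 0.69 * (x - 1) - 2 * y ≤ (x - 1) * Real.log 2 - Real.log (x + 2) := by
    nlinarith
  nlinarith

/-- Good primes exist in an interval if there are many primes. -/
lemma good_primes {x y K : ℝ} {T : ℕ} (hT2 : 2 ≤ T) (hx0 : 0 ≤ x) (hy0 : 0 ≤ y)
    (hpi : y + 2 * Real.log T + K ≤ (Nat.primeCounting ⌊x⌋₊ : ℝ))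
    {α : ℂ} (hα : IsIntegral ℤ α) (hα0 : α ≠ 0) (hdeg : (minpoly ℤ α).natDegree ≤ T) :
    ∃ P : Finset ℕ, K ≤ P.card ∧
      ∀ p ∈ P, p.Prime ∧ Good α p ∧ y < p ∧ (p:ℝ) ≤ x := by
  classical
  have hT1 : (1:ℝ) < T := by exact_mod_cast hT2
  have hT0 : (0:ℝ) < T := by linarith
  set Q := Nat.primesLE ⌊x⌋₊ with hQ
  set P := Q.filter (fun p : ℕ => y < (p:ℝ) ∧ Good α p) with hP
  set S := Q.filter (fun p : ℕ => ¬ Good α p) with hS
  set U := Q.filter (fun p : ℕ => ¬ (y < (p:ℝ))) with hU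
  have hcover : Q ⊆ P ∪ (S ∪ U) := by
    intro p hp
    by_cases c1 : Good α p
    · by_cases c2 : y < p
      · exact Finset.mem_union_left _ (Finset.mem_filter.mpr ⟨hp, c2, c1⟩)
      · exact Finset.mem_union_right _ (Finset.mem_union_right _ (Finset.mem_filter.mpr ⟨hp, c2⟩))
    · exact Finset.mem_union_right _ (Finset.mem_union_left _ (Finset.mem_filter.mpr ⟨hp, c1⟩))
  have hcard : Q.card ≤ P.card + (S.card + U.card) :=
    (Finset.card_le_card hcover).trans ((Finset.card_union_le _ _).trans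
      (Nat.add_le_add_left (Finset.card_union_le _ _) _))
  have hScard : (S.card : ℝ) ≤ 2 * Real.log T := by
    have h3 : 2 ^ S.card ≤ T := by
      refine (bad_primes hα hα0 S ?_).trans hdeg
      intro p hp
      rw [hS, Finset.mem_filter, hQ, Nat.mem_primesLE] at hp
      exact ⟨hp.1.2, hp.2⟩
    have h4 : (2:ℝ) ^ S.card ≤ T := by exact_mod_cast h3
    have h5 := Real.log_le_log (by positivity) h4
    rw [Real.log_pow] at h5
    have hl2 : (0.69 : ℝ) ≤ Real.log 2 := by linarith [Real.log_two_gt_d9]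
    have : (0:ℝ) ≤ S.card := Nat.cast_nonneg _
    nlinarith
  have hUcard : (U.card : ℝ) ≤ y := by
    have h3 : U ⊆ Finset.Icc 1 ⌊y⌋₊ := by
      intro p hp
      rw [hU, Finset.mem_filter, hQ, Nat.mem_primesLE] at hp
      rw [Finset.mem_Icc]
      refine ⟨hp.1.2.one_le, ?_⟩
      apply Nat.le_floor
      exact not_lt.mp hp.2
    have h4 := Finset.card_le_card h3
    rw [Nat.card_Icc] at h4
    have h5 : (U.card : ℝ) ≤ (⌊y⌋₊ : ℝ) := by exact_mod_cast (by omega : U.card ≤ ⌊y⌋₊)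
    exact h5.trans (Nat.floor_le hy0)
  have hQcard : (Q.card : ℝ) = (Nat.primeCounting ⌊x⌋₊ : ℝ) := by
    simp [hQ]
  refine ⟨P, ?_, ?_⟩
  · have h6 : (Q.card : ℝ) ≤ P.card + (S.card + U.card) := by exact_mod_cast hcard
    rw [hQcard] at h6
    linarith
  · intro p hp
    rw [hP, Finset.mem_filter, hQ, Nat.mem_primesLE] at hp
    refine ⟨hp.1.2, hp.2.2, hp.2.1, ?_⟩
    have : (p:ℝ) ≤ (⌊x⌋₊ : ℝ) := by exact_mod_cast hp.1.1
    exact this.trans (Nat.floor_le hx0)

end Pool.Agent.Work.MP_4c4335_nt
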