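import Mathlib
import Pool.Agent.Work.MP_4c4335_nt.Primes

/-!
# A Dobrowolski type argument
-/

namespace Pool.Agent.Work.MP_4c4335_nt

open Finset Polynomial Filter Real

/-- the finite set of conjugates of an algebraic integer -/
noncomputable def cj (α : ℂ) : Finset ℂ := (rts (minpoly ℤ α)).toFinset

lemma cj_val {α : ℂ} (hα : IsIntegral ℤ α) : (cj α).val = rts (minpoly ℤ α) := by
  rw [cj, Multiset.toFinset_val, Multiset.dedup_eq_self.mpr (nodup_rts_minpoly hα)]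

lemma mem_cj {α x : ℂ} : x ∈ cj α ↔ x ∈ rts (minpoly ℤ α) := by
  rw [cj, Multiset.mem_toFinset]

lemma prod_cj {α : ℂ} (hα : IsIntegral ℤ α) (f : ℂ → ℝ) :
    ∏ x ∈ cj α, f x = ((rts (minpoly ℤ α)).map f).prod := by
  rw [Finset.prod, cj_val hα]

lemma card_cj {α : ℂ} (hα : IsIntegral ℤ α) : (cj α).card = (minpoly ℤ α).natDegree := by
  rw [Finset.card, cj_val hα, card_rts (minpoly.monic hα)]

lemma cj_nonempty {α : ℂ} (hα : IsIntegral ℤ α) : (cj α).Nonempty :=
  ⟨α, mem_cj.mpr (mem_rts_minpoly hα)⟩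

lemma mm_eq_cj {α : ℂ} (hα : IsIntegral ℤ α) : mm (minpoly ℤ α) = ∏ x ∈ cj α, max 1 ‖x‖ := by
  rw [prod_cj hα, mm_eq (minpoly.monic hα)]

lemma dvd_of_prod_lt_one {α : ℂ} (hα : IsIntegral ℤ α) (H : ℤ[X])
    (h : ∏ x ∈ cj α, ‖ev H x‖ < 1) : minpoly ℤ α ∣ H := by
  apply dvd_of_norm_lt_one (minpoly.monic hα) (minpoly.irreducible hα)
  rwa [prod_cj hα] at h

lemma ev_deriv_ne_zero {α : ℂ} (hα : IsIntegral ℤ α) {x : ℂ} (hx : x ∈ cj α) :
    ev (derivative (minpoly ℤ α)) x ≠ 0 := by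
  rw [mem_cj] at hx
  have h1 := nodup_rts_minpoly hα
  have hne : (minpoly ℤ α).map (Int.castRingHom ℂ) ≠ 0 := (monic_map (minpoly.monic hα)).ne_zero
  have h2 : ((minpoly ℤ α).map (Int.castRingHom ℂ)).rootMultiplicity x = 1 := by
    rw [← count_roots]
    exact Multiset.count_eq_one_of_mem h1 hx
  intro h3
  rw [ev_eq_eval, ← derivative_map] at h3
  have h4 : ((minpoly ℤ α).map (Int.castRingHom ℂ)).IsRoot x := (mem_roots hne).mp hx
  have := (one_lt_rootMultiplicity_iff_isRoot hne).mpr ⟨h4, h3⟩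
  omega

/-- The product of the derivative over the conjugates has absolute value at least `1`. -/
lemma one_le_prod_deriv {α : ℂ} (hα : IsIntegral ℤ α) :
    1 ≤ ∏ x ∈ cj α, ‖ev (derivative (minpoly ℤ α)) x‖ := by
  by_contra hcon
  push Not at hcon
  rw [prod_cj hα] at hcon
  obtain ⟨a, ha, h0⟩ := exists_root_of_norm_lt_one (minpoly.monic hα) _ hcon
  exact ev_deriv_ne_zero hα (mem_cj.mpr ha) h0

/-- Taylor coefficient of `g^j * H` at a root of `g`. -/
lemma taylor_coeff_pow_mul (G H : ℂ[X]) (x : ℂ) (hG : G.eval x = 0) (j : ℕ) :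
    (taylor x (G ^ j * H)).coeff j = (derivative G).eval x ^ j * H.eval x := by
  have h1 : taylor x (G ^ j * H) = (taylor x G) ^ j * taylor x H := by
    rw [taylor_mul]
    congr 1
    exact map_pow (taylorAlgHom x) G j
  have h2 : X ∣ taylor x G := by rw [X_dvd_iff, taylor_coeff_zero, hG]
  obtain ⟨Q, hQ⟩ := h2
  have h3 : Q.coeff 0 = (derivative G).eval x := by
    rw [← taylor_coeff_one, hQ, coeff_X_mul]
  have h4 := coeff_X_pow_mul (Q ^ j * taylor x H) j 0
  rw [Nat.zero_add] at h4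
  rw [h1, hQ, mul_pow, mul_assoc, h4]
  rw [mul_coeff_zero, taylor_coeff_zero, coeff_zero_eq_eval_zero (Q ^ j), eval_pow,
    ← coeff_zero_eq_eval_zero, h3]

/-- polynomial with given coefficients -/
noncomputable def mkPoly {N : ℕ} (c : Fin N → ℤ) : ℤ[X] := ∑ j, C (c j) * X ^ (j : ℕ)

lemma mkPoly_coeff {N : ℕ} (c : Fin N → ℤ) (i : ℕ) :
    (mkPoly c).coeff i = if h : i < N then c ⟨i, h⟩ else 0 := by
  rw [mkPoly, finsetSum_coeff]
  simp only [coeff_C_mul, coeff_X_pow]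
  split_ifs with h
  · rw [Finset.sum_eq_single ⟨i, h⟩]
    · simp
    · intro j _ hj
      have : i ≠ (j : ℕ) := fun h' => hj (Fin.ext h'.symm)
      simp [this]
    · intro h'; exact absurd (Finset.mem_univ _) h'
  · apply Finset.sum_eq_zero
    intro j _
    have : i ≠ (j : ℕ) := fun h' => h (h' ▸ j.2)
    simp [this]

lemma mkPoly_sub {N : ℕ} (c c' : Fin N → ℤ) : mkPoly c - mkPoly c' = mkPoly (c - c') := by
  rw [mkPoly, mkPoly, mkPoly, ← Finset.sum_sub_distrib]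
  apply Finset.sum_congr rfl
  intro j _
  rw [Pi.sub_apply, C_sub]; ring

lemma mkPoly_ne_zero {N : ℕ} {c : Fin N → ℤ} (h : c ≠ 0) : mkPoly c ≠ 0 := by
  intro h0
  apply h
  ext j
  have := mkPoly_coeff c j
  rw [h0] at this
  simp only [coeff_zero, Fin.is_lt, dite_true] at this
  exact this.symm

lemma mkPoly_natDegree_lt {N : ℕ} (hN : 0 < N) (c : Fin N → ℤ) : (mkPoly c).natDegree < N := by
  by_cases h0 : mkPoly c = 0
  · rw [h0]; simpa using hN
  rw [natDegree_lt_iff_degree_lt h0, degree_lt_iff_coeff_zero]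
  intro m hm
  rw [mkPoly_coeff, dif_neg (by omega)]

end Pool.Agent.Work.MP_4c4335_nt
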