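import Mathlib
import Pool.Agent.Work.MP_4c4335_nt.Dob

/-!
# A Dobrowolski type argument, part 2
-/

namespace Pool.Agent.Work.MP_4c4335_nt

open Finset Polynomial Filter Real

lemma prod_lt_one_of_lt_one {s : Finset ℂ} (hs : s.Nonempty) {f : ℂ → ℝ}
    (h0 : ∀ x ∈ s, 0 ≤ f x) (h1 : ∀ x ∈ s, f x < 1) : ∏ x ∈ s, f x < 1 := by
  classical
  induction hs using Finset.Nonempty.cons_induction with
  | singleton a => simpa using h1 a (Finset.mem_singleton_self a)
  | cons a s ha hs ih =>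
    rw [Finset.prod_cons]
    have i1 := ih (fun x hx => h0 x (Finset.mem_cons_of_mem hx))
      (fun x hx => h1 x (Finset.mem_cons_of_mem hx))
    have i2 := h1 a (Finset.mem_cons_self a s)
    have i3 := h0 a (Finset.mem_cons_self a s)
    have i4 : 0 ≤ ∏ x ∈ s, f x := Finset.prod_nonneg (fun x hx => h0 x (Finset.mem_cons_of_mem hx))
    nlinarith

/-- the Taylor coefficients of a polynomial with small coefficients -/
lemma taylor_coeff_bound {N : ℕ} (c : Fin N → ℤ) (hc : ∀ j, |c j| ≤ 1) (x : ℂ) (a : ℕ) :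
    ‖(taylor x ((mkPoly c).map (Int.castRingHom ℂ))).coeff a‖ ≤
      (N : ℝ) ^ (a + 1) * (max 1 ‖x‖) ^ N := by
  have h1 : (taylor x ((mkPoly c).map (Int.castRingHom ℂ))).coeff a
      = ∑ j : Fin N, (c j : ℂ) * (x ^ ((j:ℕ) - a) * (((j:ℕ).choose a : ℕ) : ℂ)) := by
    rw [mkPoly, Polynomial.map_sum, map_sum, finsetSum_coeff]
    apply Finset.sum_congr rfl
    intro j _
    rw [Polynomial.map_mul, Polynomial.map_pow, map_X, map_C, taylor_mul, taylor_C,
      taylor_X_pow, coeff_C_mul, coeff_X_add_C_pow]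
    rfl
  rw [h1]
  calc ‖∑ j : Fin N, (c j : ℂ) * (x ^ ((j:ℕ) - a) * (((j:ℕ).choose a : ℕ) : ℂ))‖
      ≤ ∑ j : Fin N, ‖(c j : ℂ) * (x ^ ((j:ℕ) - a) * (((j:ℕ).choose a : ℕ) : ℂ))‖ :=
        norm_sum_le _ _
    _ ≤ ∑ j : Fin N, (N : ℝ) ^ a * (max 1 ‖x‖) ^ N := by
        apply Finset.sum_le_sum
        intro j _
        rw [norm_mul, norm_mul, norm_pow]
        have e1 : ‖(c j : ℂ)‖ ≤ 1 := by
          rw [Complex.norm_intCast]; exact_mod_cast hc j
        have e2 : ‖x‖ ^ ((j:ℕ) - a) ≤ (max 1 ‖x‖) ^ N := by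
          calc ‖x‖ ^ ((j:ℕ) - a) ≤ (max 1 ‖x‖) ^ ((j:ℕ) - a) := by
                gcongr; exact le_max_right _ _
            _ ≤ (max 1 ‖x‖) ^ N := by
                apply pow_le_pow_right₀ (le_max_left _ _)
                have := j.2; omega
        have e3 : ‖(((j:ℕ).choose a : ℕ) : ℂ)‖ ≤ (N:ℝ) ^ a := by
          rw [Complex.norm_natCast]
          have : (j:ℕ).choose a ≤ N ^ a :=
            (Nat.choose_le_pow _ _).trans (Nat.pow_le_pow_left j.2.le a)
          exact_mod_cast this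
        calc ‖(c j : ℂ)‖ * (‖x‖ ^ ((j:ℕ) - a) * ‖(((j:ℕ).choose a : ℕ) : ℂ)‖)
            ≤ 1 * ((max 1 ‖x‖) ^ N * (N:ℝ) ^ a) := by gcongr
          _ = (N : ℝ) ^ a * (max 1 ‖x‖) ^ N := by ring
    _ = (N : ℝ) ^ (a + 1) * (max 1 ‖x‖) ^ N := by
        rw [Finset.sum_const, Finset.card_univ, Fintype.card_fin, nsmul_eq_mul]; ring

/-- Small polynomials vanishing to high order at an algebraic integer. -/
lemma exists_multiple {α : ℂ} (hα : IsIntegral ℤ α) (k N : ℕ) (hN : 0 < N)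
    (hcard : (49:ℝ) ^ ((minpoly ℤ α).natDegree * k)
      * (N:ℝ) ^ ((minpoly ℤ α).natDegree * (k * (k + 1)))
      * (mm (minpoly ℤ α)) ^ (2 * N * k) < 2 ^ N) :
    ∃ F : ℤ[X], F ≠ 0 ∧ F.natDegree < N ∧ (∀ i, |F.coeff i| ≤ 1) ∧ (minpoly ℤ α) ^ k ∣ F := by
  classical
  set d := (minpoly ℤ α).natDegree with hd
  set g := minpoly ℤ α with hg
  let co : (Fin N → Fin 2) → (Fin N → ℤ) := fun c j => ((c j : ℕ) : ℤ)
  let f : (Fin N → Fin 2) → ({x // x ∈ cj α} × Fin k) → ℂ := fun c i =>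
    (taylor i.1.1 ((mkPoly (co c)).map (Int.castRingHom ℂ))).coeff i.2
  let R : ({x // x ∈ cj α} × Fin k) → ℝ := fun i =>
    (N : ℝ) ^ ((i.2 : ℕ) + 1) * (max 1 ‖i.1.1‖) ^ N
  have hN1 : (1:ℝ) ≤ N := by exact_mod_cast hN
  have hco : ∀ c j, |co c j| ≤ 1 := by
    intro c j
    have : (c j : ℕ) < 2 := (c j).2
    simp only [co]
    rw [abs_le]
    constructor <;> omega
  have hprod : ∏ i, (49 * R i ^ 2) = (49:ℝ) ^ (d * k) * (N:ℝ) ^ (d * (k * (k + 1)))
      * (mm g) ^ (2 * N * k) := by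
    rw [Finset.prod_mul_distrib, Finset.prod_const, Finset.card_univ, Fintype.card_prod,
      Fintype.card_coe, card_cj hα, Fintype.card_fin, ← hd, mul_assoc]
    congr 1
    rw [Fintype.prod_prod_type]
    simp only [R, mul_pow]
    have e1 : ∀ x : {x // x ∈ cj α}, ∏ y : Fin k, (((N:ℝ) ^ ((y:ℕ) + 1)) ^ 2
        * ((max 1 ‖x.1‖) ^ N) ^ 2) = (N:ℝ) ^ (k * (k + 1)) * (max 1 ‖x.1‖) ^ (2 * N * k) := by
      intro x
      rw [Finset.prod_mul_distrib]
      congr 1
      · rw [Fin.prod_univ_eq_prod_range (fun y => ((N:ℝ) ^ (y + 1)) ^ 2) k]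
        rw [Finset.prod_pow, Finset.prod_pow_eq_pow_sum, ← pow_mul]
        congr 1
        have := Finset.sum_range_id_mul_two (k + 1)
        rw [Finset.sum_range_succ'] at this
        simp only [add_zero, Nat.add_sub_cancel] at this
        rw [this]; ring
      · rw [Finset.prod_const, Finset.card_univ, Fintype.card_fin, ← pow_mul, ← pow_mul]
        congr 1; ring
    rw [Finset.prod_congr rfl (fun x _ => e1 x), Finset.prod_mul_distrib, Finset.prod_const,
      Finset.card_univ, Fintype.card_coe, card_cj hα, ← hd, ← pow_mul,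
      mul_comm (k * (k + 1)) d]
    congr 1
    rw [hg, mm_eq_cj hα, Finset.prod_pow]
    rw [← Finset.prod_coe_sort (cj α) (fun x => max 1 ‖x‖)]
  obtain ⟨c, c', hne, hlt⟩ := box f R (by
      intro i
      have : 1 ≤ max 1 ‖i.1.1‖ := le_max_left _ _
      exact one_le_mul_of_one_le_of_one_le (one_le_pow₀ hN1) (one_le_pow₀ this))
    (fun c i => taylor_coeff_bound (co c) (hco c) _ _)
    (by
      rw [hprod, Fintype.card_fun, Fintype.card_fin, Fintype.card_fin]
      push_cast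
      exact hcard)
  have hcne : co c - co c' ≠ 0 := by
    intro h
    apply hne
    ext j
    have := congrFun h j
    simp only [co, Pi.sub_apply, Pi.zero_apply] at this
    omega
  set F := mkPoly (co c) - mkPoly (co c') with hF
  have hF' : F = mkPoly (co c - co c') := by rw [hF, mkPoly_sub]
  have hcoeff : ∀ i, |F.coeff i| ≤ 1 := by
    intro i
    rw [hF', mkPoly_coeff]
    split_ifs with h
    · have h1 : (c ⟨i, h⟩ : ℕ) < 2 := (c ⟨i, h⟩).2
      have h2 : (c' ⟨i, h⟩ : ℕ) < 2 := (c' ⟨i, h⟩).2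
      simp only [co, Pi.sub_apply]
      rw [abs_le]
      constructor <;> omega
    · simp
  refine ⟨F, by rw [hF']; exact mkPoly_ne_zero hcne,
    by rw [hF']; exact mkPoly_natDegree_lt hN _, hcoeff, ?_⟩
  have hsmall : ∀ x ∈ cj α, ∀ a < k, ‖(taylor x (F.map (Int.castRingHom ℂ))).coeff a‖ < 1 := by
    intro x hx a ha
    have := hlt (⟨x, hx⟩, ⟨a, ha⟩)
    simp only [f] at this
    rw [hF, Polynomial.map_sub, map_sub, coeff_sub]
    exact this
  have hind : ∀ j ≤ k, g ^ j ∣ F := by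
    intro j
    induction j with
    | zero => intro _; simp
    | succ j ih =>
      intro hj
      obtain ⟨H, hH⟩ := ih (by omega)
      have h1 : ∀ x ∈ cj α, ‖ev (derivative g) x‖ ^ j * ‖ev H x‖ < 1 := by
        intro x hx
        have h2 := hsmall x hx j (by omega)
        rw [hH, Polynomial.map_mul, Polynomial.map_pow, taylor_coeff_pow_mul, norm_mul, norm_pow,
          derivative_map, ← ev_eq_eval, ← ev_eq_eval] at h2
        · exact h2
        · rw [← ev_eq_eval]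
          exact (mem_rts (minpoly.ne_zero hα)).mp (mem_cj.mp hx)
      have h2 : ∏ x ∈ cj α, (‖ev (derivative g) x‖ ^ j * ‖ev H x‖) < 1 :=
        prod_lt_one_of_lt_one (cj_nonempty hα) (fun x _ => by positivity) h1
      rw [Finset.prod_mul_distrib, Finset.prod_pow] at h2
      have h3 : 1 ≤ (∏ x ∈ cj α, ‖ev (derivative g) x‖) ^ j := one_le_pow₀ (one_le_prod_deriv hα)
      have h4 : 0 ≤ ∏ x ∈ cj α, ‖ev H x‖ := Finset.prod_nonneg (fun x _ => norm_nonneg _)
      have h5 : ∏ x ∈ cj α, ‖ev H x‖ < 1 := by nlinarith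
      obtain ⟨H', hH'⟩ := dvd_of_prod_lt_one hα H h5
      rw [hH, hH', pow_succ]
      exact ⟨H', by ring⟩
  exact hind k le_rfl

/-- Frobenius congruence -/
lemma expand_eq (g : ℤ[X]) (p : ℕ) (hp : p.Prime) :
    ∃ s : ℤ[X], expand ℤ p g = g ^ p + C (p : ℤ) * s := by
  have : Fact p.Prime := ⟨hp⟩
  have h1 : (expand ℤ p g - g ^ p).map (Int.castRingHom (ZMod p)) = 0 := by
    rw [Polynomial.map_sub, map_expand, ZMod.expand_card, Polynomial.map_pow, sub_self]
  have h2 : C (p : ℤ) ∣ expand ℤ p g - g ^ p := by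
    rw [C_dvd_iff_dvd_coeff]
    intro i
    have := congrArg (fun q => coeff q i) h1
    simp only [coeff_map, coeff_zero] at this
    rw [← ZMod.intCast_zmod_eq_zero_iff_dvd]
    exact_mod_cast this
  obtain ⟨s, hs⟩ := h2
  exact ⟨s, by rw [← hs]; ring⟩

lemma ev_expand (F : ℤ[X]) (p : ℕ) (x : ℂ) : ev (expand ℤ p F) x = ev F (x ^ p) := by
  rw [ev, ev, expand_aeval]

/-- bound for the value of an integer polynomial -/
lemma ev_bound {F : ℤ[X]} {N : ℕ} {B : ℝ} (hdeg : F.natDegree < N)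
    (hB : ∀ i, |(F.coeff i : ℝ)| ≤ B) (x : ℂ) : ‖ev F x‖ ≤ N * B * (max 1 ‖x‖) ^ N := by
  rw [ev, aeval_eq_sum_range' hdeg]
  have hB0 : 0 ≤ B := (abs_nonneg _).trans (hB 0)
  calc ‖∑ i ∈ range N, F.coeff i • x ^ i‖ ≤ ∑ i ∈ range N, ‖F.coeff i • x ^ i‖ := norm_sum_le _ _
    _ ≤ ∑ i ∈ range N, B * (max 1 ‖x‖) ^ N := by
        apply Finset.sum_le_sum
        intro i hi
        rw [zsmul_eq_mul, norm_mul, norm_pow, Complex.norm_intCast]
        have e2 : ‖x‖ ^ i ≤ (max 1 ‖x‖) ^ N := by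
          calc ‖x‖ ^ i ≤ (max 1 ‖x‖) ^ i := by gcongr; exact le_max_right _ _
            _ ≤ (max 1 ‖x‖) ^ N := by
                apply pow_le_pow_right₀ (le_max_left _ _)
                exact (Finset.mem_range.mp hi).le
        have := hB i
        gcongr
    _ = N * B * (max 1 ‖x‖) ^ N := by
        rw [Finset.sum_const, Finset.card_range, nsmul_eq_mul]; ring

/-- the key vanishing statement -/
lemma vanish_at_pow {α : ℂ} (hα : IsIntegral ℤ α) {k N p : ℕ} (hp : p.Prime) {F : ℤ[X]}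
    (hdeg : F.natDegree < N) (hc : ∀ i, |F.coeff i| ≤ 1) (hdvd : (minpoly ℤ α) ^ k ∣ F)
    (hlt : (N:ℝ) ^ (minpoly ℤ α).natDegree * (mm (minpoly ℤ α)) ^ (p * N)
      < (p:ℝ) ^ (k * (minpoly ℤ α).natDegree)) : ev F (α ^ p) = 0 := by
  obtain ⟨H, hH⟩ := hdvd
  obtain ⟨s, hs⟩ := expand_eq (minpoly ℤ α) p hp
  set g := minpoly ℤ α with hg
  set K := s ^ k * expand ℤ p H with hK
  have hp0 : (0:ℝ) < p := by exact_mod_cast hp.pos
  have key : ∀ x ∈ cj α, ev F (x ^ p) = (p:ℂ) ^ k * ev K x := by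
    intro x hx
    have h0 : ev g x = 0 := (mem_rts (minpoly.ne_zero hα)).mp (mem_cj.mp hx)
    rw [← ev_expand, hH, map_mul, map_pow, hs, hK]
    simp only [ev] at h0 ⊢
    simp only [map_mul, map_pow, map_add, h0, aeval_C]
    rw [zero_pow hp.ne_zero]
    simp only [algebraMap_int_eq, eq_intCast, Int.cast_natCast]
    ring
  have h1 : ∏ x ∈ cj α, ‖ev F (x ^ p)‖ ≤
      (N:ℝ) ^ g.natDegree * (mm g) ^ (p * N) := by
    calc ∏ x ∈ cj α, ‖ev F (x ^ p)‖ ≤ ∏ x ∈ cj α, ((N:ℝ) * (max 1 ‖x‖) ^ (p * N)) := by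
          apply Finset.prod_le_prod
          · intro x _; exact norm_nonneg _
          · intro x _
            have h2 := ev_bound (B := 1) hdeg (fun i => by exact_mod_cast hc i) (x ^ p)
            rw [norm_pow, max_one_pow _ (norm_nonneg x) p, ← pow_mul, mul_one] at h2
            exact h2
      _ = (N:ℝ) ^ g.natDegree * (mm g) ^ (p * N) := by
          rw [Finset.prod_mul_distrib, Finset.prod_const, card_cj hα, Finset.prod_pow,
            hg, mm_eq_cj hα]
  have h2 : ∏ x ∈ cj α, ‖ev F (x ^ p)‖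
      = (p:ℝ) ^ (k * g.natDegree) * ∏ x ∈ cj α, ‖ev K x‖ := by
    rw [Finset.prod_congr rfl (fun x hx => by rw [key x hx])]
    simp only [norm_mul, norm_pow, Complex.norm_natCast]
    rw [Finset.prod_mul_distrib, Finset.prod_const, card_cj hα, ← pow_mul]
  have h3 : ∏ x ∈ cj α, ‖ev K x‖ < 1 := by
    have h4 : (p:ℝ) ^ (k * g.natDegree) * ∏ x ∈ cj α, ‖ev K x‖ < (p:ℝ) ^ (k * g.natDegree) * 1 := by
      rw [← h2, mul_one]; exact lt_of_le_of_lt h1 hlt
    exact lt_of_mul_lt_mul_left h4 (by positivity)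
  have h4 := dvd_of_prod_lt_one hα K h3
  have h5 : ev K α = 0 := by
    obtain ⟨q, hq⟩ := h4
    rw [hq, ev, map_mul, minpoly.aeval, zero_mul]
  rw [key α (mem_cj.mpr (mem_rts_minpoly hα)), h5, mul_zero]

end Pool.Agent.Work.MP_4c4335_nt
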