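import Mathlib
import Pool.Agent.Work.MP_4c4335_nt.Dob2

/-!
# A Dobrowolski type argument, part 3: small Mahler measure implies Mahler measure one
-/

namespace Pool.Agent.Work.MP_4c4335_nt

open Finset Polynomial Filter Real

lemma eq_of_dvd_minpoly {a b : ℂ} (ha : IsIntegral ℤ a) (hb : IsIntegral ℤ b)
    (h : minpoly ℤ a ∣ minpoly ℤ b) : minpoly ℤ a = minpoly ℤ b := by
  have h1 : Associated (minpoly ℤ a) (minpoly ℤ b) :=
    (minpoly.irreducible ha).associated_of_dvd (minpoly.irreducible hb) h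
  exact eq_of_monic_of_associated (minpoly.monic ha) (minpoly.monic hb) h1

/-- product of minimal polynomials of good powers divides -/
lemma prod_dvd_of_good {α : ℂ} (hα : IsIntegral ℤ α) (hM : mm (minpoly ℤ α) ≠ 1) (P : Finset ℕ)
    (hP : ∀ p ∈ P, Good α p) {F : ℤ[X]} (hF : ∀ p ∈ P, ev F (α ^ p) = 0) :
    ∏ p ∈ P, minpoly ℤ (α ^ p) ∣ F := by
  apply Finset.prod_dvd_of_isRelPrime
  · intro p hp q hq hpq
    simp only [Function.onFun]
    rw [(minpoly.irreducible (isIntegral_pow hα p)).isRelPrime_iff_not_dvd]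
    intro hdvd
    have h1 := eq_of_dvd_minpoly (isIntegral_pow hα p) (isIntegral_pow hα q) hdvd
    have h2 := mm_pow hα (hP p hp)
    have h3 := mm_pow hα (hP q hq)
    rw [h1, h3] at h2
    have h4 : 1 < mm (minpoly ℤ α) := lt_of_le_of_ne (one_le_mm (minpoly.ne_zero hα)) (Ne.symm hM)
    exact hpq (pow_right_injective₀ (by linarith) h4.ne' h2.symm)
  · intro p hp
    exact minpoly.isIntegrallyClosed_dvd (isIntegral_pow hα p) (hF p hp)

lemma natDegree_prod_good {α : ℂ} (hα : IsIntegral ℤ α) (P : Finset ℕ)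
    (hP : ∀ p ∈ P, Good α p) :
    (∏ p ∈ P, minpoly ℤ (α ^ p)).natDegree = P.card * (minpoly ℤ α).natDegree := by
  rw [natDegree_prod_of_monic _ _ (fun p _ => minpoly.monic (isIntegral_pow hα p)),
    Finset.sum_congr rfl (fun p hp => natDegree_pow hα (hP p hp)), Finset.sum_const, smul_eq_mul]

/-- the numerical condition for the pigeonhole step -/
lemma dob_num1 {d k L N : ℕ} {ℓ M h : ℝ} (hN : N = d * L) (hd : 0 < d) (hL : 0 < L)
    (hM : 0 < M) (hh : h = Real.log M) (hℓ : 1 ≤ ℓ) (hk : (k:ℝ) ≤ 3 * ℓ)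
    (hlogN : Real.log N ≤ 2 * ℓ) (hL1 : 60 * ℓ ^ 3 ≤ L) (hkL : 2 * k * L * h ≤ 1) :
    (49:ℝ) ^ (d * k) * (N:ℝ) ^ (d * (k * (k + 1))) * M ^ (2 * N * k) < 2 ^ N := by
  have hN0 : (0:ℝ) < N := by
    have : 0 < N := by rw [hN]; exact Nat.mul_pos hd hL
    exact_mod_cast this
  have hNR : (N:ℝ) = d * L := by rw [hN]; push_cast; ring
  have hd0 : (0:ℝ) < d := by exact_mod_cast hd
  have hk0 : (0:ℝ) ≤ k := Nat.cast_nonneg k
  rw [← Real.log_lt_log_iff (by positivity) (by positivity)]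
  rw [Real.log_mul (by positivity) (by positivity), Real.log_mul (by positivity) (by positivity),
    Real.log_pow, Real.log_pow, Real.log_pow, Real.log_pow]
  push_cast
  rw [← hh]
  have l49 : Real.log 49 ≤ 4 := by
    rw [Real.log_le_iff_le_exp (by norm_num)]
    have h27 : (2.7:ℝ) ≤ Real.exp 1 := by linarith [Real.exp_one_gt_d9]
    have h28 : Real.exp 4 = (Real.exp 1) ^ 4 := by rw [← Real.exp_nat_mul]; norm_num
    rw [h28]
    calc (49:ℝ) ≤ 2.7 ^ 4 := by norm_num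
      _ ≤ (Real.exp 1) ^ 4 := by gcongr
  have l2 : (0.69 : ℝ) ≤ Real.log 2 := by linarith [Real.log_two_gt_d9]
  have t1 : (d:ℝ) * k * Real.log 49 ≤ d * (12 * ℓ) := by
    calc (d:ℝ) * k * Real.log 49 ≤ d * (3 * ℓ) * 4 := by gcongr
      _ = d * (12 * ℓ) := by ring
  have t2 : (d:ℝ) * (k * (k + 1)) * Real.log N ≤ d * (24 * ℓ ^ 3) := by
    have a1 : (k:ℝ) * (k + 1) ≤ (3 * ℓ) * (4 * ℓ) := by
      have : (k:ℝ) + 1 ≤ 4 * ℓ := by linarith
      gcongr
    calc (d:ℝ) * (k * (k + 1)) * Real.log N ≤ d * ((3 * ℓ) * (4 * ℓ)) * (2 * ℓ) := by gcongr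
      _ = d * (24 * ℓ ^ 3) := by ring
  have t3 : 2 * (N:ℝ) * k * h ≤ d * 1 := by
    calc 2 * (N:ℝ) * k * h = d * (2 * k * L * h) := by rw [hNR]; ring
      _ ≤ d * 1 := by gcongr
  have t4 : (d:ℝ) * (0.69 * (60 * ℓ ^ 3)) ≤ N * Real.log 2 := by
    calc (d:ℝ) * (0.69 * (60 * ℓ ^ 3)) ≤ d * (Real.log 2 * L) := by gcongr
      _ = N * Real.log 2 := by rw [hNR]; ring
  have t5 : (d:ℝ) * (12 * ℓ) + d * (24 * ℓ ^ 3) + d * 1 < d * (0.69 * (60 * ℓ ^ 3)) := by
    rw [← mul_add, ← mul_add]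
    apply mul_lt_mul_of_pos_left _ hd0
    have u1 : ℓ ≤ ℓ ^ 3 := by
      calc ℓ = ℓ ^ 1 := (pow_one _).symm
        _ ≤ ℓ ^ 3 := pow_le_pow_right₀ hℓ (by norm_num)
    nlinarith
  linarith

/-- the numerical condition for the vanishing step -/
lemma dob_num2 {d k L N p : ℕ} {ℓ M h : ℝ} (hN : N = d * L) (hd : 0 < d) (hL : 0 < L)
    (hM : 0 < M) (hh : h = Real.log M) (hℓ : 1 ≤ ℓ) (hk : 2 * ℓ ≤ k)
    (hlogN : Real.log N ≤ 2 * ℓ) (hp7 : (7:ℝ) < p) (hpL : p * (L * h) ≤ 1) :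
    (N:ℝ) ^ d * M ^ (p * N) < (p:ℝ) ^ (k * d) := by
  have hN0 : (0:ℝ) < N := by
    have : 0 < N := by rw [hN]; exact Nat.mul_pos hd hL
    exact_mod_cast this
  have hNR : (N:ℝ) = d * L := by rw [hN]; push_cast; ring
  have hd0 : (0:ℝ) < d := by exact_mod_cast hd
  have hp0 : (0:ℝ) < p := by linarith
  rw [← Real.log_lt_log_iff (by positivity) (by positivity)]
  rw [Real.log_mul (by positivity) (by positivity), Real.log_pow, Real.log_pow, Real.log_pow]
  push_cast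
  rw [← hh]
  have v1 : (d:ℝ) * Real.log N ≤ d * (2 * ℓ) := by gcongr
  have v2 : (p:ℝ) * N * h ≤ d * 1 := by
    calc (p:ℝ) * N * h = d * (p * (L * h)) := by rw [hNR]; ring
      _ ≤ d * 1 := by gcongr
  have v3 : (1.9 : ℝ) ≤ Real.log p := by
    have h1 : Real.log 7 ≤ Real.log p := Real.log_le_log (by norm_num) hp7.le
    have h2 : (1.9:ℝ) ≤ Real.log 7 := by
      rw [Real.le_log_iff_exp_le (by norm_num)]
      have h27 : Real.exp 1 ≤ (2.7183:ℝ) := by linarith [Real.exp_one_lt_d9]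
      have h3 : Real.exp 1.9 = (Real.exp 1) ^ 2 * Real.exp (-0.1) := by
        rw [← Real.exp_nat_mul, ← Real.exp_add]; norm_num
      have h4 : Real.exp (-0.1) ≤ 1 / 1.1 := by
        rw [Real.exp_neg, one_div]
        apply inv_anti₀ (by norm_num)
        have := Real.add_one_le_exp (0.1:ℝ)
        linarith
      rw [h3]
      calc (Real.exp 1) ^ 2 * Real.exp (-0.1) ≤ (2.7183:ℝ) ^ 2 * (1 / 1.1) := by gcongr
        _ ≤ 7 := by norm_num
    linarith
  have v4 : 3.8 * ℓ ≤ k * Real.log p := by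
    calc 3.8 * ℓ = (2 * ℓ) * 1.9 := by ring
      _ ≤ k * Real.log p := by gcongr
  have v5 : (k:ℝ) * d * Real.log p = d * (k * Real.log p) := by ring
  rw [v5]
  have v6 : (d:ℝ) * (2 * ℓ) + d * 1 < d * (k * Real.log p) := by
    rw [← mul_add]
    apply mul_lt_mul_of_pos_left _ hd0
    linarith
  linarith

/-- If the Mahler measure of an algebraic integer of degree at most `T` is at most
`exp ((log T)^(-8))` then it is `1`. -/
lemma dobrowolski_log : ∀ᶠ T : ℕ in atTop,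
    ∀ α : ℂ, IsIntegral ℤ α → α ≠ 0 → (minpoly ℤ α).natDegree ≤ T →
      (Real.log T) ^ 8 * Real.log (mm (minpoly ℤ α)) ≤ 1 → mm (minpoly ℤ α) = 1 := by
  have hlog : Tendsto (fun T : ℕ => Real.log T) atTop atTop :=
    Real.tendsto_log_atTop.comp tendsto_natCast_atTop_atTop
  have hlog4 : Tendsto (fun T : ℕ => (Real.log T) ^ 4) atTop atTop :=
    (tendsto_pow_atTop (by norm_num)).comp hlog
  have E1 := hlog4.eventually (pi_lower (3/4) 100 (by norm_num))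
  have E2 : ∀ᶠ T : ℕ in atTop, 400 ≤ Real.log T := hlog.eventually_ge_atTop _
  have E3 : ∀ᶠ T : ℕ in atTop, 61 * (Real.log T) ^ 3 ≤ T := by
    have h1 := (isLittleO_pow_log_id_atTop (n := 3)).bound (show (0:ℝ) < 1 / 61 by norm_num)
    have h2 := (tendsto_natCast_atTop_atTop (R := ℝ)).eventually h1
    filter_upwards [h2, E2] with T hT hT2
    rw [Real.norm_of_nonneg (by positivity), id, Real.norm_of_nonneg (by positivity)] at hT
    linarith
  filter_upwards [E1, E2, E3, eventually_ge_atTop 3] with T h1 h2 h3 hT3 α hα hα0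
    hdeg hlog
  by_contra hM
  have hT0 : (0:ℝ) < T := by
    have : (3:ℝ) ≤ T := by exact_mod_cast hT3
    linarith
  set ℓ := Real.log T with hℓ
  have hℓ1 : 1 ≤ ℓ := by linarith
  set L := ⌈60 * ℓ ^ 3⌉₊ with hL
  have hL1 : 60 * ℓ ^ 3 ≤ L := Nat.le_ceil _
  have hℓ3 : 1 ≤ ℓ ^ 3 := one_le_pow₀ hℓ1
  have hL2 : (L:ℝ) ≤ 61 * ℓ ^ 3 := by
    have : (L:ℝ) < 60 * ℓ ^ 3 + 1 := Nat.ceil_lt_add_one (by positivity)
    linarith
  have hLpos : 0 < L := by
    have : (0:ℝ) < L := lt_of_lt_of_le (by positivity) hL1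
    exact_mod_cast this
  set k := ⌈2 * ℓ⌉₊ with hk
  have hk1 : 2 * ℓ ≤ k := Nat.le_ceil _
  have hk2 : (k:ℝ) ≤ 3 * ℓ := by
    have : (k:ℝ) < 2 * ℓ + 1 := Nat.ceil_lt_add_one (by positivity)
    linarith
  -- the primes
  have hroot : (ℓ ^ 4) ^ (3/4 : ℝ) = ℓ ^ 3 := by
    rw [← Real.rpow_natCast, ← Real.rpow_natCast, ← Real.rpow_mul (by linarith)]
    norm_num
  obtain ⟨P, hPcard, hP⟩ := good_primes (x := ℓ ^ 4) (y := 7) (K := L) (T := T) (by omega)
    (by positivity) (by norm_num) (by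
      rw [hroot] at h1
      refine le_trans ?_ h1
      have : ℓ ≤ ℓ ^ 3 := by
        calc ℓ = ℓ ^ 1 := (pow_one _).symm
          _ ≤ ℓ ^ 3 := pow_le_pow_right₀ hℓ1 (by norm_num)
      linarith) hα hα0 hdeg
  set d := (minpoly ℤ α).natDegree with hd
  have hdpos : 0 < d := minpoly.natDegree_pos hα
  set N := d * L with hN
  have hNpos : 0 < N := Nat.mul_pos hdpos hLpos
  have hdT : (d:ℝ) ≤ T := by exact_mod_cast hdeg
  have hLT : (L:ℝ) ≤ T := hL2.trans h3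
  have hNR : (N:ℝ) = d * L := by rw [hN]; push_cast; ring
  have hlogN : Real.log N ≤ 2 * ℓ := by
    have : (N:ℝ) ≤ T * T := by rw [hNR]; gcongr
    calc Real.log N ≤ Real.log (T * T) := Real.log_le_log (by exact_mod_cast hNpos) this
      _ = 2 * ℓ := by rw [Real.log_mul hT0.ne' hT0.ne']; ring
  set M := mm (minpoly ℤ α) with hMdef
  have hM1 : 1 ≤ M := one_le_mm (minpoly.ne_zero hα)
  set h := Real.log M with hh
  have hh0 : 0 ≤ h := Real.log_nonneg hM1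
  have hℓ8 : ℓ ^ 8 = ℓ ^ 7 * ℓ := by ring
  have hL7 : ℓ ^ 4 * (L * h) ≤ 1 := by
    calc ℓ ^ 4 * (L * h) ≤ ℓ ^ 4 * ((61 * ℓ ^ 3) * h) := by gcongr
      _ = (61 * ℓ ^ 7) * h := by ring
      _ ≤ (ℓ ^ 7 * ℓ) * h := by
          have : 61 * ℓ ^ 7 ≤ ℓ ^ 7 * ℓ := by
            rw [mul_comm]; gcongr; linarith
          gcongr
      _ ≤ 1 := by rw [← hℓ8]; exact hlog
  have hkL : 2 * k * L * h ≤ 1 := by
    have : 2 * (k:ℝ) ≤ ℓ ^ 4 := by
      calc 2 * (k:ℝ) ≤ 6 * ℓ := by linarith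
        _ ≤ ℓ ^ 3 * ℓ := by
            have : ℓ ≤ ℓ ^ 3 := by
              calc ℓ = ℓ ^ 1 := (pow_one _).symm
                _ ≤ ℓ ^ 3 := pow_le_pow_right₀ hℓ1 (by norm_num)
            have : 6 ≤ ℓ ^ 3 := by linarith
            gcongr
        _ = ℓ ^ 4 := by ring
    calc 2 * k * L * h = (2 * k) * (L * h) := by ring
      _ ≤ ℓ ^ 4 * (L * h) := by gcongr
      _ ≤ 1 := hL7
  have hcard := dob_num1 hN hdpos hLpos (by linarith) hh hℓ1 hk2 hlogN hL1 hkL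
  obtain ⟨F, hF0, hFdeg, hFc, hFdvd⟩ := exists_multiple hα k N hNpos hcard
  -- vanishing
  have hvan : ∀ p ∈ P, ev F (α ^ p) = 0 := by
    intro p hp
    obtain ⟨hpp, _, hp1, hp2⟩ := hP p hp
    apply vanish_at_pow hα hpp hFdeg hFc hFdvd
    refine dob_num2 hN hdpos hLpos (by linarith) hh hℓ1 hk1 hlogN hp1 ?_
    calc (p:ℝ) * (L * h) ≤ ℓ ^ 4 * (L * h) := by gcongr
      _ ≤ 1 := hL7
  have hdvd := prod_dvd_of_good hα hM P (fun p hp => (hP p hp).2.1) hvan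
  have hle := natDegree_le_of_dvd hdvd hF0
  rw [natDegree_prod_good hα P (fun p hp => (hP p hp).2.1), ← hd] at hle
  have hLP : L ≤ P.card := by exact_mod_cast hPcard
  have : N ≤ P.card * d := by rw [hN, mul_comm]; exact Nat.mul_le_mul_right d hLP
  omega

end Pool.Agent.Work.MP_4c4335_nt
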