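import Mathlib
import Pool.Agent.Work.MP_4c4335_nt.Dob3
import Pool.Agent.Work.MP_4c4335_nt.Cyc

/-!
# The common divisor of all integer polynomials with a small value at `z`
-/

namespace Pool.Agent.Work.MP_4c4335_nt

open Finset Polynomial Filter Real

/-- the integer polynomials of degree below `m` with coefficients of size at most `B`
and value of size at most `δ` at `z` -/
def JJ (m B : ℕ) (δ : ℝ) (z : ℂ) : Set ℤ[X] :=
  {P | P.natDegree < m ∧ (∀ i, |P.coeff i| ≤ (B:ℤ)) ∧ ‖ev P z‖ ≤ δ}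

lemma pigeon {B s : ℕ} (hs : 1 ≤ s) (hB : 1 ≤ B) {δ : ℝ} (hδ0 : 0 < δ) (hδ1 : δ ≤ 1) {x : ℂ}
    (hx : ‖x‖ = 1) (hcard : 49 * ((s:ℝ) * B / δ) ^ 2 < ((B:ℝ) + 1) ^ s) :
    ∃ F : ℤ[X], F ≠ 0 ∧ F.natDegree < s ∧ (∀ i, |F.coeff i| ≤ (B:ℤ)) ∧ ‖ev F x‖ ≤ δ := by
  classical
  let co : (Fin s → Fin (B + 1)) → (Fin s → ℤ) := fun c j => ((c j : ℕ) : ℤ)
  have hs1 : (1:ℝ) ≤ s := by exact_mod_cast hs
  have hB1 : (1:ℝ) ≤ B := by exact_mod_cast hB
  have hco : ∀ c i, |((mkPoly (co c)).coeff i : ℝ)| ≤ B := by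
    intro c i
    rw [mkPoly_coeff]
    split_ifs with h
    · have : (c ⟨i, h⟩ : ℕ) ≤ B := by have := (c ⟨i, h⟩).2; omega
      simp only [co]
      rw [abs_of_nonneg (by positivity)]
      exact_mod_cast this
    · simp
  obtain ⟨c, c', hne, hlt⟩ := box (ι := Unit) (fun c _ => ev (mkPoly (co c)) x / (δ:ℂ))
    (fun _ => (s:ℝ) * B / δ)
    (by
      intro _
      rw [le_div_iff₀ hδ0]
      nlinarith)
    (by
      intro c _
      rw [norm_div, Complex.norm_real, Real.norm_of_nonneg hδ0.le]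
      have := ev_bound (mkPoly_natDegree_lt (by omega) (co c)) (hco c) x
      rw [hx, max_self, one_pow, mul_one] at this
      gcongr)
    (by
      rw [Fintype.card_fun, Fintype.card_fin, Fintype.card_fin]
      simp only [Finset.univ_unique, Finset.prod_singleton]
      push_cast
      exact hcard)
  have hcne : co c - co c' ≠ 0 := by
    intro h
    apply hne
    ext j
    have := congrFun h j
    simp only [co, Pi.sub_apply, Pi.zero_apply] at this
    omega
  refine ⟨mkPoly (co c - co c'), mkPoly_ne_zero hcne, mkPoly_natDegree_lt (by omega) _, ?_, ?_⟩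
  · intro i
    rw [mkPoly_coeff]
    split_ifs with h
    · have h1 : (c ⟨i, h⟩ : ℕ) < B + 1 := (c ⟨i, h⟩).2
      have h2 : (c' ⟨i, h⟩ : ℕ) < B + 1 := (c' ⟨i, h⟩).2
      simp only [co, Pi.sub_apply]
      rw [abs_le]
      constructor <;> omega
    · simp
  · have h1 := hlt ()
    rw [← sub_div, norm_div, Complex.norm_real, Real.norm_of_nonneg hδ0.le, div_lt_one hδ0] at h1
    rw [← mkPoly_sub, ev, map_sub]
    exact h1.le

/-- The greatest common divisor of a set of integer polynomials, one of which is monic up to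
sign. -/
lemma exists_G {S : Set ℤ[X]} {P0 : ℤ[X]} (hP0 : P0 ∈ S) (hlc : |P0.leadingCoeff| = 1) :
    ∃ G : ℤ[X], G.Monic ∧ (∀ P ∈ S, G ∣ P) ∧
      G.map (Int.castRingHom ℚ) ∈
        Ideal.span ((fun P : ℤ[X] => P.map (Int.castRingHom ℚ)) '' S) := by
  set I := Ideal.span ((fun P : ℤ[X] => P.map (Int.castRingHom ℚ)) '' S) with hI
  have hne : P0 ≠ 0 := by
    rintro rfl
    simp at hlc
  have hP0I : P0.map (Int.castRingHom ℚ) ∈ I := Ideal.subset_span ⟨P0, hP0, rfl⟩
  have hinj : Function.Injective (Int.castRingHom ℚ) := RingHom.injective_int _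
  have hP0m : P0.map (Int.castRingHom ℚ) ≠ 0 := by
    rwa [Ne, Polynomial.map_eq_zero_iff hinj]
  set g0 := Submodule.IsPrincipal.generator I with hg0
  have hspan : Ideal.span {g0} = I := Ideal.span_singleton_generator I
  have hg0ne : g0 ≠ 0 := by
    intro h0
    rw [h0, Ideal.span_singleton_eq_bot.mpr rfl] at hspan
    rw [← hspan] at hP0I
    exact hP0m hP0I
  have hlc0 : g0.leadingCoeff ≠ 0 := leadingCoeff_ne_zero.mpr hg0ne
  set g := g0 * C (g0.leadingCoeff⁻¹) with hg
  have hgm : g.Monic := monic_mul_leadingCoeff_inv hg0ne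
  have hgI : g ∈ I := by
    rw [hg, mul_comm]
    exact I.mul_mem_left _ (Submodule.IsPrincipal.generator_mem I)
  have hdvd : ∀ Q ∈ I, g ∣ Q := by
    intro Q hQ
    rw [← hspan, Ideal.mem_span_singleton] at hQ
    obtain ⟨q, hq⟩ := hQ
    refine ⟨C (g0.leadingCoeff) * q, ?_⟩
    rw [hq, hg]
    calc g0 * q = g0 * (C (g0.leadingCoeff⁻¹ * g0.leadingCoeff)) * q := by
          rw [inv_mul_cancel₀ hlc0]; simp
      _ = g0 * C g0.leadingCoeff⁻¹ * (C g0.leadingCoeff * q) := by rw [C_mul]; ring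
  -- a monic member
  obtain ⟨P1, hP1m, hP1d⟩ : ∃ P1 : ℤ[X], P1.Monic ∧ g ∣ P1.map (algebraMap ℤ ℚ) := by
    rcases (abs_eq (by norm_num : (0:ℤ) ≤ 1)).mp hlc with h | h
    · exact ⟨P0, h, hdvd _ hP0I⟩
    · refine ⟨-P0, ?_, ?_⟩
      · rw [Monic, leadingCoeff_neg, h]; norm_num
      · rw [Polynomial.map_neg, dvd_neg]
        exact hdvd _ hP0I
  obtain ⟨G, hG⟩ := IsIntegrallyClosed.eq_map_mul_C_of_dvd ℚ hP1m hP1d
  rw [hgm.leadingCoeff, C_1, mul_one] at hG
  have hG' : G.map (Int.castRingHom ℚ) = g := hG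
  have hGm : G.Monic := monic_of_injective hinj (by rw [hG']; exact hgm)
  refine ⟨G, hGm, ?_, by rw [hG']; exact hgI⟩
  intro P hP
  have := hdvd _ (Ideal.subset_span ⟨P, hP, rfl⟩)
  rw [← hG'] at this
  exact (map_dvd_map (Int.castRingHom ℚ) hinj hGm).mp this

/-- A monic integer polynomial whose roots are roots of unity or zero is not too small at a
Diophantine point. -/
lemma lower_of_cyclotomic {c : ℝ} (hc : 0 < c) (hc1 : c ≤ 1) {z : ℂ} (hz : DioZ c z) (n : ℕ) :
    ∀ G : ℤ[X], G.Monic → G.natDegree = n →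
      (∀ α : ℂ, ev G α = 0 → α ≠ 0 → ∃ k, 0 < k ∧ α ^ k = 1) →
      Real.exp (-(3 * (Real.log (2 / c) + 10)) * (n : ℝ)) ≤ ‖ev G z‖ := by
  induction n using Nat.strong_induction_on with
  | _ n ih =>
  intro G hG hdeg hroot
  set C0 := 3 * (Real.log (2 / c) + 10) with hC0
  have hC0pos : 0 ≤ C0 := by
    have : 0 ≤ Real.log (2 / c) := by
      apply Real.log_nonneg
      rw [le_div_iff₀ hc]; linarith
    positivity
  rcases Nat.eq_zero_or_pos n with h0 | hpos
  · subst h0
    have : G = 1 := hG.natDegree_eq_zero.mp hdeg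
    rw [this]
    simp
  · -- a root
    have hGc : (G.map (Int.castRingHom ℂ)).degree ≠ 0 := by
      have h1 : (G.map (Int.castRingHom ℂ)).natDegree = n := by rw [hG.natDegree_map, hdeg]
      intro h2
      have := natDegree_eq_of_degree_eq_some (n := 0) (by exact_mod_cast h2)
      omega
    obtain ⟨α, hα⟩ := IsAlgClosed.exists_root _ hGc
    have hα' : ev G α = 0 := by rw [ev_eq_eval]; exact hα
    by_cases hα0 : α = 0
    · -- divisible by X
      have h1 : X ∣ G := by
        rw [X_dvd_iff]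
        rw [hα0, ev, aeval_def, eval₂_at_zero, algebraMap_int_eq, eq_intCast] at hα'
        exact_mod_cast hα'
      obtain ⟨H, hH⟩ := h1
      have hHm : H.Monic := by
        have : (X * H : ℤ[X]).Monic := by rw [← hH]; exact hG
        exact monic_X.of_mul_monic_left this
      have hHdeg : H.natDegree = n - 1 := by
        have := congrArg natDegree hH
        rw [monic_X.natDegree_mul hHm, natDegree_X, hdeg] at this
        omega
      have h2 := ih (n - 1) (by omega) H hHm hHdeg (fun β hβ hβ0 => hroot β (by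
        rw [hH, ev, map_mul]
        simp only [ev] at hβ
        rw [hβ, mul_zero]) hβ0)
      rw [hH, ev, map_mul, norm_mul, aeval_X, hz.1, one_mul]
      refine le_trans ?_ h2
      rw [Real.exp_le_exp]
      have : ((n - 1 : ℕ) : ℝ) ≤ n := by exact_mod_cast Nat.sub_le n 1
      nlinarith
    · obtain ⟨k, hk, hαk⟩ := hroot α hα' hα0
      obtain ⟨q, hqpos, hq⟩ : ∃ q, 0 < q ∧ IsPrimitiveRoot α q :=
        ⟨orderOf α, orderOf_pos_iff.mpr (isOfFinOrder_iff_pow_eq_one.mpr ⟨k, hk, hαk⟩),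
          IsPrimitiveRoot.orderOf α⟩
      have hint : IsIntegral ℤ α := ⟨G, hG, by simpa [ev, aeval_def] using hα'⟩
      have h1 : cyclotomic q ℤ ∣ G := by
        rw [cyclotomic_eq_minpoly hq hqpos]
        exact minpoly.isIntegrallyClosed_dvd hint hα'
      obtain ⟨H, hH⟩ := h1
      have hcm : (cyclotomic q ℤ).Monic := cyclotomic.monic q ℤ
      have hHm : H.Monic := by
        have : (cyclotomic q ℤ * H).Monic := by rw [← hH]; exact hG
        exact hcm.of_mul_monic_left this
      have hφ : 0 < q.totient := Nat.totient_pos.mpr hqpos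
      have hHdeg : q.totient + H.natDegree = n := by
        have := congrArg natDegree hH
        rw [hcm.natDegree_mul hHm, natDegree_cyclotomic, hdeg] at this
        omega
      have h2 := ih H.natDegree (by omega) H hHm rfl (fun β hβ hβ0 => hroot β (by
        rw [hH, ev, map_mul]
        simp only [ev] at hβ
        rw [hβ, mul_zero]) hβ0)
      have h3 := cyclotomic_lower hc hc1 hz hqpos
      have h4 : ev (cyclotomic q ℤ) z = (cyclotomic q ℂ).eval z := by
        rw [ev_eq_eval, map_cyclotomic]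
      rw [hH, ev, map_mul, norm_mul]
      simp only [ev] at h4 h2
      rw [h4]
      calc Real.exp (-C0 * (n:ℝ)) = Real.exp (-C0 * (q.totient : ℝ))
            * Real.exp (-C0 * (H.natDegree : ℝ)) := by
            rw [← Real.exp_add, ← mul_add]
            congr 2
            exact_mod_cast hHdeg.symm
        _ ≤ _ := mul_le_mul h3 h2 (Real.exp_pos _).le (norm_nonneg _)

end Pool.Agent.Work.MP_4c4335_nt
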