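import Mathlib
import Pool.Agent.Work.MP_4c4335_nt.Ideal

/-!
# Multiples of the common divisor as combinations of shifts, with degree control
-/

namespace Pool.Agent.Work.MP_4c4335_nt

open Finset Polynomial

/-- the embedding of integer polynomials in rational polynomials -/
noncomputable abbrev qq (P : ℤ[X]) : ℚ[X] := P.map (Int.castRingHom ℚ)

/-- shifts of members of `S` of degree below `2m` -/
def shifts (S : Set ℤ[X]) (m : ℕ) : Set ℚ[X] :=
  {v | ∃ P ∈ S, ∃ j : ℕ, (X ^ j * P).natDegree < 2 * m ∧ v = qq (X ^ j * P)}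

lemma mul_mem_shifts {S : Set ℤ[X]} {P : ℤ[X]} (hP : P ∈ S) {m : ℕ} (A : ℚ[X])
    (h : ∀ j ∈ A.support, (X ^ j * P : ℤ[X]).natDegree < 2 * m) :
    A * qq P ∈ Submodule.span ℚ (shifts S m) := by
  have h1 : A * qq P = ∑ j ∈ A.support, (A.coeff j) • qq (X ^ j * P) := by
    conv_lhs => rw [A.as_sum_support_C_mul_X_pow]
    rw [Finset.sum_mul]
    apply Finset.sum_congr rfl
    intro j _
    rw [smul_eq_C_mul, qq, qq, Polynomial.map_mul, Polynomial.map_pow, map_X]
    ring
  rw [h1]
  apply Submodule.sum_mem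
  intro j hj
  apply Submodule.smul_mem
  exact Submodule.subset_span ⟨P, hP, j, h j hj, rfl⟩

lemma span_lemma {S : Set ℤ[X]} {P0 : ℤ[X]} (hP0 : P0 ∈ S) (hne : P0 ≠ 0) {m : ℕ}
    (hdeg : ∀ P ∈ S, P.natDegree < m) {Q : ℚ[X]}
    (hQ : Q ∈ Ideal.span ((fun P : ℤ[X] => P.map (Int.castRingHom ℚ)) '' S))
    (hQdeg : Q.natDegree < 2 * m) : Q ∈ Submodule.span ℚ (shifts S m) := by
  set V := Submodule.span ℚ (shifts S m) with hV
  have hinj : Function.Injective (Int.castRingHom ℚ) := RingHom.injective_int _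
  have hp0 : qq P0 ≠ 0 := by
    rwa [qq, Ne, Polynomial.map_eq_zero_iff hinj]
  have hd0 : (qq P0).natDegree = P0.natDegree := natDegree_map_eq_of_injective hinj _
  have hd0m : P0.natDegree < m := hdeg P0 hP0
  -- multiplication by arbitrary polynomials
  have step : ∀ v ∈ V, ∀ a : ℚ[X], ∃ v' ∈ V, ∃ U : ℚ[X], a * v = v' + U * qq P0 := by
    intro v hv
    induction hv using Submodule.span_induction with
    | mem v hv =>
      obtain ⟨P, hP, j, hj, rfl⟩ := hv
      intro a
      set A := a * X ^ j with hA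
      have hdm := EuclideanDomain.div_add_mod A (qq P0)
      refine ⟨(A % qq P0) * qq P, ?_, (A / qq P0) * qq P, ?_⟩
      · apply mul_mem_shifts hP
        intro i hi
        have h1 : i ≤ (A % qq P0).natDegree := le_natDegree_of_mem_supp i hi
        have h2 : (A % qq P0).natDegree ≤ P0.natDegree := by
          rw [← hd0]
          have := EuclideanDomain.mod_lt A hp0
          exact natDegree_le_natDegree (le_of_lt this)
        have h3 : (X ^ i * P : ℤ[X]).natDegree ≤ i + P.natDegree := by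
          refine (natDegree_mul_le).trans ?_
          rw [natDegree_X_pow]
        have h4 := hdeg P hP
        omega
      · have h1 : a * qq (X ^ j * P) = A * qq P := by
          rw [qq, qq, Polynomial.map_mul, Polynomial.map_pow, map_X, hA]; ring
        rw [h1]
        conv_lhs => rw [← hdm]
        ring
    | zero => intro a; exact ⟨0, V.zero_mem, 0, by simp⟩
    | add v w _ _ ihv ihw =>
      intro a
      obtain ⟨v', hv', U, hU⟩ := ihv a
      obtain ⟨w', hw', W, hW⟩ := ihw a
      exact ⟨v' + w', V.add_mem hv' hw', U + W, by rw [mul_add, hU, hW]; ring⟩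
    | smul r v _ ih =>
      intro a
      obtain ⟨v', hv', U, hU⟩ := ih a
      refine ⟨r • v', V.smul_mem r hv', C r * U, ?_⟩
      rw [smul_eq_C_mul, smul_eq_C_mul]
      calc a * (C r * v) = C r * (a * v) := by ring
        _ = C r * v' + C r * U * qq P0 := by rw [hU]; ring
  have key : ∃ v ∈ V, ∃ U : ℚ[X], Q = v + U * qq P0 := by
    have hQ' : Q ∈ Submodule.span ℚ[X] ((fun P : ℤ[X] => P.map (Int.castRingHom ℚ)) '' S) := hQ
    clear hQ hQdeg
    induction hQ' using Submodule.span_induction with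
    | mem v hv =>
      obtain ⟨P, hP, rfl⟩ := hv
      refine ⟨qq P, ?_, 0, by simp⟩
      have h1 := mul_mem_shifts (m := m) hP (1 : ℚ[X]) (by
        intro j hj
        have h2 : j = 0 := by
          by_contra hj0
          rw [mem_support_iff, coeff_one, if_neg hj0] at hj
          exact hj rfl
        rw [h2, pow_zero, one_mul]
        have := hdeg P hP
        omega)
      rwa [one_mul] at h1
    | zero => exact ⟨0, V.zero_mem, 0, by simp⟩
    | add v w _ _ ihv ihw =>
      obtain ⟨v', hv', U, hU⟩ := ihv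
      obtain ⟨w', hw', W, hW⟩ := ihw
      exact ⟨v' + w', V.add_mem hv' hw', U + W, by rw [hU, hW]; ring⟩
    | smul a v _ ih =>
      obtain ⟨v', hv', U, hU⟩ := ih
      obtain ⟨w', hw', W, hW⟩ := step v' hv' a
      refine ⟨w', hw', W + a * U, ?_⟩
      rw [smul_eq_mul, hU, mul_add, hW]; ring
  obtain ⟨v, hv, U, hQv⟩ := key
  have hvdeg : v ∈ degreeLT ℚ (2 * m) := by
    have : V ≤ degreeLT ℚ (2 * m) := by
      rw [hV, Submodule.span_le]
      rintro w ⟨P, hP, j, hj, rfl⟩
      rw [SetLike.mem_coe, mem_degreeLT]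
      by_cases h0 : qq (X ^ j * P) = 0
      · rw [h0, degree_zero]; exact WithBot.bot_lt_coe _
      · rw [← natDegree_lt_iff_degree_lt h0]
        exact lt_of_le_of_lt natDegree_map_le hj
    exact this hv
  have hQdeg' : Q ∈ degreeLT ℚ (2 * m) := by
    rw [mem_degreeLT]
    by_cases h0 : Q = 0
    · rw [h0, degree_zero]; exact WithBot.bot_lt_coe _
    · rwa [← natDegree_lt_iff_degree_lt h0]
  have hU : U * qq P0 ∈ degreeLT ℚ (2 * m) := by
    have : U * qq P0 = Q - v := by rw [hQv]; ring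
    rw [this]
    exact Submodule.sub_mem _ hQdeg' hvdeg
  rw [hQv]
  apply V.add_mem hv
  apply mul_mem_shifts hP0
  intro j hj
  have hU0 : U ≠ 0 := by rintro rfl; simp at hj
  have h1 : j ≤ U.natDegree := le_natDegree_of_mem_supp j hj
  rw [mem_degreeLT, ← natDegree_lt_iff_degree_lt (mul_ne_zero hU0 hp0),
    natDegree_mul hU0 hp0, hd0] at hU
  have h3 : (X ^ j * P0 : ℤ[X]).natDegree ≤ j + P0.natDegree := by
    refine (natDegree_mul_le).trans ?_
    rw [natDegree_X_pow]
  omega

/-- A family of integer polynomials `x l` with `G * x l` a shift of a member of `S`, and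
linearly independent coefficient vectors. -/
lemma exists_vectors {S : Set ℤ[X]} {P0 : ℤ[X]} (hP0 : P0 ∈ S) (hne : P0 ≠ 0) {m : ℕ}
    (hdeg : ∀ P ∈ S, P.natDegree < m) {G : ℤ[X]} (hG : G.Monic) (hGdvd : ∀ P ∈ S, G ∣ P)
    (hGI : G.map (Int.castRingHom ℚ) ∈
      Ideal.span ((fun P : ℤ[X] => P.map (Int.castRingHom ℚ)) '' S)) :
    ∃ x : Fin (2 * m - G.natDegree) → ℤ[X],
      (∀ l, (x l).natDegree < 2 * m - G.natDegree ∧ ∃ P ∈ S, ∃ j : ℕ,
        (X ^ j * P).natDegree < 2 * m ∧ G * x l = X ^ j * P) ∧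
      (Matrix.of fun l i : Fin (2 * m - G.natDegree) => (x l).coeff (i : ℕ)).det ≠ 0 := by
  classical
  set N := 2 * m - G.natDegree with hN
  have hinj : Function.Injective (Int.castRingHom ℚ) := RingHom.injective_int _
  have hGdeg : G.natDegree < m := lt_of_le_of_lt (natDegree_le_of_dvd (hGdvd P0 hP0) hne)
    (hdeg P0 hP0)
  have hGq : (qq G).Monic := hG.map _
  have hGqdeg : (qq G).natDegree = G.natDegree := hG.natDegree_map _
  let good : ℤ[X] → Prop := fun x => x.natDegree < N ∧ ∃ P ∈ S, ∃ j : ℕ,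
        (X ^ j * P).natDegree < 2 * m ∧ G * x = X ^ j * P
  let cv : ℚ[X] → (Fin N → ℚ) := fun x i => x.coeff i
  let T : Set (Fin N → ℚ) := {c | ∃ x : ℤ[X], good x ∧ c = cv (qq x)}
  have hspan1 : ∀ Q ∈ Submodule.span ℚ (shifts S m), ∃ x : ℚ[X], Q = qq G * x ∧
      cv x ∈ Submodule.span ℚ T := by
    intro Q hQ
    induction hQ using Submodule.span_induction with
    | mem v hv =>
      obtain ⟨P, hP, j, hj, rfl⟩ := hv
      obtain ⟨x, hx⟩ : G ∣ X ^ j * P := Dvd.dvd.mul_left (hGdvd P hP) _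
      refine ⟨qq x, by rw [hx, qq, Polynomial.map_mul], Submodule.subset_span
        ⟨x, ⟨?_, P, hP, j, hj, hx.symm⟩, rfl⟩⟩
      by_cases hx0 : x = 0
      · rw [hx0, natDegree_zero]; omega
      · rw [hx, hG.natDegree_mul' hx0] at hj
        omega
    | zero => exact ⟨0, by simp, by
        have : cv 0 = 0 := by ext i; simp [cv]
        rw [this]; exact Submodule.zero_mem _⟩
    | add v w _ _ ihv ihw =>
      obtain ⟨x, hx, hx'⟩ := ihv
      obtain ⟨y, hy, hy'⟩ := ihw
      refine ⟨x + y, by rw [hx, hy]; ring, ?_⟩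
      have : cv (x + y) = cv x + cv y := by ext i; simp [cv]
      rw [this]; exact Submodule.add_mem _ hx' hy'
    | smul r v _ ih =>
      obtain ⟨x, hx, hx'⟩ := ih
      refine ⟨r • x, by rw [hx, smul_eq_C_mul, smul_eq_C_mul]; ring, ?_⟩
      have : cv (r • x) = r • cv x := by ext i; simp [cv]
      rw [this]; exact Submodule.smul_mem _ _ hx'
  have htop : Submodule.span ℚ T = ⊤ := by
    rw [eq_top_iff]
    intro c _
    have hc : c = ∑ i : Fin N, c i • (Pi.single i (1:ℚ) : Fin N → ℚ) := by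
      ext k
      simp [Finset.sum_apply, Pi.single_apply]
    rw [hc]
    apply Submodule.sum_mem
    intro i _
    apply Submodule.smul_mem
    have hmem : qq G * X ^ (i : ℕ) ∈
        Ideal.span ((fun P : ℤ[X] => P.map (Int.castRingHom ℚ)) '' S) := Ideal.mul_mem_right _ _ hGI
    have hd : (qq G * X ^ (i : ℕ)).natDegree < 2 * m := by
      rw [hGq.natDegree_mul' (pow_ne_zero _ X_ne_zero), natDegree_X_pow, hGqdeg]
      have := i.2
      omega
    obtain ⟨x, hx, hx'⟩ := hspan1 _ (span_lemma hP0 hne hdeg hmem hd)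
    have hx2 : x = X ^ (i : ℕ) := (mul_left_cancel₀ hGq.ne_zero hx).symm
    rw [hx2] at hx'
    have : cv (X ^ (i : ℕ)) = Pi.single i 1 := by
      ext k
      simp only [cv, coeff_X_pow, Pi.single_apply, Fin.ext_iff]
    rwa [this] at hx'
  obtain ⟨b, hbT, hbspan, hbli⟩ := exists_linearIndependent ℚ T
  rw [htop] at hbspan
  have hfin : b.Finite := hbli.setFinite
  have : Fintype b := hfin.fintype
  have hcard : Fintype.card b = N := by
    have h1 := (Module.Basis.mk hbli (by rw [Subtype.range_coe]; exact hbspan.ge))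
    have h2 := Module.finrank_eq_card_basis h1
    rw [Module.finrank_fin_fun] at h2
    exact h2.symm
  let e : Fin N ≃ b := (Fintype.equivFinOfCardEq hcard).symm
  have hx : ∀ l : Fin N, ∃ x : ℤ[X], good x ∧ (e l : Fin N → ℚ) = cv (qq x) :=
    fun l => hbT (e l).2
  choose x hx1 hx2 using hx
  refine ⟨x, hx1, ?_⟩
  have hli : LinearIndependent ℚ (fun l : Fin N => cv (qq (x l))) := by
    have h1 : LinearIndependent ℚ (fun l : Fin N => (e l : Fin N → ℚ)) :=
      hbli.comp e e.injective
    have h2 : (fun l : Fin N => (e l : Fin N → ℚ)) = fun l : Fin N => cv (qq (x l)) := by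
      ext l k; rw [hx2 l]
    rwa [h2] at h1
  have hu : IsUnit (Matrix.of fun l i : Fin N => (((x l).coeff (i : ℕ) : ℤ) : ℚ)) := by
    rw [← Matrix.linearIndependent_rows_iff_isUnit]
    have h4 : (Matrix.of fun l i : Fin N => (((x l).coeff (i : ℕ) : ℤ) : ℚ)).row
        = fun l => cv (qq (x l)) := by
      ext l i
      simp [cv, Matrix.row]
    rw [h4]
    exact hli
  rw [Matrix.isUnit_iff_isUnit_det, isUnit_iff_ne_zero] at hu
  intro h0
  apply hu
  have h3 : (Matrix.of fun l i : Fin N => (((x l).coeff (i : ℕ) : ℤ) : ℚ))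
      = (Int.castRingHom ℚ).mapMatrix (Matrix.of fun l i : Fin N => (x l).coeff (i : ℕ)) := by
    ext l i; simp
  rw [h3, ← RingHom.map_det, h0, map_zero]

end Pool.Agent.Work.MP_4c4335_nt
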