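import Mathlib
import Pool.Agent.Work.MP_4c4335_nt.Span

/-!
# A determinant inequality
-/

namespace Pool.Agent.Work.MP_4c4335_nt

open Finset Polynomial

lemma det_le_col {N : ℕ} (W : Matrix (Fin N) (Fin N) ℂ) (c : Fin N → ℝ)
    (hc : ∀ l i, ‖W l i‖ ≤ c i) : ‖W.det‖ ≤ (N.factorial : ℝ) * ∏ i, c i := by
  rw [Matrix.det_apply]
  calc ‖∑ σ : Equiv.Perm (Fin N), Equiv.Perm.sign σ • ∏ i, W (σ i) i‖
      ≤ ∑ σ : Equiv.Perm (Fin N), ‖Equiv.Perm.sign σ • ∏ i, W (σ i) i‖ := norm_sum_le _ _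
    _ ≤ ∑ σ : Equiv.Perm (Fin N), ∏ i, c i := by
        apply Finset.sum_le_sum
        intro σ _
        have h1 : ‖Equiv.Perm.sign σ • ∏ i, W (σ i) i‖ = ‖∏ i, W (σ i) i‖ := by
          rcases Int.units_eq_one_or (Equiv.Perm.sign σ) with h | h
          · rw [h, one_smul]
          · rw [h, Units.neg_smul, one_smul, norm_neg]
        rw [h1, norm_prod]
        exact Finset.prod_le_prod (fun i _ => norm_nonneg _) (fun i _ => hc _ _)
    _ = (N.factorial : ℝ) * ∏ i, c i := by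
        rw [Finset.sum_const, Finset.card_univ, Fintype.card_perm, Fintype.card_fin, nsmul_eq_mul]

/-- the functionals: low order Taylor coefficients at `z` and high order coefficients -/
noncomputable def fnl (z : ℂ) (h e i : ℕ) : ℂ[X] →ₗ[ℂ] ℂ :=
  if i < h then (lcoeff ℂ i).comp (taylor z) else lcoeff ℂ (e + i)

lemma fnl_lt {z : ℂ} {h e i : ℕ} (hi : i < h) (Q : ℂ[X]) :
    fnl z h e i Q = (taylor z Q).coeff i := by
  rw [fnl, if_pos hi]; rfl

lemma fnl_ge {z : ℂ} {h e i : ℕ} (hi : h ≤ i) (Q : ℂ[X]) :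
    fnl z h e i Q = Q.coeff (e + i) := by
  rw [fnl, if_neg (not_lt.mpr hi)]; rfl

/-- expansion in powers of `X - z` -/
lemma expand_taylor (z : ℂ) {N : ℕ} (Q : ℂ[X]) (hQ : Q.natDegree < N) :
    Q = ∑ j : Fin N, ((taylor z Q).coeff (j : ℕ)) • (X - C z) ^ (j : ℕ) := by
  have h1 := sum_taylor_eq Q z
  have h2 : ((taylor z Q).sum fun i a => C a * (X - C z) ^ i)
      = ∑ i ∈ range N, C ((taylor z Q).coeff i) * (X - C z) ^ i := by
    apply sum_over_range'
    · intro n; simp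
    · rwa [natDegree_taylor]
  rw [h2] at h1
  conv_lhs => rw [← h1]
  rw [← Fin.sum_univ_eq_sum_range (fun i => C ((taylor z Q).coeff i) * (X - C z) ^ i) N]
  apply Finset.sum_congr rfl
  intro j _
  rw [smul_eq_C_mul]

lemma det_S (z : ℂ) (N : ℕ) :
    (Matrix.of fun j j' : Fin N => (taylor z (X ^ (j : ℕ) : ℂ[X])).coeff (j' : ℕ)).det = 1 := by
  rw [Matrix.det_of_isLowerTriangular]
  · apply Finset.prod_eq_one
    intro i _
    rw [Matrix.of_apply, taylor_X_pow]
    have := coeff_X_add_C_pow z (i:ℕ) (i:ℕ)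
    rw [this]; simp
  · intro j j' hjj'
    have hlt : (j:ℕ) < (j':ℕ) := by exact_mod_cast hjj'
    rw [Matrix.of_apply, taylor_X_pow, coeff_X_add_C_pow, Nat.choose_eq_zero_of_lt hlt]
    simp

lemma det_Omega (z : ℂ) {N h : ℕ} (hh : h ≤ N) (G : ℂ[X]) (hG : G.Monic) :
    (Matrix.of fun j i : Fin N =>
      fnl z h G.natDegree (i:ℕ) (G * (X - C z) ^ (j:ℕ))).det = (G.eval z) ^ h := by
  classical
  set M : Matrix (Fin N) (Fin N) ℂ := Matrix.of fun j i : Fin N =>
      fnl z h G.natDegree (i:ℕ) (G * (X - C z) ^ (j:ℕ)) with hM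
  have hlow : ∀ j i : Fin N, (i:ℕ) < h → M j i =
      if (j:ℕ) ≤ i then (taylor z G).coeff ((i:ℕ) - j) else 0 := by
    intro j i hi
    rw [hM, Matrix.of_apply, fnl_lt hi, taylor_mul, taylor_pow, map_sub, taylor_X, taylor_C,
      add_sub_cancel_right, coeff_mul_X_pow']
  have hdegj : ∀ j : ℕ, ((X - C z) ^ j : ℂ[X]).natDegree = j := by
    intro j; rw [Polynomial.natDegree_pow, natDegree_X_sub_C, mul_one]
  have hmon : ∀ j : ℕ, ((X - C z) ^ j : ℂ[X]).Monic := fun j => (monic_X_sub_C z).pow j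
  have hhigh : ∀ j i : Fin N, h ≤ (i:ℕ) → (j:ℕ) < i → M j i = 0 := by
    intro j i hi hji
    rw [hM, Matrix.of_apply, fnl_ge hi]
    apply coeff_eq_zero_of_natDegree_lt
    rw [hG.natDegree_mul (hmon j), hdegj]
    omega
  have hdiag : ∀ i : Fin N, h ≤ (i:ℕ) → M i i = 1 := by
    intro i hi
    rw [hM, Matrix.of_apply, fnl_ge hi]
    have h1 := (hG.mul (hmon i)).coeff_natDegree
    rw [hG.natDegree_mul (hmon i), hdegj] at h1
    exact h1
  have hdiag0 : ∀ i : Fin N, (i:ℕ) < h → M i i = G.eval z := by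
    intro i hi
    rw [hlow i i hi, if_pos le_rfl, Nat.sub_self, taylor_coeff_zero]
  have hblock : ∀ j : Fin N, ¬ ((j:ℕ) < h) → ∀ i : Fin N, (i:ℕ) < h → M j i = 0 := by
    intro j hj i hi
    rw [hlow j i hi, if_neg (by omega)]
  rw [Matrix.twoBlockTriangular_det M (fun i => (i:ℕ) < h) hblock]
  have d1 : (M.toSquareBlockProp (fun i => (i:ℕ) < h)).det
      = ∏ i : {a : Fin N // (a:ℕ) < h}, M i i := by
    rw [Matrix.det_of_isUpperTriangular]
    · rfl
    · intro j i hij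
      have h1 : ((i:Fin N):ℕ) < ((j:Fin N):ℕ) := by exact_mod_cast hij
      change M j i = 0
      rw [hlow _ _ i.2, if_neg (by omega)]
  have d2 : (M.toSquareBlockProp (fun i => ¬ (i:ℕ) < h)).det
      = ∏ i : {a : Fin N // ¬ (a:ℕ) < h}, M i i := by
    rw [Matrix.det_of_isLowerTriangular]
    · rfl
    · intro j i hij
      have h1 : ((j:Fin N):ℕ) < ((i:Fin N):ℕ) := by exact_mod_cast hij
      change M j i = 0
      exact hhigh _ _ (not_lt.mp i.2) h1
  rw [d1, d2]
  have e1 : ∏ i : {a : Fin N // (a:ℕ) < h}, M i i = (G.eval z) ^ h := by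
    rw [Finset.prod_congr rfl (fun i _ => hdiag0 i.1 i.2), Finset.prod_const, Finset.card_univ]
    congr 1
    rw [Fintype.card_subtype]
    have h2 : (Finset.univ.filter (fun a : Fin N => (a:ℕ) < h)).card = h := by
      have h3 : (Finset.univ.filter (fun a : Fin N => (a:ℕ) < h)).image (fun a : Fin N => (a:ℕ))
          = Finset.range h := by
        ext a
        simp only [Finset.mem_image, Finset.mem_filter, Finset.mem_univ, true_and,
          Finset.mem_range]
        constructor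
        · rintro ⟨b, hb, rfl⟩; exact hb
        · intro ha; exact ⟨⟨a, by omega⟩, ha, rfl⟩
      rw [← Finset.card_image_of_injective _ Fin.val_injective, h3, Finset.card_range]
    exact h2
  have e2 : ∏ i : {a : Fin N // ¬ (a:ℕ) < h}, M i i = 1 := by
    apply Finset.prod_eq_one
    intro i _
    exact hdiag i.1 (not_lt.mp i.2)
  rw [e1, e2, mul_one]

/-- The determinant inequality. -/
lemma det_bound {N h : ℕ} (hh : h ≤ N) (G : ℤ[X]) (hG : G.Monic) (z : ℂ)
    (x : Fin N → ℤ[X]) (hx : ∀ l, (x l).natDegree < N)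
    (hdet : (Matrix.of fun l i : Fin N => (x l).coeff (i:ℕ)).det ≠ 0) (c : Fin N → ℝ)
    (hc : ∀ l i : Fin N, (i:ℕ) < h →
      ‖(taylor z ((G * x l).map (Int.castRingHom ℂ))).coeff (i:ℕ)‖ ≤ c i)
    (hc' : ∀ l i : Fin N, h ≤ (i:ℕ) → |((G * x l).coeff (G.natDegree + i) : ℝ)| ≤ c i) :
    ‖ev G z‖ ^ h ≤ (N.factorial : ℝ) * ∏ i, c i := by
  classical
  set Gc : ℂ[X] := G.map (Int.castRingHom ℂ) with hGc
  have hGm : Gc.Monic := hG.map _
  have hGd : Gc.natDegree = G.natDegree := hG.natDegree_map _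
  set W : Matrix (Fin N) (Fin N) ℂ := Matrix.of fun l i : Fin N =>
    fnl z h G.natDegree (i:ℕ) ((G * x l).map (Int.castRingHom ℂ)) with hW
  have h1 : ‖W.det‖ ≤ (N.factorial : ℝ) * ∏ i, c i := by
    apply det_le_col
    intro l i
    rw [hW, Matrix.of_apply]
    by_cases hi : (i:ℕ) < h
    · rw [fnl_lt hi]; exact hc l i hi
    · rw [fnl_ge (not_lt.mp hi), coeff_map]
      have := hc' l i (not_lt.mp hi)
      simpa using this
  refine le_trans ?_ h1
  set τ : Matrix (Fin N) (Fin N) ℂ := Matrix.of fun l j : Fin N =>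
    (taylor z ((x l).map (Int.castRingHom ℂ))).coeff (j:ℕ) with hτ
  set Ω : Matrix (Fin N) (Fin N) ℂ := Matrix.of fun j i : Fin N =>
      fnl z h Gc.natDegree (i:ℕ) (Gc * (X - C z) ^ (j:ℕ)) with hΩ
  set T : Matrix (Fin N) (Fin N) ℤ := Matrix.of fun l i : Fin N => (x l).coeff (i:ℕ) with hT
  set S : Matrix (Fin N) (Fin N) ℂ := Matrix.of fun j j' : Fin N =>
    (taylor z (X ^ (j : ℕ) : ℂ[X])).coeff (j' : ℕ) with hS
  have hWe : W = τ * Ω := by
    ext l i
    rw [Matrix.mul_apply]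
    simp only [hW, hτ, hΩ, Matrix.of_apply]
    rw [Polynomial.map_mul, ← hGc, hGd]
    have hxd : ((x l).map (Int.castRingHom ℂ)).natDegree < N :=
      lt_of_le_of_lt natDegree_map_le (hx l)
    conv_lhs => rw [expand_taylor z _ hxd]
    rw [Finset.mul_sum, map_sum]
    apply Finset.sum_congr rfl
    intro j _
    rw [mul_smul_comm, map_smul, smul_eq_mul]
  have hτe : τ = (Int.castRingHom ℂ).mapMatrix T * S := by
    ext l j
    rw [Matrix.mul_apply]
    simp only [hτ, hS, hT, Matrix.of_apply, RingHom.mapMatrix_apply, Matrix.map_apply]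
    have h2 : (x l).map (Int.castRingHom ℂ)
        = ∑ i : Fin N, (((x l).coeff (i:ℕ) : ℤ) : ℂ) • (X ^ (i:ℕ) : ℂ[X]) := by
      have hxd : ((x l).map (Int.castRingHom ℂ)).natDegree < N :=
        lt_of_le_of_lt natDegree_map_le (hx l)
      rw [((x l).map (Int.castRingHom ℂ)).as_sum_range' N hxd,
        ← Fin.sum_univ_eq_sum_range (fun i => (monomial i)
          (((x l).map (Int.castRingHom ℂ)).coeff i)) N]
      apply Finset.sum_congr rfl
      intro i _
      rw [coeff_map, ← C_mul_X_pow_eq_monomial, smul_eq_C_mul]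
      rfl
    rw [h2, map_sum, finsetSum_coeff]
    apply Finset.sum_congr rfl
    intro i _
    rw [map_smul, coeff_smul, smul_eq_mul]
    rfl
  have hdetW : W.det = ((T.det : ℤ) : ℂ) * (Gc.eval z) ^ h := by
    rw [hWe, Matrix.det_mul, hτe, Matrix.det_mul, det_S, mul_one, det_Omega z hh Gc hGm,
      ← RingHom.map_det]
    rfl
  rw [hdetW, norm_mul, norm_pow, Complex.norm_intCast, ev_eq_eval, ← hGc]
  have h3 : (1:ℝ) ≤ |((T.det : ℤ) : ℝ)| := by
    have : (1:ℤ) ≤ |T.det| := Int.one_le_abs hdet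
    exact_mod_cast this
  have h4 : 0 ≤ ‖Gc.eval z‖ ^ h := by positivity
  nlinarith

end Pool.Agent.Work.MP_4c4335_nt
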