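import Mathlib
import Pool.Agent.Work.MP_4c4335_nt.Det

/-!
# Existence of a small polynomial which is not too flat
-/

namespace Pool.Agent.Work.MP_4c4335_nt

open Finset Polynomial Filter Real

/-- integer part of the logarithm, rounded up -/
noncomputable def LL (k : ℕ) : ℕ := ⌈Real.log k⌉₊

/-- the number of coefficients -/
noncomputable def mk (k : ℕ) : ℕ := 4 * k * (LL k) ^ 11

/-- the flatness parameter -/
noncomputable def hk (k : ℕ) : ℕ := (LL k) ^ 13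

/-- the gap parameter -/
noncomputable def gk (k : ℕ) : ℕ := (LL k) ^ 15

lemma log_le_LL (k : ℕ) : Real.log k ≤ LL k := Nat.le_ceil _

lemma tendsto_log_nat : Tendsto (fun k : ℕ => Real.log k) atTop atTop :=
  Real.tendsto_log_atTop.comp tendsto_natCast_atTop_atTop

lemma eventually_LL_le : ∀ᶠ k : ℕ in atTop, (LL k : ℝ) ≤ 2 * Real.log k := by
  filter_upwards [tendsto_log_nat.eventually_ge_atTop 1] with k hk
  have : (LL k : ℝ) < Real.log k + 1 := Nat.ceil_lt_add_one (by linarith)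
  linarith

lemma eventually_le_LL (C : ℝ) : ∀ᶠ k : ℕ in atTop, C ≤ (LL k : ℝ) := by
  filter_upwards [tendsto_log_nat.eventually_ge_atTop C] with k hk
  exact hk.trans (log_le_LL k)

lemma eventually_LL_pow_le (C : ℝ) (j : ℕ) : ∀ᶠ k : ℕ in atTop, C * (LL k : ℝ) ^ j ≤ k := by
  have h1 := (isLittleO_pow_log_id_atTop (n := j)).bound
    (show (0:ℝ) < 1 / ((|C| + 1) * 2 ^ j) by positivity)
  have h2 := (tendsto_natCast_atTop_atTop (R := ℝ)).eventually h1
  filter_upwards [h2, eventually_LL_le, tendsto_log_nat.eventually_ge_atTop 1] with k hk h3 h4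
  rw [Real.norm_of_nonneg (by positivity), id, Real.norm_of_nonneg (by positivity)] at hk
  have hL0 : (0:ℝ) ≤ LL k := Nat.cast_nonneg _
  calc C * (LL k : ℝ) ^ j ≤ (|C| + 1) * (LL k : ℝ) ^ j := by
        have := le_abs_self C
        gcongr; linarith
    _ ≤ (|C| + 1) * (2 * Real.log k) ^ j := by gcongr
    _ = ((|C| + 1) * 2 ^ j) * (Real.log k) ^ j := by rw [mul_pow]; ring
    _ ≤ ((|C| + 1) * 2 ^ j) * (1 / ((|C| + 1) * 2 ^ j) * k) := by gcongr
    _ = k := by field_simp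

lemma log49 : Real.log 49 ≤ 4 := by
  rw [Real.log_le_iff_le_exp (by norm_num)]
  have h27 : (2.7:ℝ) ≤ Real.exp 1 := by linarith [Real.exp_one_gt_d9]
  have h28 : Real.exp 4 = (Real.exp 1) ^ 4 := by rw [← Real.exp_nat_mul]; norm_num
  rw [h28]
  calc (49:ℝ) ≤ 2.7 ^ 4 := by norm_num
    _ ≤ (Real.exp 1) ^ 4 := by gcongr

/-- the numerical condition for the pigeonhole principle with `4k` coefficients -/
lemma pigeon_cond (B : ℕ) (hB : 1 ≤ B) : ∀ᶠ k : ℕ in atTop,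
    49 * (((4 * k : ℕ):ℝ) * B / Real.exp (-((k:ℝ) + gk k))) ^ 2 < ((B:ℝ) + 1) ^ (4 * k) := by
  filter_upwards [eventually_LL_pow_le (20 + 3 * Real.log B) 15, eventually_le_LL 1,
    eventually_ge_atTop 1] with k h1 h2 h3
  have hk0 : (0:ℝ) < k := by exact_mod_cast h3
  have hB0 : (1:ℝ) ≤ B := by exact_mod_cast hB
  have hlB : 0 ≤ Real.log B := Real.log_nonneg hB0
  have hg : (gk k : ℝ) = (LL k : ℝ) ^ 15 := by rw [gk]; push_cast; ring
  rw [← Real.log_lt_log_iff (by positivity) (by positivity)]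
  rw [Real.log_mul (by norm_num) (by positivity), Real.log_pow, Real.log_div (by positivity)
    (by positivity), Real.log_exp, Real.log_mul (by positivity) (by positivity), Real.log_pow]
  push_cast
  rw [Real.log_mul (by norm_num) (by positivity), hg]
  have l2 : (0.69 : ℝ) ≤ Real.log 2 := by linarith [Real.log_two_gt_d9]
  have l2' : Real.log 2 ≤ 0.7 := by linarith [Real.log_two_lt_d9]
  have l4 : Real.log 4 ≤ 1.4 := by
    have : (4:ℝ) = 2 ^ 2 := by norm_num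
    rw [this, Real.log_pow]; push_cast; linarith
  have lB : Real.log 2 ≤ Real.log ((B:ℝ) + 1) := Real.log_le_log (by norm_num) (by linarith)
  have l49 := log49
  have hlog := log_le_LL k
  have hL1 : (1:ℝ) ≤ (LL k : ℝ) ^ 15 := one_le_pow₀ h2
  have hL2 : (LL k : ℝ) ≤ (LL k : ℝ) ^ 15 := by
    calc (LL k : ℝ) = (LL k : ℝ) ^ 1 := (pow_one _).symm
      _ ≤ _ := pow_le_pow_right₀ h2 (by norm_num)
  have e1 : Real.log B ≤ Real.log B * (LL k : ℝ) ^ 15 := by nlinarith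
  have e2 : 4 * (k:ℝ) * 0.69 ≤ 4 * k * Real.log ((B:ℝ) + 1) := by
    have : (0.69:ℝ) ≤ Real.log ((B:ℝ) + 1) := by linarith
    gcongr
  nlinarith

lemma mem_JJ_expand {k B : ℕ} {δ : ℝ} {z : ℂ} {r : ℕ} (hr : 0 < r) (hr' : r ≤ (LL k) ^ 11)
    {F : ℤ[X]} (hF : F.natDegree < 4 * k) (hFc : ∀ i, |F.coeff i| ≤ (B:ℤ))
    (hFz : ‖ev F (z ^ r)‖ ≤ δ) : expand ℤ r F ∈ JJ (mk k) B δ z := by
  refine ⟨?_, ?_, ?_⟩
  · rw [natDegree_expand, mk]
    calc F.natDegree * r < 4 * k * r := Nat.mul_lt_mul_of_pos_right hF hr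
      _ ≤ 4 * k * (LL k) ^ 11 := Nat.mul_le_mul_left _ hr'
  · intro i
    rw [coeff_expand hr]
    split_ifs
    · exact hFc _
    · simp
  · rw [ev_expand]; exact hFz

/-- The nonzero roots of the common divisor are roots of unity. -/
lemma roots_of_common_divisor (B : ℕ) (hB : 1 ≤ B) : ∀ᶠ k : ℕ in atTop,
    ∀ z : ℂ, ‖z‖ = 1 → ∀ G : ℤ[X], G.Monic →
      (∀ P ∈ JJ (mk k) B (Real.exp (-((k:ℝ) + gk k))) z, G ∣ P) → G.natDegree ≤ mk k →
      ∀ α : ℂ, ev G α = 0 → α ≠ 0 → ∃ n, 0 < n ∧ α ^ n = 1 := by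
  have hT : Tendsto (fun k : ℕ => k ^ 2) atTop atTop := tendsto_pow_atTop (by norm_num)
  have hlogT : Tendsto (fun k : ℕ => (Real.log ((k ^ 2 : ℕ) : ℝ)) ^ 10) atTop atTop :=
    (tendsto_pow_atTop (by norm_num)).comp (tendsto_log_nat.comp hT)
  filter_upwards [pigeon_cond B hB, hT.eventually dobrowolski_log,
    hlogT.eventually (pi_lower (19/20) 4 (by norm_num)), eventually_LL_pow_le 4 11,
    eventually_ge_atTop (4 * B), eventually_ge_atTop 2, eventually_le_LL 1024,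
    tendsto_log_nat.eventually_ge_atTop 1, eventually_LL_pow_le 1 15]
    with k h1 h2 h3 h4 h5 h6 h7 h8 h9 z hz G hG hGdvd hGdeg α hα hα0
  have hk0 : (0:ℝ) < k := by positivity
  have hint : IsIntegral ℤ α := ⟨G, hG, by simpa [ev, aeval_def] using hα⟩
  set T := k ^ 2 with hTd
  have hlT : Real.log ((T : ℕ) : ℝ) = 2 * Real.log k := by
    rw [hTd]; push_cast; rw [Real.log_pow]; push_cast; ring
  set ℓ := Real.log ((T:ℕ):ℝ) with hℓ
  have hℓ2 : 2 ≤ ℓ := by rw [hlT]; linarith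
  have hmT : mk k ≤ T := by
    have : (mk k : ℝ) ≤ T := by
      rw [mk, hTd]; push_cast
      calc 4 * (k:ℝ) * (LL k : ℝ) ^ 11 = (k:ℝ) * (4 * (LL k : ℝ) ^ 11) := by ring
        _ ≤ (k:ℝ) * (k:ℝ) := by gcongr
        _ = (k:ℝ) ^ 2 := by ring
    exact_mod_cast this
  have hdegT : (minpoly ℤ α).natDegree ≤ T := by
    have h10 : minpoly ℤ α ∣ G := minpoly.isIntegrallyClosed_dvd hint hα
    exact (natDegree_le_of_dvd h10 hG.ne_zero).trans (hGdeg.trans hmT)
  have hroot : (ℓ ^ 10) ^ (19/20 : ℝ) = ℓ ^ (19/2 : ℝ) := by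
    rw [← Real.rpow_natCast, ← Real.rpow_mul (by linarith)]
    norm_num
  obtain ⟨P, hPcard, hP⟩ := good_primes (x := ℓ ^ 10) (y := ℓ ^ 9) (K := 1) (T := T)
    (by rw [hTd]; nlinarith) (by positivity) (by positivity) (by
      rw [hroot] at h3
      refine le_trans ?_ h3
      have a1 : ℓ ^ 9 ≤ ℓ ^ (19/2 : ℝ) := by
        rw [← Real.rpow_natCast]
        apply Real.rpow_le_rpow_of_exponent_le (by linarith) (by norm_num)
      have a2 : ℓ ≤ ℓ ^ 9 := by
        calc ℓ = ℓ ^ 1 := (pow_one _).symm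
          _ ≤ ℓ ^ 9 := pow_le_pow_right₀ (by linarith) (by norm_num)
      linarith) hint hα0 hdegT
  have hPne : P.Nonempty := by
    rw [← Finset.card_pos]
    have : (0:ℝ) < P.card := by linarith
    exact_mod_cast this
  obtain ⟨r, hr⟩ := hPne
  obtain ⟨hrp, hrg, hr1, hr2⟩ := hP r hr
  have hrL : r ≤ (LL k) ^ 11 := by
    have : (r:ℝ) ≤ (LL k : ℝ) ^ 11 := by
      calc (r:ℝ) ≤ ℓ ^ 10 := hr2
        _ = 1024 * (Real.log k) ^ 10 := by rw [hlT]; ring
        _ ≤ (LL k : ℝ) * (LL k : ℝ) ^ 10 := by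
            have := log_le_LL k
            gcongr
        _ = (LL k : ℝ) ^ 11 := by ring
    exact_mod_cast this
  have hδ1 : Real.exp (-((k:ℝ) + gk k)) ≤ 1 := by
    rw [Real.exp_le_one_iff]
    have : (0:ℝ) ≤ gk k := Nat.cast_nonneg _
    linarith
  have hzr : ‖z ^ r‖ = 1 := by rw [norm_pow, hz, one_pow]
  obtain ⟨F, hF0, hFdeg, hFc, hFz⟩ := pigeon (s := 4 * k) (by omega) hB (Real.exp_pos _) hδ1 hzr h1
  have hmem := mem_JJ_expand hrp.pos hrL hFdeg hFc hFz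
  have hdvd := hGdvd _ hmem
  have hFα : ev F (α ^ r) = 0 := by
    rw [← ev_expand]
    obtain ⟨q, hq⟩ := hdvd
    rw [hq, ev, map_mul]
    simp only [ev] at hα
    rw [hα, zero_mul]
  have hmp : minpoly ℤ (α ^ r) ∣ F := minpoly.isIntegrallyClosed_dvd (isIntegral_pow hint r) hFα
  have hmm1 : mm (minpoly ℤ (α ^ r)) ≤ ((4 * k : ℕ) : ℝ) * B :=
    (mm_le_of_dvd hmp hF0).trans (mm_le_of_coeff_le hFdeg (fun i => by exact_mod_cast hFc i))
  rw [mm_pow hint hrg] at hmm1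
  set M := mm (minpoly ℤ α) with hM
  have hM1 : 1 ≤ M := one_le_mm (minpoly.ne_zero hint)
  have hlogM : (r:ℝ) * Real.log M ≤ ℓ := by
    have h10 := Real.log_le_log (by positivity) hmm1
    rw [Real.log_pow] at h10
    refine h10.trans ?_
    have h11 : ((4 * k : ℕ) : ℝ) * B ≤ (T:ℕ) := by
      rw [hTd]; push_cast
      have : 4 * (B:ℝ) ≤ k := by exact_mod_cast h5
      nlinarith
    exact Real.log_le_log (by positivity) h11
  have hM8 : ℓ ^ 8 * Real.log M ≤ 1 := by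
    have hlM : 0 ≤ Real.log M := Real.log_nonneg hM1
    have h12 : ℓ ^ 9 * Real.log M ≤ ℓ := le_trans (by gcongr) hlogM
    have h13 : ℓ * (ℓ ^ 8 * Real.log M) ≤ ℓ * 1 := by
      calc ℓ * (ℓ ^ 8 * Real.log M) = ℓ ^ 9 * Real.log M := by ring
        _ ≤ ℓ := h12
        _ = ℓ * 1 := (mul_one _).symm
    exact le_of_mul_le_mul_left h13 (by linarith)
  have hM1' : M = 1 := h2 α hint hα0 hdegT hM8
  refine pow_eq_one_of_mahlerMeasure_eq_one (p := minpoly ℤ α) hM1' hα0 ?_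
  rw [mem_aroots]
  exact ⟨minpoly.ne_zero hint, minpoly.aeval ℤ α⟩

end Pool.Agent.Work.MP_4c4335_nt
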