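import Mathlib
import Pool.Agent.Work.MP_4c4335_nt.Flat

/-!
# Existence of a small polynomial which is not too flat, continued
-/

namespace Pool.Agent.Work.MP_4c4335_nt

open Finset Polynomial Filter Real

lemma eventually_mk_le : ∀ᶠ k : ℕ in atTop, 2 * mk k ≤ k ^ 2 := by
  filter_upwards [eventually_LL_pow_le 8 11] with k h4
  have : (2:ℝ) * (mk k : ℝ) ≤ (k:ℝ) ^ 2 := by
    rw [mk]; push_cast
    calc 2 * (4 * (k:ℝ) * (LL k : ℝ) ^ 11) = (k:ℝ) * (8 * (LL k : ℝ) ^ 11) := by ring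
      _ ≤ (k:ℝ) * (k:ℝ) := by gcongr
      _ = (k:ℝ) ^ 2 := by ring
  exact_mod_cast this

lemma degree_of_common_divisor (B : ℕ) (hB : 1 ≤ B) : ∀ᶠ k : ℕ in atTop,
    ∀ z : ℂ, ‖z‖ = 1 → ∀ G : ℤ[X], G.Monic →
      (∀ P ∈ JJ (mk k) B (Real.exp (-((k:ℝ) + gk k))) z, G ∣ P) → G.natDegree ≤ mk k →
      (G.natDegree : ℝ) * Real.log ((B:ℝ) + 1) ≤ 3 * k := by
  filter_upwards [eventually_LL_pow_le (20 + 3 * Real.log B) 15, eventually_le_LL 1,
    eventually_ge_atTop 1, eventually_mk_le] with k h1 h2 h3 h4 z hz G hG hGdvd hGdeg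
  by_contra hcon
  push Not at hcon
  have hk0 : (0:ℝ) < k := by exact_mod_cast h3
  have hB0 : (1:ℝ) ≤ B := by exact_mod_cast hB
  have hlB : 0 ≤ Real.log B := Real.log_nonneg hB0
  have hg : (gk k : ℝ) = (LL k : ℝ) ^ 15 := by rw [gk]; push_cast; ring
  set e := G.natDegree with he
  have hepos : 0 < e := by
    rcases Nat.eq_zero_or_pos e with h | h
    · rw [h] at hcon; push_cast at hcon; nlinarith
    · exact h
  have heR : (0:ℝ) < e := by exact_mod_cast hepos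
  have hδ1 : Real.exp (-((k:ℝ) + gk k)) ≤ 1 := by
    rw [Real.exp_le_one_iff]
    have : (0:ℝ) ≤ gk k := Nat.cast_nonneg _
    linarith
  have hcond : 49 * ((e:ℝ) * B / Real.exp (-((k:ℝ) + gk k))) ^ 2 < ((B:ℝ) + 1) ^ e := by
    rw [← Real.log_lt_log_iff (by positivity) (by positivity)]
    rw [Real.log_mul (by norm_num) (by positivity), Real.log_pow, Real.log_div (by positivity)
      (by positivity), Real.log_exp, Real.log_mul (by positivity) (by positivity), Real.log_pow, hg]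
    push_cast
    have l49 := log49
    have hlog := log_le_LL k
    have hL1 : (1:ℝ) ≤ (LL k : ℝ) ^ 15 := one_le_pow₀ h2
    have hL2 : (LL k : ℝ) ≤ (LL k : ℝ) ^ 15 := by
      calc (LL k : ℝ) = (LL k : ℝ) ^ 1 := (pow_one _).symm
        _ ≤ _ := pow_le_pow_right₀ h2 (by norm_num)
    have e1 : Real.log B ≤ Real.log B * (LL k : ℝ) ^ 15 := by nlinarith
    have e2 : Real.log e ≤ 2 * (LL k : ℝ) := by
      have h5 : (e:ℝ) ≤ (k:ℝ) ^ 2 := by
        have : e ≤ k ^ 2 := by omega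
        exact_mod_cast this
      have h6 := Real.log_le_log heR h5
      rw [Real.log_pow] at h6
      push_cast at h6
      linarith
    nlinarith
  obtain ⟨F, hF0, hFdeg, hFc, hFz⟩ := pigeon (s := e) (by omega) hB (Real.exp_pos _) hδ1 hz hcond
  have hmem : F ∈ JJ (mk k) B (Real.exp (-((k:ℝ) + gk k))) z := ⟨by omega, hFc, hFz⟩
  have := natDegree_le_of_dvd (hGdvd F hmem) hF0
  omega

/-- shifts of flat polynomials are flat -/
lemma taylor_shift_bound {z : ℂ} (hz : ‖z‖ = 1) {h : ℕ} {D E : ℝ} (hD : 0 ≤ D)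
    {P : ℂ[X]} (hP : ∀ b < h, ‖(taylor z P).coeff b‖ ≤ D * E ^ b) {M j : ℕ} (hj : j ≤ M)
    (hM : 2 * (M:ℝ) ≤ E) {i : ℕ} (hi : i < h) :
    ‖(taylor z (X ^ j * P)).coeff i‖ ≤ 2 * D * E ^ i := by
  have hE : 0 ≤ E := le_trans (by positivity) hM
  rw [taylor_mul, coeff_mul, Finset.Nat.sum_antidiagonal_eq_sum_range_succ_mk]
  calc ‖∑ a ∈ range i.succ, (taylor z (X ^ j)).coeff a * (taylor z P).coeff (i - a)‖
      ≤ ∑ a ∈ range i.succ, ‖(taylor z (X ^ j)).coeff a * (taylor z P).coeff (i - a)‖ :=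
        norm_sum_le _ _
    _ ≤ ∑ a ∈ range i.succ, D * E ^ i * (1 / 2 : ℝ) ^ a := by
        apply Finset.sum_le_sum
        intro a ha
        have hai : a ≤ i := by
          rw [Finset.mem_range] at ha; omega
        rw [norm_mul]
        have h1 : ‖(taylor z (X ^ j)).coeff a‖ ≤ (M:ℝ) ^ a := by
          rw [taylor_X_pow, coeff_X_add_C_pow, norm_mul, norm_pow, hz, one_pow, one_mul,
            Complex.norm_natCast]
          have : j.choose a ≤ M ^ a := (Nat.choose_le_pow _ _).trans (Nat.pow_le_pow_left hj a)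
          exact_mod_cast this
        have h2 := hP (i - a) (by omega)
        calc ‖(taylor z (X ^ j)).coeff a‖ * ‖(taylor z P).coeff (i - a)‖
            ≤ (E / 2) ^ a * (D * E ^ (i - a)) := by
              apply mul_le_mul _ h2 (norm_nonneg _) (by positivity)
              refine h1.trans ?_
              have : (M:ℝ) ≤ E / 2 := by linarith
              gcongr
          _ = D * (E ^ a * E ^ (i - a)) * (1 / 2 : ℝ) ^ a := by
              rw [div_pow, one_div, inv_pow]; ring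
          _ = D * E ^ i * (1 / 2 : ℝ) ^ a := by
              rw [← pow_add, Nat.add_sub_cancel' hai]
    _ = D * E ^ i * ∑ a ∈ range i.succ, (1 / 2 : ℝ) ^ a := by rw [Finset.mul_sum]
    _ ≤ D * E ^ i * 2 := by
        have := sum_geometric_two_le i.succ
        gcongr
    _ = 2 * D * E ^ i := by ring

/-- A unit leading coefficient from small coefficients. -/
lemma abs_leadingCoeff_eq_one {F : ℤ[X]} (hF0 : F ≠ 0) (hFc : ∀ i, |F.coeff i| ≤ 1) :
    |F.leadingCoeff| = 1 := by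
  have h1 := hFc F.natDegree
  have h2 : F.coeff F.natDegree ≠ 0 := by
    rw [coeff_natDegree]; exact leadingCoeff_ne_zero.mpr hF0
  have h3 := Int.one_le_abs h2
  rw [coeff_natDegree] at h1 h3
  omega

/-- the final numerical contradiction -/
lemma flat_num {k m h N e B : ℕ} {L C0 : ℝ} (hm : (m:ℝ) = 4 * k * L ^ 11) (hh : (h:ℝ) = L ^ 13)
    (hL : 200 ≤ L) (hk : 10 ≤ k) (hN : N ≤ 2 * m) (hN1 : 1 ≤ N)
    (hlog : Real.log ((2 * m : ℕ) : ℝ) ≤ 2 * L)
    (hB1 : 1 ≤ B) (hlogB : Real.log B ≤ L) (hCe : C0 * e ≤ k / 4)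
    (hmain : Real.exp (-C0 * e) ^ h ≤ (N.factorial : ℝ) *
      ((∏ i ∈ range h, (2 * Real.exp (-(k:ℝ)) * (Real.exp ((k:ℝ) / h)) ^ i)) *
        (B:ℝ) ^ (N - h))) : False := by
  have hL0 : 0 < L := by linarith
  have hh0 : (0:ℝ) < h := by rw [hh]; positivity
  have hk0 : (10:ℝ) ≤ k := by exact_mod_cast hk
  have hB0 : (1:ℝ) ≤ B := by exact_mod_cast hB1
  have hprod : ∏ i ∈ range h, (2 * Real.exp (-(k:ℝ)) * (Real.exp ((k:ℝ) / h)) ^ i)
      ≤ Real.exp (h * 0.7 - k * h / 2) := by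
    have e1 : ∀ i ∈ range h, 2 * Real.exp (-(k:ℝ)) * (Real.exp ((k:ℝ) / h)) ^ i
        ≤ Real.exp (0.7 - k + (k / h) * i) := by
      intro i _
      rw [← Real.exp_nat_mul, Real.exp_add, sub_eq_add_neg, Real.exp_add, mul_comm (i:ℝ)]
      have : (2:ℝ) ≤ Real.exp 0.7 := by
        have := Real.exp_log (show (0:ℝ) < 2 by norm_num)
        rw [← this, Real.exp_le_exp]
        linarith [Real.log_two_lt_d9]
      gcongr
    refine (Finset.prod_le_prod (fun i _ => by positivity) e1).trans ?_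
    rw [← Real.exp_sum, Real.exp_le_exp, Finset.sum_add_distrib, Finset.sum_const,
      Finset.card_range, ← Finset.mul_sum, nsmul_eq_mul]
    have e2 : (∑ i ∈ range h, (i:ℝ)) * 2 ≤ (h:ℝ) * h := by
      have := Finset.sum_range_id_mul_two h
      have h2 : (∑ i ∈ range h, (i:ℝ)) * 2 = ((h * (h - 1) : ℕ) : ℝ) := by
        rw [← this]; push_cast; ring
      rw [h2]
      have : h * (h - 1) ≤ h * h := Nat.mul_le_mul_left _ (Nat.sub_le _ _)
      exact_mod_cast this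
    have e3 : (k:ℝ) / h * ∑ i ∈ range h, (i:ℝ) ≤ k * h / 2 := by
      calc (k:ℝ) / h * ∑ i ∈ range h, (i:ℝ)
          = (k:ℝ) / h * ((∑ i ∈ range h, (i:ℝ)) * 2) / 2 := by ring
        _ ≤ (k:ℝ) / h * ((h:ℝ) * h) / 2 := by gcongr
        _ = k * h / 2 := by field_simp
    nlinarith
  have hfac : (N.factorial : ℝ) ≤ Real.exp (2 * m * (2 * L)) := by
    have hN0 : (0:ℝ) < N := by exact_mod_cast hN1
    have h1 : (N.factorial : ℝ) ≤ (N:ℝ) ^ N := by exact_mod_cast Nat.factorial_le_pow N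
    refine h1.trans ?_
    rw [← Real.exp_log (pow_pos hN0 N), Real.exp_le_exp, Real.log_pow]
    have h2 : (N:ℝ) ≤ ((2 * m : ℕ) : ℝ) := by exact_mod_cast hN
    have h3 : Real.log N ≤ 2 * L := (Real.log_le_log hN0 h2).trans hlog
    push_cast at h2
    gcongr
  have hBp : (B:ℝ) ^ (N - h) ≤ Real.exp (2 * m * L) := by
    have hB0' : (0:ℝ) < B := by linarith
    rw [← Real.exp_log (pow_pos hB0' (N - h)), Real.exp_le_exp, Real.log_pow]
    have h2 : ((N - h : ℕ) : ℝ) ≤ ((2 * m : ℕ) : ℝ) := by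
      have : N - h ≤ 2 * m := by omega
      exact_mod_cast this
    push_cast at h2
    have h3 : 0 ≤ Real.log B := Real.log_nonneg hB0
    gcongr
  have hleft : Real.exp (-(k / 4 * h)) ≤ Real.exp (-C0 * e) ^ h := by
    rw [← Real.exp_nat_mul, Real.exp_le_exp]
    nlinarith
  have hfinal : Real.exp (-(k / 4 * h)) ≤
      Real.exp (2 * m * (2 * L) + (h * 0.7 - k * h / 2) + 2 * m * L) := by
    refine hleft.trans (hmain.trans ?_)
    rw [Real.exp_add, Real.exp_add, mul_assoc]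
    gcongr
  rw [Real.exp_le_exp] at hfinal
  rw [hm, hh] at hfinal
  have h12 : 0 < L ^ 12 := by positivity
  have e1 : (4 * (k:ℝ) * L ^ 11) * L = 4 * k * L ^ 12 := by ring
  have e2 : L ^ 13 = L * L ^ 12 := by ring
  have e3 : (200:ℝ) * L ^ 12 ≤ L ^ 13 := by rw [e2]; gcongr
  have e4 : 2 * (4 * (k:ℝ) * L ^ 11) * (2 * L) + 2 * (4 * (k:ℝ) * L ^ 11) * L
      = 24 * k * L ^ 12 := by ring
  have e5 : (k:ℝ) / 4 * L ^ 13 ≤ 24 * k * L ^ 12 + L ^ 13 * 0.7 := by nlinarith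
  have e6 : ((k:ℝ) / 4 - 0.7) * L ^ 13 ≤ 24 * k * L ^ 12 := by linarith
  have e7 : ((k:ℝ) / 4 - 0.7) * (200 * L ^ 12) ≤ ((k:ℝ) / 4 - 0.7) * L ^ 13 := by
    apply mul_le_mul_of_nonneg_left e3; linarith
  nlinarith

/-- The main deterministic lemma. -/
lemma exists_nonflat {c : ℝ} (hc : 0 < c) (hc1 : c ≤ 1) : ∃ B : ℕ, 1 ≤ B ∧
    ∀ᶠ k : ℕ in atTop, ∀ z : ℂ, DioZ c z →
      ∃ P ∈ JJ (mk k) B (Real.exp (-((k:ℝ) + gk k))) z, ∃ i < hk k,
        Real.exp (-(k:ℝ)) * (Real.exp ((k:ℝ) / hk k)) ^ i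
          < ‖(taylor z (P.map (Int.castRingHom ℂ))).coeff i‖ := by
  set C0 := 3 * (Real.log (2 / c) + 10) with hC0
  have hC0pos : 0 < C0 := by
    have : 0 ≤ Real.log (2 / c) := by
      apply Real.log_nonneg
      rw [le_div_iff₀ hc]; linarith
    positivity
  set B := ⌈Real.exp (12 * C0)⌉₊ with hBd
  have hB1 : 1 ≤ B := Nat.one_le_ceil_iff.mpr (Real.exp_pos _)
  have hlogB1 : 12 * C0 ≤ Real.log ((B:ℝ) + 1) := by
    rw [Real.le_log_iff_exp_le (by positivity)]
    have := Nat.le_ceil (Real.exp (12 * C0))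
    rw [← hBd] at this
    linarith
  refine ⟨B, hB1, ?_⟩
  filter_upwards [pigeon_cond 1 le_rfl, roots_of_common_divisor B hB1,
    degree_of_common_divisor B hB1, eventually_mk_le, eventually_le_LL 200,
    eventually_ge_atTop 10, eventually_le_LL (Real.log B), eventually_LL_pow_le 3 14,
    eventually_LL_pow_le 1 13] with k h1 h2 h3 h4 h5 h6 h7 h8 h9 z hz
  by_contra hcon
  push Not at hcon
  have hz1 := hz.1
  set δ := Real.exp (-((k:ℝ) + gk k)) with hδ
  set m := mk k with hm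
  set h := hk k with hhd
  set E := Real.exp ((k:ℝ) / h) with hE
  have hL0 : (0:ℝ) < LL k := by linarith
  have hhR : (h:ℝ) = (LL k : ℝ) ^ 13 := by rw [hhd, hk]; push_cast; ring
  have hmR : (m:ℝ) = 4 * k * (LL k : ℝ) ^ 11 := by rw [hm, mk]; push_cast; ring
  have hk0 : (0:ℝ) < k := by
    have : (10:ℝ) ≤ k := by exact_mod_cast h6
    linarith
  have hδ1 : δ ≤ 1 := by
    rw [hδ, Real.exp_le_one_iff]
    have : (0:ℝ) ≤ gk k := Nat.cast_nonneg _
    linarith
  -- a first polynomial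
  obtain ⟨P0, hP0, hP0deg, hP0c, hP0z⟩ := pigeon (s := 4 * k) (by omega) le_rfl
    (Real.exp_pos _) hδ1 hz1 h1
  have h4km : 4 * k ≤ m := by
    rw [hm, mk]
    have : 1 ≤ LL k := by
      have : (1:ℝ) ≤ LL k := by linarith
      exact_mod_cast this
    calc 4 * k = 4 * k * 1 := (mul_one _).symm
      _ ≤ 4 * k * (LL k) ^ 11 := Nat.mul_le_mul_left _ (Nat.one_le_pow _ _ this)
  have hP0J : P0 ∈ JJ m B δ z := by
    refine ⟨by omega, fun i => (hP0c i).trans (by exact_mod_cast hB1), hP0z⟩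
  have hlc := abs_leadingCoeff_eq_one hP0 (fun i => by exact_mod_cast hP0c i)
  obtain ⟨G, hG, hGdvd, hGI⟩ := exists_G hP0J hlc
  have hGm : G.natDegree < m := lt_of_le_of_lt (natDegree_le_of_dvd (hGdvd P0 hP0J) hP0) hP0J.1
  have hroots := h2 z hz1 G hG hGdvd hGm.le
  have hdegG := h3 z hz1 G hG hGdvd hGm.le
  have hlow := lower_of_cyclotomic hc hc1 hz _ G hG rfl hroots
  have hCe : C0 * G.natDegree ≤ k / 4 := by
    have : (G.natDegree:ℝ) * (12 * C0) ≤ (G.natDegree:ℝ) * Real.log ((B:ℝ) + 1) := by gcongr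
    linarith
  obtain ⟨N, hN, x, hx, hdet⟩ : ∃ N, N = 2 * m - G.natDegree ∧ ∃ x : Fin N → ℤ[X],
      (∀ l, (x l).natDegree < N ∧ ∃ P ∈ JJ m B δ z, ∃ j : ℕ,
        (X ^ j * P).natDegree < 2 * m ∧ G * x l = X ^ j * P) ∧
      (Matrix.of fun l i : Fin N => (x l).coeff (i : ℕ)).det ≠ 0 :=
    ⟨_, rfl, exists_vectors hP0J hP0 (fun P hP => hP.1) hG hGdvd hGI⟩
  have hhm : h ≤ m := by
    have : (h:ℝ) ≤ m := by
      rw [hhR, hmR]
      have e2 : (LL k : ℝ) ^ 13 ≤ k := by linarith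
      have e3 : (1:ℝ) ≤ (LL k : ℝ) ^ 11 := one_le_pow₀ (by linarith)
      nlinarith
    exact_mod_cast this
  have hhN : h ≤ N := by omega
  have hhpos : 0 < h := by
    have : (0:ℝ) < h := by rw [hhR]; positivity
    exact_mod_cast this
  -- size of E
  have hE4 : 2 * (((2 * m : ℕ) : ℝ)) ≤ E := by
    have e1 : ((2 * m : ℕ) : ℝ) ≤ (k:ℝ) ^ 2 := by exact_mod_cast h4
    have e2 : 3 * (LL k : ℝ) ≤ (k:ℝ) / h := by
      rw [hhR, le_div_iff₀ (by positivity)]
      calc 3 * (LL k : ℝ) * (LL k : ℝ) ^ 13 = 3 * (LL k : ℝ) ^ 14 := by ring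
        _ ≤ (k:ℝ) := h8
    have e3 : (k:ℝ) ^ 3 ≤ E := by
      rw [hE, ← Real.exp_log (pow_pos hk0 3), Real.exp_le_exp, Real.log_pow]
      have := log_le_LL k
      push_cast
      linarith
    have e4 : (2:ℝ) ≤ k := by
      have : (10:ℝ) ≤ k := by exact_mod_cast h6
      linarith
    calc 2 * (((2 * m : ℕ) : ℝ)) ≤ 2 * (k:ℝ) ^ 2 := by gcongr
      _ ≤ (k:ℝ) * (k:ℝ) ^ 2 := by gcongr
      _ = (k:ℝ) ^ 3 := by ring
      _ ≤ E := e3
  set cc : ℕ → ℝ := fun i => if i < h then 2 * Real.exp (-(k:ℝ)) * E ^ i else B with hcc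
  have hbound := det_bound (N := N) (h := h) hhN G hG z x (fun l => (hx l).1) hdet
    (fun i => cc i)
    (by
      intro l i hi
      obtain ⟨_, P, hP, j, hj, hPj⟩ := hx l
      simp only [hcc]
      rw [if_pos hi, hPj, Polynomial.map_mul, Polynomial.map_pow, map_X]
      by_cases hP00 : P = 0
      · rw [hP00]; simp; positivity
      have hjm : j ≤ 2 * m := by
        rw [natDegree_mul (pow_ne_zero _ X_ne_zero) hP00, natDegree_X_pow] at hj
        omega
      exact taylor_shift_bound hz1 (Real.exp_pos _).le (fun b hb => hcon P hP b hb) hjm hE4 hi)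
    (by
      intro l i hi
      obtain ⟨_, P, hP, j, hj, hPj⟩ := hx l
      simp only [hcc]
      rw [if_neg (not_lt.mpr hi), hPj, coeff_X_pow_mul']
      split_ifs
      · exact_mod_cast hP.2.1 _
      · simp)
  have hprodeq : ∏ i : Fin N, cc i = (∏ i ∈ range h, (2 * Real.exp (-(k:ℝ)) * E ^ i)) *
        (B:ℝ) ^ (N - h) := by
    rw [Fin.prod_univ_eq_prod_range cc N, ← Finset.prod_range_mul_prod_Ico cc hhN]
    congr 1
    · apply Finset.prod_congr rfl
      intro i hi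
      rw [Finset.mem_range] at hi
      simp only [hcc]
      rw [if_pos hi]
    · rw [← Nat.card_Ico, ← Finset.prod_const]
      apply Finset.prod_congr rfl
      intro i hi
      rw [Finset.mem_Ico] at hi
      simp only [hcc]
      rw [if_neg (by omega)]
  rw [hprodeq] at hbound
  refine flat_num (k := k) (m := m) (h := h) (N := N) (e := G.natDegree) (B := B) (L := LL k) (C0 := C0)
    hmR hhR h5 h6 (by omega) (by omega) ?_ hB1 h7 hCe ?_
  · have e1 : ((2 * m : ℕ) : ℝ) ≤ (k:ℝ) ^ 2 := by exact_mod_cast h4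
    have hm0 : (0:ℝ) < ((2 * m : ℕ) : ℝ) := by
      have : 0 < 2 * m := by omega
      exact_mod_cast this
    have e2 := Real.log_le_log hm0 e1
    rw [Real.log_pow] at e2
    have := log_le_LL k
    push_cast at e2 ⊢
    linarith
  · refine le_trans ?_ hbound
    gcongr

end Pool.Agent.Work.MP_4c4335_nt
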