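import Mathlib

/-!
# Separated points, interpolation and coverings
-/

namespace Pool.Agent.Work.MP_4c4335_nt

open Finset Polynomial MeasureTheory

/-- A set of large measure contains many separated points. -/
lemma sep_points (E : Set ℝ) (σ : ℝ) (D : ℕ)
    (h : ENNReal.ofReal (D * (2 * σ)) < volume E) (hσ : 0 < σ) :
    ∀ n ≤ D, ∃ t : Fin n → ℝ, (∀ j, t j ∈ E) ∧ ∀ i j, i ≠ j → σ ≤ |t i - t j| := by
  intro n
  induction n with
  | zero => intro _; exact ⟨Fin.elim0, fun j => j.elim0, fun i => i.elim0⟩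
  | succ n ih =>
    intro hn
    obtain ⟨t, ht1, ht2⟩ := ih (by omega)
    have hnot : ¬ E ⊆ ⋃ i : Fin n, Set.Ioo (t i - σ) (t i + σ) := by
      intro hsub
      have h1 : volume E ≤ ENNReal.ofReal (D * (2 * σ)) := by
        calc volume E ≤ volume (⋃ i : Fin n, Set.Ioo (t i - σ) (t i + σ)) := measure_mono hsub
          _ ≤ ∑ i : Fin n, volume (Set.Ioo (t i - σ) (t i + σ)) := measure_iUnion_fintype_le _ _
          _ = ∑ i : Fin n, ENNReal.ofReal (2 * σ) := by
              apply Finset.sum_congr rfl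
              intro i _
              rw [Real.volume_Ioo]; congr 1; ring
          _ = ENNReal.ofReal (n * (2 * σ)) := by
              rw [Finset.sum_const, Finset.card_univ, Fintype.card_fin, nsmul_eq_mul,
                ENNReal.ofReal_mul (Nat.cast_nonneg n), ENNReal.ofReal_natCast]
          _ ≤ ENNReal.ofReal (D * (2 * σ)) := by
              apply ENNReal.ofReal_le_ofReal
              have : (n:ℝ) ≤ D := by exact_mod_cast (by omega : n ≤ D)
              gcongr
      exact absurd h (not_lt.mpr h1)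
    rw [Set.not_subset] at hnot
    obtain ⟨x, hxE, hx⟩ := hnot
    have hx' : ∀ i : Fin n, σ ≤ |x - t i| := by
      intro i
      by_contra hcon
      push Not at hcon
      apply hx
      rw [Set.mem_iUnion]
      rw [abs_lt] at hcon
      exact ⟨i, by constructor <;> linarith [hcon.1, hcon.2]⟩
    refine ⟨Fin.cons x t, ?_, ?_⟩
    · intro j
      refine Fin.cases ?_ ?_ j
      · simpa using hxE
      · intro i; simpa using ht1 i
    · intro i j
      refine Fin.cases ?_ ?_ i
      · refine Fin.cases ?_ ?_ j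
        · intro h; exact absurd rfl h
        · intro j' _
          simpa using hx' j'
      · intro i'
        refine Fin.cases ?_ ?_ j
        · intro _
          simp only [Fin.cons_succ, Fin.cons_zero]
          rw [abs_sub_comm]; exact hx' i'
        · intro j' hij
          simp only [Fin.cons_succ]
          exact ht2 i' j' (fun h => hij (by rw [h]))

/-- weighted coefficient sum -/
noncomputable def pn (D : ℕ) (ρ : ℝ) (p : ℂ[X]) : ℝ := ∑ i ∈ range D, ‖p.coeff i‖ * ρ ^ i

lemma pn_nonneg {D : ℕ} {ρ : ℝ} (hρ : 0 ≤ ρ) (p : ℂ[X]) : 0 ≤ pn D ρ p :=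
  Finset.sum_nonneg (fun _ _ => by positivity)

lemma pn_add_le {D : ℕ} {ρ : ℝ} (hρ : 0 ≤ ρ) (p q : ℂ[X]) :
    pn D ρ (p + q) ≤ pn D ρ p + pn D ρ q := by
  unfold pn
  rw [← Finset.sum_add_distrib]
  apply Finset.sum_le_sum
  intro i _
  rw [coeff_add, ← add_mul]
  have := norm_add_le (p.coeff i) (q.coeff i)
  gcongr

lemma pn_sum_le {ι : Type*} {D : ℕ} {ρ : ℝ} (hρ : 0 ≤ ρ) (s : Finset ι) (p : ι → ℂ[X]) :
    pn D ρ (∑ i ∈ s, p i) ≤ ∑ i ∈ s, pn D ρ (p i) := by
  classical
  induction s using Finset.induction_on with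
  | empty => simp [pn]
  | insert a s ha ih =>
    rw [Finset.sum_insert ha, Finset.sum_insert ha]
    exact (pn_add_le hρ _ _).trans (by linarith)

lemma pn_C_mul {D : ℕ} {ρ : ℝ} (a : ℂ) (p : ℂ[X]) : pn D ρ (C a * p) = ‖a‖ * pn D ρ p := by
  unfold pn
  rw [Finset.mul_sum]
  apply Finset.sum_congr rfl
  intro i _
  rw [coeff_C_mul, norm_mul]; ring

lemma pn_one_le {D : ℕ} {ρ : ℝ} : pn D ρ 1 ≤ 1 := by
  unfold pn
  have h : ∀ i ∈ range D, ‖(1:ℂ[X]).coeff i‖ * ρ ^ i = if i = 0 then 1 else 0 := by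
    intro i _
    rw [coeff_one]
    split_ifs with h
    · rw [h]; simp
    · simp
  rw [Finset.sum_congr rfl h, Finset.sum_ite_eq']
  split_ifs <;> norm_num

lemma pn_X_mul_le {D : ℕ} {ρ : ℝ} (hρ : 0 ≤ ρ) (q : ℂ[X]) :
    pn D ρ (X * q) ≤ ρ * pn D ρ q := by
  unfold pn
  rcases Nat.eq_zero_or_pos D with h0 | hpos
  · rw [h0]; simp
  · obtain ⟨D', rfl⟩ : ∃ D', D = D' + 1 := ⟨D - 1, by omega⟩
    rw [Finset.sum_range_succ', mul_coeff_zero, coeff_X_zero, zero_mul, norm_zero, zero_mul,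
      add_zero, Finset.sum_range_succ, mul_add, Finset.mul_sum]
    have h1 : ∑ i ∈ range D', ‖(X * q).coeff (i + 1)‖ * ρ ^ (i + 1)
        = ∑ i ∈ range D', ρ * (‖q.coeff i‖ * ρ ^ i) := by
      apply Finset.sum_congr rfl
      intro i _
      rw [coeff_X_mul, pow_succ]; ring
    rw [h1]
    have h2 : 0 ≤ ρ * (‖q.coeff D'‖ * ρ ^ D') := by positivity
    linarith

lemma pn_linear_mul_le {D : ℕ} {ρ : ℝ} (hρ : 0 ≤ ρ) (w : ℂ) (q : ℂ[X]) :
    pn D ρ ((X - C w) * q) ≤ (ρ + ‖w‖) * pn D ρ q := by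
  have h1 : (X - C w) * q = X * q + C (-w) * q := by rw [C_neg]; ring
  rw [h1]
  refine (pn_add_le hρ _ _).trans ?_
  rw [pn_C_mul, norm_neg, add_mul]
  have := pn_X_mul_le (D := D) hρ q
  linarith

/-- Coefficients of a polynomial which is small at well separated points. -/
lemma interp {D : ℕ} (T : ℂ[X]) (hT : T.degree < D) (w : Fin D → ℂ) {ρ σ ε : ℝ}
    (hρ : 0 ≤ ρ) (hw : ∀ j, ‖w j‖ ≤ ρ) (hσ : 0 < σ) (hsep : ∀ i j, i ≠ j → σ ≤ ‖w i - w j‖)
    (hval : ∀ j, ‖T.eval (w j)‖ ≤ ε) :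
    pn D ρ T ≤ D * (ε * (2 * ρ / σ) ^ (D - 1)) := by
  classical
  have hinj : Set.InjOn w ((Finset.univ : Finset (Fin D)) : Set (Fin D)) := by
    intro i _ j _ hij
    by_contra hne
    have := hsep i j hne
    rw [hij, sub_self, norm_zero] at this
    linarith
  have h1 := Lagrange.eq_interpolate (s := Finset.univ) (v := w) (f := T) hinj
    (by rw [Finset.card_univ, Fintype.card_fin]; exact hT)
  rw [h1, Lagrange.interpolate_apply]
  refine (pn_sum_le hρ _ _).trans ?_
  have h2 : ∀ j ∈ (Finset.univ : Finset (Fin D)),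
      pn D ρ (C (T.eval (w j)) * Lagrange.basis Finset.univ w j)
        ≤ ε * (2 * ρ / σ) ^ (D - 1) := by
    intro j _
    rw [pn_C_mul]
    have h3 : pn D ρ (Lagrange.basis Finset.univ w j) ≤ (2 * ρ / σ) ^ (D - 1) := by
      unfold Lagrange.basis
      have h4 : ∀ s : Finset (Fin D), j ∉ s →
          pn D ρ (∏ l ∈ s, Lagrange.basisDivisor (w j) (w l)) ≤ (2 * ρ / σ) ^ s.card := by
        intro s
        induction s using Finset.induction_on with
        | empty => intro _; rw [Finset.prod_empty, Finset.card_empty, pow_zero]; exact pn_one_le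
        | insert a s ha ih =>
          intro hj
          rw [Finset.mem_insert, not_or] at hj
          have ih' := ih hj.2
          rw [Finset.prod_insert ha, Finset.card_insert_of_notMem ha, Lagrange.basisDivisor,
            mul_assoc, pn_C_mul, pow_succ, mul_comm ((2 * ρ / σ) ^ s.card)]
          have h5 := pn_linear_mul_le (D := D) hρ (w a)
            (∏ l ∈ s, Lagrange.basisDivisor (w j) (w l))
          have h6 : ‖(w j - w a)⁻¹‖ ≤ 1 / σ := by
            rw [norm_inv, one_div]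
            exact inv_anti₀ hσ (hsep j a hj.1)
          calc ‖(w j - w a)⁻¹‖ * pn D ρ ((X - C (w a)) *
                  ∏ l ∈ s, Lagrange.basisDivisor (w j) (w l))
              ≤ (1 / σ) * ((ρ + ‖w a‖) * pn D ρ (∏ l ∈ s, Lagrange.basisDivisor (w j) (w l))) := by
                apply mul_le_mul h6 h5 (pn_nonneg hρ _) (by positivity)
            _ ≤ (1 / σ) * ((2 * ρ) * (2 * ρ / σ) ^ s.card) := by
                have := hw a
                have h7 := pn_nonneg (D := D) hρ (∏ l ∈ s, Lagrange.basisDivisor (w j) (w l))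
                gcongr
                linarith
            _ = 2 * ρ / σ * (2 * ρ / σ) ^ s.card := by ring
      have h8 := h4 (Finset.univ.erase j) (Finset.notMem_erase j _)
      rwa [Finset.card_erase_of_mem (Finset.mem_univ j), Finset.card_univ, Fintype.card_fin] at h8
    have h9 : 0 ≤ ε := (norm_nonneg _).trans (hval j)
    exact mul_le_mul (hval j) h3 (pn_nonneg hρ _) h9
  refine (Finset.sum_le_sum h2).trans ?_
  rw [Finset.sum_const, Finset.card_univ, Fintype.card_fin, nsmul_eq_mul]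

/-- A covering argument: local density bounds give a global measure bound. -/
lemma covering (E F : Set ℝ) (hE : E ⊆ Set.Icc 0 7) (hEF : E ⊆ F) (ε : ℝ) (hε : 0 ≤ ε)
    (h : ∀ θ ∈ E, ∃ ρ : ℝ, 0 < ρ ∧ ρ ≤ 1 ∧
      volume (F ∩ Set.Ioo (θ - ρ) (θ + ρ)) ≤ ENNReal.ofReal (ρ * ε)) :
    volume E ≤ ENNReal.ofReal (30 * ε) := by
  classical
  choose! ρ hρ0 hρ1 hρ using h
  obtain ⟨u, huE, hdisj, hcov⟩ :=
    Vitali.exists_disjoint_subfamily_covering_enlargement_closedBall E (fun θ => θ)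
      (fun θ => ρ θ / 6) 1 (fun θ hθ => by have := hρ1 θ hθ; linarith) 5 (by norm_num)
  have hucount : u.Countable := by
    apply Set.PairwiseDisjoint.countable_of_nonempty_interior hdisj
    intro θ hθ
    have h0 := hρ0 θ (huE hθ)
    rw [Real.closedBall_eq_Icc, interior_Icc, Set.nonempty_Ioo]
    linarith
  have hsub : E ⊆ ⋃ θ ∈ u, (F ∩ Set.Ioo (θ - ρ θ) (θ + ρ θ)) := by
    intro θ hθ
    obtain ⟨b, hb, hsubb⟩ := hcov θ hθ
    have hmem : θ ∈ Metric.closedBall b (5 * (ρ b / 6)) :=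
      hsubb (Metric.mem_closedBall_self (by have := hρ0 θ hθ; linarith))
    rw [Real.closedBall_eq_Icc, Set.mem_Icc] at hmem
    have h0 := hρ0 b (huE hb)
    rw [Set.mem_iUnion₂]
    refine ⟨b, hb, hEF hθ, ?_, ?_⟩
    · linarith [hmem.1]
    · linarith [hmem.2]
  have hsum : ∑' θ : u, ENNReal.ofReal (ρ θ / 3) ≤ ENNReal.ofReal 9 := by
    have h1 : ∀ θ : u, ENNReal.ofReal (ρ θ / 3) = volume (Metric.closedBall (θ:ℝ) (ρ θ / 6)) := by
      intro θ
      rw [Real.volume_closedBall]; congr 1; ring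
    calc ∑' θ : u, ENNReal.ofReal (ρ θ / 3)
        = ∑' θ : u, volume (Metric.closedBall (θ:ℝ) (ρ θ / 6)) := by
          congr 1; ext θ; rw [h1]
      _ = volume (⋃ θ ∈ u, Metric.closedBall (θ:ℝ) (ρ θ / 6)) := by
          rw [measure_biUnion hucount hdisj (fun θ _ => Metric.isClosed_closedBall.measurableSet)]
      _ ≤ volume (Set.Icc (-1:ℝ) 8) := by
          apply measure_mono
          intro x hx
          rw [Set.mem_iUnion₂] at hx
          obtain ⟨θ, hθ, hx⟩ := hx
          rw [Real.closedBall_eq_Icc, Set.mem_Icc] at hx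
          have h2 := hE (huE hθ)
          have h3 := hρ1 θ (huE hθ)
          rw [Set.mem_Icc] at h2 ⊢
          constructor <;> linarith [h2.1, h2.2, hx.1, hx.2]
      _ = ENNReal.ofReal 9 := by rw [Real.volume_Icc]; norm_num
  calc volume E ≤ volume (⋃ θ ∈ u, (F ∩ Set.Ioo (θ - ρ θ) (θ + ρ θ))) := measure_mono hsub
    _ ≤ ∑' θ : u, volume (F ∩ Set.Ioo ((θ:ℝ) - ρ θ) (θ + ρ θ)) := measure_biUnion_le _ hucount _
    _ ≤ ∑' θ : u, ENNReal.ofReal (3 * ε) * ENNReal.ofReal (ρ θ / 3) := by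
        apply ENNReal.tsum_le_tsum
        intro θ
        rw [← ENNReal.ofReal_mul (by positivity)]
        refine (hρ θ (huE θ.2)).trans (ENNReal.ofReal_le_ofReal ?_)
        linarith
    _ = ENNReal.ofReal (3 * ε) * ∑' θ : u, ENNReal.ofReal (ρ θ / 3) := ENNReal.tsum_mul_left
    _ ≤ ENNReal.ofReal (3 * ε) * ENNReal.ofReal 9 := by gcongr
    _ = ENNReal.ofReal (27 * ε) := by
        rw [← ENNReal.ofReal_mul (by positivity)]; congr 1; ring
    _ ≤ ENNReal.ofReal (30 * ε) := by
        apply ENNReal.ofReal_le_ofReal; linarith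

end Pool.Agent.Work.MP_4c4335_nt
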