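import Mathlib
import Pool.Agent.Work.MP_4c4335_nt.Flat2
import Pool.Agent.Work.MP_4c4335_nt.Interp
import Pool.Agent.Work.MP_4c4335_nt.Defs

/-!
# The gap set has small measure
-/

namespace Pool.Agent.Work.MP_4c4335_nt

open Finset Polynomial Filter Real MeasureTheory

lemma norm_zpt (θ : ℝ) : ‖zpt θ‖ = 1 := Complex.norm_exp_ofReal_mul_I θ

lemma zpt_sub (s t : ℝ) : ‖zpt s - zpt t‖ = ‖2 * Real.sin ((s - t) / 2)‖ := by
  have h1 : zpt s - zpt t = zpt t * (Complex.exp (Complex.I * ((s - t : ℝ) : ℂ)) - 1) := by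
    unfold zpt
    rw [mul_sub, ← Complex.exp_add, mul_one]
    congr 2
    push_cast; ring
  rw [h1, norm_mul, norm_zpt, one_mul, Complex.norm_exp_I_mul_ofReal_sub_one]

lemma chord_le (s t : ℝ) : ‖zpt s - zpt t‖ ≤ |s - t| := by
  rw [zpt_sub, norm_mul, Real.norm_eq_abs, Real.norm_eq_abs, abs_of_pos (by norm_num : (0:ℝ) < 2)]
  have h1 : |Real.sin ((s - t) / 2)| ≤ |(s - t) / 2| := Real.abs_sin_le_abs
  rw [abs_div, abs_of_pos (by norm_num : (0:ℝ) < 2)] at h1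
  linarith

lemma chord_ge {s t : ℝ} (h : |s - t| ≤ 2) : |s - t| / 2 ≤ ‖zpt s - zpt t‖ := by
  rw [zpt_sub, norm_mul, Real.norm_eq_abs, Real.norm_eq_abs, abs_of_pos (by norm_num : (0:ℝ) < 2)]
  have h1 : 2 / π * (|s - t| / 2) ≤ Real.sin (|s - t| / 2) := by
    apply Real.mul_le_sin (by positivity)
    linarith [Real.pi_gt_three]
  have h2 : |Real.sin ((s - t) / 2)| = Real.sin (|s - t| / 2) := by
    rcases abs_cases (s - t) with ⟨h3, h4⟩ | ⟨h3, h4⟩
    · rw [h3, abs_of_nonneg]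
      apply Real.sin_nonneg_of_nonneg_of_le_pi (by linarith)
      rw [h3] at h
      linarith [Real.pi_gt_three]
    · have h5 : (s - t) / 2 = -((-(s - t)) / 2) := by ring
      rw [h3, h5, Real.sin_neg, abs_neg, abs_of_nonneg]
      apply Real.sin_nonneg_of_nonneg_of_le_pi (by linarith)
      rw [h3] at h
      linarith [Real.pi_gt_three]
  rw [h2]
  have h3 : (1:ℝ) / 2 ≤ 2 / π := by
    rw [div_le_div_iff₀ (by norm_num) Real.pi_pos]
    linarith [Real.pi_le_four]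
  have h4 : 0 ≤ |s - t| / 2 := by positivity
  nlinarith

/-- bound on Taylor coefficients -/
lemma taylor_bound {m : ℕ} {B : ℝ} {P : ℤ[X]} (hdeg : P.natDegree < m)
    (hB : ∀ i, |(P.coeff i : ℝ)| ≤ B) {z : ℂ} (hz : ‖z‖ = 1) (i : ℕ) :
    ‖(taylor z (P.map (Int.castRingHom ℂ))).coeff i‖ ≤ m * B * (m:ℝ) ^ i := by
  have hB0 : 0 ≤ B := (abs_nonneg _).trans (hB 0)
  have hPd : (P.map (Int.castRingHom ℂ)).natDegree < m := lt_of_le_of_lt natDegree_map_le hdeg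
  rw [(P.map (Int.castRingHom ℂ)).as_sum_range' m hPd, map_sum, finsetSum_coeff]
  calc ‖∑ j ∈ range m, (taylor z (monomial j ((P.map (Int.castRingHom ℂ)).coeff j))).coeff i‖
      ≤ ∑ j ∈ range m, ‖(taylor z (monomial j ((P.map (Int.castRingHom ℂ)).coeff j))).coeff i‖ :=
        norm_sum_le _ _
    _ ≤ ∑ j ∈ range m, B * (m:ℝ) ^ i := by
        apply Finset.sum_le_sum
        intro j hj
        rw [Finset.mem_range] at hj
        rw [← C_mul_X_pow_eq_monomial, taylor_mul, taylor_C, taylor_X_pow, coeff_C_mul,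
          coeff_X_add_C_pow, norm_mul, norm_mul, norm_pow, hz, one_pow, one_mul,
          Complex.norm_natCast, coeff_map]
        have h1 : ‖(Int.castRingHom ℂ) (P.coeff j)‖ ≤ B := by
          have := hB j
          simpa using this
        have h2 : ((j.choose i : ℕ) : ℝ) ≤ (m:ℝ) ^ i := by
          have : j.choose i ≤ m ^ i := (Nat.choose_le_pow _ _).trans (Nat.pow_le_pow_left hj.le i)
          exact_mod_cast this
        gcongr
    _ = m * B * (m:ℝ) ^ i := by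
        rw [Finset.sum_const, Finset.card_range, nsmul_eq_mul]; ring

/-- the gap set: no polynomial has a value in the forbidden range -/
def GG (k B : ℕ) : Set ℝ := {θ | ∀ P : ℤ[X], P.natDegree < mk k → (∀ i, |P.coeff i| ≤ (B:ℤ)) →
  Real.exp (-((k:ℝ) + gk k)) < ‖ev P (zpt θ)‖ → Real.exp (-(k:ℝ)) < ‖ev P (zpt θ)‖}

/-- truncation of a polynomial -/
noncomputable def trunc (D : ℕ) (Q : ℂ[X]) : ℂ[X] := ∑ i ∈ range D, monomial i (Q.coeff i)

lemma trunc_coeff {D i : ℕ} (hi : i < D) (Q : ℂ[X]) : (trunc D Q).coeff i = Q.coeff i := by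
  rw [trunc, finsetSum_coeff, Finset.sum_eq_single i]
  · rw [coeff_monomial, if_pos rfl]
  · intro j _ hj; rw [coeff_monomial, if_neg hj]
  · intro h; exact absurd (Finset.mem_range.mpr hi) h

lemma trunc_degree (D : ℕ) (Q : ℂ[X]) : (trunc D Q).degree < D := by
  rw [degree_lt_iff_coeff_zero]
  intro j hj
  rw [trunc, finsetSum_coeff]
  apply Finset.sum_eq_zero
  intro i hi
  rw [Finset.mem_range] at hi
  rw [coeff_monomial, if_neg (by omega)]

lemma trunc_eval (D : ℕ) (Q : ℂ[X]) (w : ℂ) :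
    (trunc D Q).eval w = ∑ i ∈ range D, Q.coeff i * w ^ i := by
  rw [trunc, eval_finsetSum]
  apply Finset.sum_congr rfl
  intro i _
  rw [eval_monomial]

lemma pn_trunc (D : ℕ) (ρ : ℝ) (Q : ℂ[X]) : pn D ρ (trunc D Q) = pn D ρ Q := by
  unfold pn
  apply Finset.sum_congr rfl
  intro i hi
  rw [Finset.mem_range] at hi
  rw [trunc_coeff hi]

lemma norm_trunc_eval_le {D : ℕ} {ρ : ℝ} (Q : ℂ[X]) {w : ℂ} (hw : ‖w‖ ≤ ρ) :
    ‖(trunc D Q).eval w‖ ≤ pn D ρ Q := by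
  rw [trunc_eval, pn]
  refine (norm_sum_le _ _).trans (Finset.sum_le_sum ?_)
  intro i _
  rw [norm_mul, norm_pow]
  gcongr

/-- the tail of the Taylor expansion -/
lemma tail_bound {m D : ℕ} (hDm : D ≤ m) {B r : ℝ} (hB0 : 0 ≤ B) (hr0 : 0 ≤ r)
    (hmr : (m:ℝ) * r ≤ 1) {Q : ℂ[X]} (hQ : Q.natDegree < m)
    (hc : ∀ i, ‖Q.coeff i‖ ≤ m * B * (m:ℝ) ^ i) {w : ℂ} (hw : ‖w‖ ≤ r) :
    ‖Q.eval w - (trunc D Q).eval w‖ ≤ m * (m * B * ((m:ℝ) * r) ^ D) := by
  rw [trunc_eval, eval_eq_sum_range' hQ, ← Finset.sum_range_add_sum_Ico _ hDm,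
    add_sub_cancel_left]
  calc ‖∑ i ∈ Ico D m, Q.coeff i * w ^ i‖ ≤ ∑ i ∈ Ico D m, ‖Q.coeff i * w ^ i‖ := norm_sum_le _ _
    _ ≤ ∑ i ∈ Ico D m, (m * B * ((m:ℝ) * r) ^ D) := by
        apply Finset.sum_le_sum
        intro i hi
        rw [Finset.mem_Ico] at hi
        rw [norm_mul, norm_pow]
        calc ‖Q.coeff i‖ * ‖w‖ ^ i ≤ (m * B * (m:ℝ) ^ i) * r ^ i := by
              have := hc i
              gcongr
          _ = m * B * ((m:ℝ) * r) ^ i := by rw [mul_pow]; ring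
          _ ≤ m * B * ((m:ℝ) * r) ^ D := by
              have : ((m:ℝ) * r) ^ i ≤ ((m:ℝ) * r) ^ D :=
                pow_le_pow_of_le_one (by positivity) hmr hi.1
              gcongr
    _ = ((m - D : ℕ) : ℝ) * (m * B * ((m:ℝ) * r) ^ D) := by
        rw [Finset.sum_const, Nat.card_Ico, nsmul_eq_mul]
    _ ≤ m * (m * B * ((m:ℝ) * r) ^ D) := by
        have : ((m - D : ℕ) : ℝ) ≤ m := by exact_mod_cast Nat.sub_le _ _
        gcongr

lemma local_density {c : ℝ} {B : ℕ} (hB1 : 1 ≤ B)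
    (hB : ∀ᶠ k : ℕ in atTop, ∀ z : ℂ, DioZ c z →
      ∃ P ∈ JJ (mk k) B (Real.exp (-((k:ℝ) + gk k))) z, ∃ i < hk k,
        Real.exp (-(k:ℝ)) * (Real.exp ((k:ℝ) / hk k)) ^ i
          < ‖(taylor z (P.map (Int.castRingHom ℂ))).coeff i‖) :
    ∀ᶠ k : ℕ in atTop, ∀ θ : ℝ, DioZ c (zpt θ) → θ ∈ GG k B →
      ∃ ρ : ℝ, 0 < ρ ∧ ρ ≤ 1 ∧
        volume (GG k B ∩ Set.Ioo (θ - ρ) (θ + ρ)) ≤ ENNReal.ofReal (ρ * (1 / (k:ℝ) ^ 2)) := by
  filter_upwards [hB, eventually_mk_le, eventually_le_LL 200, eventually_ge_atTop 100,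
    eventually_le_LL (Real.log B), eventually_LL_pow_le 16 15] with k h1 h2 h3 h4 h5 h6 θ hz hθ
  set z := zpt θ with hzd
  have hz1 : ‖z‖ = 1 := norm_zpt θ
  set δ1 := Real.exp (-((k:ℝ) + gk k)) with hδ1
  set δ2 := Real.exp (-(k:ℝ)) with hδ2
  set m := mk k with hm
  set h := hk k with hhd
  set E := Real.exp ((k:ℝ) / h) with hE
  set L : ℝ := (LL k : ℝ) with hL
  have hL0 : 0 < L := by linarith
  have hk0 : (100:ℝ) ≤ k := by exact_mod_cast h4
  have hkpos : (0:ℝ) < k := by linarith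
  have hhR : (h:ℝ) = L ^ 13 := by rw [hhd, hk]; push_cast; ring
  have hgR : (gk k : ℝ) = L ^ 15 := by rw [gk]; push_cast; ring
  have hmR : (m:ℝ) = 4 * k * L ^ 11 := by rw [hm, mk]; push_cast; ring
  have hh0 : (0:ℝ) < h := by rw [hhR]; positivity
  have hhpos : 0 < h := by exact_mod_cast hh0
  have hB0 : (1:ℝ) ≤ B := by exact_mod_cast hB1
  have hm0 : (0:ℝ) < m := by rw [hmR]; positivity
  have hlogm : Real.log m ≤ 2 * L := by
    have e1 : (m:ℝ) ≤ (k:ℝ) ^ 2 := by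
      have : m ≤ k ^ 2 := by omega
      exact_mod_cast this
    have e2 := Real.log_le_log hm0 e1
    rw [Real.log_pow] at e2
    have := log_le_LL k
    push_cast at e2
    linarith
  have hL13 : L ^ 13 ≤ L ^ 15 := pow_le_pow_right₀ (by linarith) (by norm_num)
  have hL14 : L ^ 14 ≤ L ^ 15 := pow_le_pow_right₀ (by linarith) (by norm_num)
  have hL1 : L ≤ L ^ 15 := by
    calc L = L ^ 1 := (pow_one _).symm
      _ ≤ L ^ 15 := pow_le_pow_right₀ (by linarith) (by norm_num)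
  -- sizes of the gaps
  have hδ12 : δ1 ≤ δ2 / 4 := by
    have e1 : δ1 = δ2 * Real.exp (-(L ^ 15)) := by
      rw [hδ1, hδ2, ← Real.exp_add, hgR]; congr 1; ring
    have e2 : Real.exp (-(L ^ 15)) ≤ 1 / 4 := by
      have e3 : (4:ℝ) ≤ Real.exp (L ^ 15) := by
        have := Real.add_one_le_exp (L ^ 15)
        linarith
      rw [Real.exp_neg, one_div]
      exact inv_anti₀ (by norm_num) e3
    rw [e1]
    have : 0 < δ2 := Real.exp_pos _
    nlinarith
  have hδ1pos : 0 < δ1 := Real.exp_pos _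
  have hδ2pos : 0 < δ2 := Real.exp_pos _
  obtain ⟨P, hPJ, i0, hi0, hPi⟩ := h1 z hz
  obtain ⟨hPdeg, hPc, hPz⟩ := hPJ
  set Q : ℂ[X] := taylor z (P.map (Int.castRingHom ℂ)) with hQ
  have hQdeg : Q.natDegree < m := by
    rw [hQ, natDegree_taylor]; exact lt_of_le_of_lt natDegree_map_le hPdeg
  have hQc : ∀ i, ‖Q.coeff i‖ ≤ m * (B:ℝ) * (m:ℝ) ^ i := fun i =>
    taylor_bound hPdeg (fun i => by exact_mod_cast hPc i) hz1 i
  have hQev : ∀ w, Q.eval w = ev P (w + z) := by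
    intro w; rw [hQ, taylor_eval, ev_eq_eval]
  set D := 2 * h with hD
  have hDpos : 0 < D := by omega
  set ρ0 := Real.exp (-((k:ℝ) / h)) with hρ0
  have hρ0pos : 0 < ρ0 := Real.exp_pos _
  have hEρ : E * ρ0 = 1 := by rw [hE, hρ0, ← Real.exp_add]; simp
  have hmρ : (m:ℝ) * ρ0 ≤ 1 := by
    have e1 : Real.log m ≤ k / h := by
      rw [hhR, le_div_iff₀ (by positivity)]
      calc Real.log m * L ^ 13 ≤ 2 * L * L ^ 13 := by gcongr
        _ = 2 * L ^ 14 := by ring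
        _ ≤ (k:ℝ) := by linarith
    have e2 : (m:ℝ) ≤ E := by
      rw [hE, ← Real.exp_log hm0, Real.exp_le_exp]; exact e1
    calc (m:ℝ) * ρ0 ≤ E * ρ0 := by gcongr
      _ = 1 := hEρ
  have hρ01 : ρ0 ≤ 1 := by
    rw [hρ0, Real.exp_le_one_iff]
    have : 0 ≤ (k:ℝ) / h := by positivity
    linarith
  -- tail estimate
  have htail : (m:ℝ) * (m * B * ((m:ℝ) * ρ0) ^ D) ≤ δ1 := by
    have e1 : ((m:ℝ) * ρ0) ^ D = (m:ℝ) ^ D * Real.exp (-(2 * k)) := by
      rw [mul_pow, hρ0, ← Real.exp_nat_mul]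
      congr 2
      rw [hD]; push_cast
      field_simp
    rw [e1]
    have hpos : (0:ℝ) < m * (m * B * ((m:ℝ) ^ D * Real.exp (-(2 * k)))) := by positivity
    rw [← Real.log_le_log_iff hpos hδ1pos, hδ1, Real.log_exp,
      Real.log_mul (by positivity) (by positivity), Real.log_mul (by positivity) (by positivity),
      Real.log_mul (by positivity) (by positivity), Real.log_mul (by positivity) (by positivity),
      Real.log_pow, Real.log_exp, hgR]
    have e2 : ((D:ℕ):ℝ) * Real.log m ≤ 4 * L ^ 14 := by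
      rw [hD]; push_cast
      calc 2 * (h:ℝ) * Real.log m ≤ 2 * (h:ℝ) * (2 * L) := by gcongr
        _ = 4 * L ^ 14 := by rw [hhR]; ring
    linarith
  -- the exit radius
  have hS0 : pn D 0 Q ≤ δ1 := by
    have e1 : pn D 0 Q = ‖Q.coeff 0‖ := by
      unfold pn
      rw [Finset.sum_eq_single 0]
      · simp
      · intro b _ hb; rw [zero_pow hb, mul_zero]
      · intro h; exact absurd (Finset.mem_range.mpr hDpos) h
    rw [e1, hQ, taylor_coeff_zero, ← ev_eq_eval]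
    exact hPz
  have hS1 : δ2 ≤ pn D ρ0 Q := by
    have e1 : ‖Q.coeff i0‖ * ρ0 ^ i0 ≤ pn D ρ0 Q := by
      unfold pn
      apply Finset.single_le_sum (f := fun i => ‖Q.coeff i‖ * ρ0 ^ i)
        (fun i _ => by positivity) (Finset.mem_range.mpr (by omega))
    refine le_trans ?_ e1
    calc δ2 = δ2 * E ^ i0 * ρ0 ^ i0 := by rw [mul_assoc, ← mul_pow, hEρ, one_pow, mul_one]
      _ ≤ ‖Q.coeff i0‖ * ρ0 ^ i0 := by gcongr
  have hcont : ContinuousOn (fun x : ℝ => pn D x Q) (Set.Icc 0 ρ0) := by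
    apply Continuous.continuousOn
    unfold pn
    fun_prop
  obtain ⟨ρ, hρmem, hρval⟩ := intermediate_value_Icc hρ0pos.le hcont
    (show δ2 / 2 ∈ Set.Icc (pn D 0 Q) (pn D ρ0 Q) from ⟨by linarith, by linarith⟩)
  simp only at hρval
  have hρpos : 0 < ρ := by
    rcases hρmem.1.lt_or_eq with h | h
    · exact h
    · rw [← h] at hρval; linarith
  refine ⟨ρ, hρpos, hρmem.2.trans hρ01, ?_⟩
  -- points of the gap set near θ
  have hnear : ∀ θ' ∈ GG k B ∩ Set.Ioo (θ - ρ) (θ + ρ),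
      ‖zpt θ' - z‖ ≤ ρ ∧ ‖(trunc D Q).eval (zpt θ' - z)‖ ≤ 2 * δ1 := by
    rintro θ' ⟨hθ', hθ1, hθ2⟩
    have hw : ‖zpt θ' - z‖ ≤ ρ := by
      refine (chord_le θ' θ).trans ?_
      rw [abs_le]; constructor <;> linarith
    refine ⟨hw, ?_⟩
    have ht := tail_bound (D := D) (by
        have : (D:ℝ) ≤ m := by
          rw [hD, hmR]; push_cast
          rw [hhR]
          have e1 : L ^ 13 ≤ k := by linarith
          have e2 : (1:ℝ) ≤ L ^ 11 := one_le_pow₀ (by linarith)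
          nlinarith
        exact_mod_cast this) (by positivity : (0:ℝ) ≤ B) hρ0pos.le hmρ hQdeg hQc
        (hw.trans hρmem.2)
    have hv : Q.eval (zpt θ' - z) = ev P (zpt θ') := by
      rw [hQev]; congr 1; ring
    rw [hv] at ht
    have h7 := norm_trunc_eval_le (D := D) Q hw
    rw [hρval] at h7
    have h8 : ‖ev P (zpt θ')‖ ≤ δ2 := by
      calc ‖ev P (zpt θ')‖ = ‖(ev P (zpt θ') - (trunc D Q).eval (zpt θ' - z))
            + (trunc D Q).eval (zpt θ' - z)‖ := by rw [sub_add_cancel]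
        _ ≤ ‖ev P (zpt θ') - (trunc D Q).eval (zpt θ' - z)‖
            + ‖(trunc D Q).eval (zpt θ' - z)‖ := norm_add_le _ _
        _ ≤ δ1 + δ2 / 2 := add_le_add (ht.trans htail) h7
        _ ≤ δ2 := by linarith
    have h9 : ‖ev P (zpt θ')‖ ≤ δ1 := by
      by_contra hcon
      push Not at hcon
      exact absurd (hθ' P hPdeg hPc hcon) (not_lt.mpr h8)
    calc ‖(trunc D Q).eval (zpt θ' - z)‖
        = ‖ev P (zpt θ') - (ev P (zpt θ') - (trunc D Q).eval (zpt θ' - z))‖ := by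
          rw [sub_sub_cancel]
      _ ≤ ‖ev P (zpt θ')‖ + ‖ev P (zpt θ') - (trunc D Q).eval (zpt θ' - z)‖ := norm_sub_le _ _
      _ ≤ δ1 + δ1 := add_le_add h9 (ht.trans htail)
      _ = 2 * δ1 := by ring
  by_contra hcon
  push Not at hcon
  set σ := ρ / ((k:ℝ) ^ 2 * (2 * D)) with hσ
  have hDR : (0:ℝ) < D := by exact_mod_cast hDpos
  have hσpos : 0 < σ := by positivity
  have hDσ : (D:ℝ) * (2 * σ) = ρ * (1 / (k:ℝ) ^ 2) := by
    rw [hσ]; field_simp
  obtain ⟨t, ht1, ht2⟩ := sep_points (GG k B ∩ Set.Ioo (θ - ρ) (θ + ρ)) σ D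
    (by rw [hDσ]; exact hcon) hσpos D le_rfl
  have hρ1 : ρ ≤ 1 := hρmem.2.trans hρ01
  have hint := interp (D := D) (trunc D Q) (trunc_degree D Q) (fun j => zpt (t j) - z)
    (ρ := ρ) (σ := σ / 2) (ε := 2 * δ1) hρpos.le (fun j => (hnear _ (ht1 j)).1) (by positivity)
    (by
      intro i j hij
      have e1 : zpt (t i) - z - (zpt (t j) - z) = zpt (t i) - zpt (t j) := by ring
      rw [e1]
      have e2 : |t i - t j| ≤ 2 := by
        have a1 := (ht1 i).2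
        have a2 := (ht1 j).2
        rw [Set.mem_Ioo] at a1 a2
        rw [abs_le]; constructor <;> linarith [a1.1, a1.2, a2.1, a2.2]
      have := chord_ge e2
      have := ht2 i j hij
      linarith) (fun j => (hnear _ (ht1 j)).2)
  rw [pn_trunc, hρval] at hint
  have hratio : 2 * ρ / (σ / 2) = 8 * D * (k:ℝ) ^ 2 := by
    rw [hσ]; field_simp; ring
  rw [hratio] at hint
  have hbig : δ2 ≤ δ1 * (8 * D * (k:ℝ) ^ 2) ^ D := by
    have e1 : (8 * D * (k:ℝ) ^ 2) ^ D = (8 * D * (k:ℝ) ^ 2) ^ (D - 1) * (8 * D * (k:ℝ) ^ 2) := by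
      rw [← pow_succ]; congr 1; omega
    rw [e1]
    have e2 : 4 * (D:ℝ) ≤ 8 * D * (k:ℝ) ^ 2 := by
      have : (1:ℝ) ≤ (k:ℝ) ^ 2 := one_le_pow₀ (by linarith)
      nlinarith
    have e3 : 0 ≤ (8 * D * (k:ℝ) ^ 2) ^ (D - 1) := by positivity
    calc δ2 = 2 * (δ2 / 2) := by ring
      _ ≤ 2 * (D * (2 * δ1 * (8 * D * (k:ℝ) ^ 2) ^ (D - 1))) := by gcongr
      _ = δ1 * ((8 * D * (k:ℝ) ^ 2) ^ (D - 1) * (4 * D)) := by ring
      _ ≤ _ := by gcongr
  have hlog := Real.log_le_log hδ2pos hbig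
  rw [Real.log_mul (by positivity) (by positivity), Real.log_pow, hδ1, hδ2, Real.log_exp,
    Real.log_exp, hgR] at hlog
  have hlog2 : Real.log (8 * D * (k:ℝ) ^ 2) ≤ 3 * L := by
    have e1 : 8 * (D:ℝ) * (k:ℝ) ^ 2 ≤ (k:ℝ) ^ 3 := by
      rw [hD]; push_cast
      rw [hhR]
      have : 16 * L ^ 13 ≤ k := by linarith
      calc 8 * (2 * L ^ 13) * (k:ℝ) ^ 2 = (16 * L ^ 13) * (k:ℝ) ^ 2 := by ring
        _ ≤ (k:ℝ) * (k:ℝ) ^ 2 := by gcongr
        _ = (k:ℝ) ^ 3 := by ring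
    have e2 := Real.log_le_log (by positivity) e1
    rw [Real.log_pow] at e2
    have := log_le_LL k
    push_cast at e2
    linarith
  have hfin : ((D:ℕ):ℝ) * Real.log (8 * D * (k:ℝ) ^ 2) ≤ 6 * L ^ 14 := by
    calc ((D:ℕ):ℝ) * Real.log (8 * D * (k:ℝ) ^ 2) ≤ D * (3 * L) := by gcongr
      _ = 6 * L ^ 14 := by rw [hD]; push_cast; rw [hhR]; ring
  have : L ^ 15 = L * L ^ 14 := by ring
  have h14 : 0 < L ^ 14 := by positivity
  nlinarith

end Pool.Agent.Work.MP_4c4335_nt
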