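import Mathlib
import Pool.Agent.Work.MP_4c4335_nt.Gap

/-!
# Almost every angle
-/

namespace Pool.Agent.Work.MP_4c4335_nt

open Finset Polynomial Filter Real MeasureTheory

lemma DioZ.mono {c c' : ℝ} (h : c' ≤ c) {z : ℂ} (hz : DioZ c z) : DioZ c' z := by
  refine ⟨hz.1, fun q hq => le_trans ?_ (hz.2 q hq)⟩
  gcongr

/-- Almost every Diophantine angle is in only finitely many gap sets. -/
lemma ae_not_gap {c : ℝ} (hc : 0 < c) (hc1 : c ≤ 1) : ∃ B : ℕ, 1 ≤ B ∧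
    ∀ᵐ θ : ℝ, θ ∈ Set.Icc (0:ℝ) 7 → DioZ c (zpt θ) → ∀ᶠ k : ℕ in atTop, θ ∉ GG k B := by
  obtain ⟨B, hB1, hB⟩ := exists_nonflat hc hc1
  refine ⟨B, hB1, ?_⟩
  have hloc := local_density hB1 hB
  rw [eventually_atTop] at hloc
  obtain ⟨k0, hk0⟩ := hloc
  set s : ℕ → Set ℝ := fun k =>
    if k0 ≤ k then {θ | θ ∈ Set.Icc (0:ℝ) 7 ∧ DioZ c (zpt θ) ∧ θ ∈ GG k B} else ∅ with hs
  have hmeas : ∀ k, volume (s k) ≤ ENNReal.ofReal (30 * (1 / (k:ℝ) ^ 2)) := by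
    intro k
    simp only [hs]
    split_ifs with h
    · apply covering _ (GG k B) (fun θ hθ => hθ.1) (fun θ hθ => hθ.2.2) _ (by positivity)
      intro θ hθ
      exact hk0 k h θ hθ.2.1 hθ.2.2
    · simp
  have hsum : ∑' k, volume (s k) ≠ ⊤ := by
    have h1 : Summable (fun k : ℕ => 30 * (1 / (k:ℝ) ^ 2)) :=
      (Real.summable_one_div_nat_pow.mpr (by norm_num)).mul_left 30
    exact ne_top_of_le_ne_top h1.tsum_ofReal_ne_top (ENNReal.tsum_le_tsum hmeas)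
  filter_upwards [ae_eventually_notMem hsum] with θ hθ h1 h2
  filter_upwards [hθ, eventually_ge_atTop k0] with k hk hkk h3
  apply hk
  simp only [hs]
  rw [if_pos hkk]
  exact ⟨h1, h2, h3⟩

lemma zpt_pow (θ : ℝ) (q : ℕ) : zpt θ ^ q = zpt (q * θ) := by
  unfold zpt
  rw [← Complex.exp_nat_mul]
  congr 1
  push_cast; ring

lemma zpt_two_pi_int (p : ℤ) : zpt (2 * π * p) = 1 := by
  unfold zpt
  rw [Complex.exp_eq_one_iff]
  exact ⟨p, by push_cast; ring⟩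

/-- distance of a power to one -/
lemma norm_zpt_pow_sub_one_ge (θ : ℝ) (q : ℕ) :
    4 * |(q:ℝ) * (θ / (2 * π)) - round ((q:ℝ) * (θ / (2 * π)))| ≤ ‖zpt θ ^ q - 1‖ := by
  set y := (q:ℝ) * (θ / (2 * π)) with hy
  have h1 : ‖zpt θ ^ q - 1‖ = ‖2 * Real.sin (π * (y - round y))‖ := by
    rw [zpt_pow, ← zpt_two_pi_int (round y), zpt_sub]
    congr 3
    rw [hy]
    have : (2 * π) ≠ 0 := by positivity
    field_simp
  rw [h1, norm_mul, Real.norm_eq_abs, Real.norm_eq_abs, abs_of_pos (by norm_num : (0:ℝ) < 2)]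
  have h2 : |y - round y| ≤ 1 / 2 := abs_sub_round y
  have h3 : 2 / π * |π * (y - round y)| ≤ |Real.sin (π * (y - round y))| := by
    apply Real.mul_abs_le_abs_sin
    rw [abs_mul, abs_of_pos Real.pi_pos]
    nlinarith [Real.pi_pos]
  rw [abs_mul, abs_of_pos Real.pi_pos] at h3
  have h4 : 2 / π * (π * |y - round y|) = 2 * |y - round y| := by
    field_simp
  rw [h4] at h3
  linarith

/-- Almost every angle is Diophantine. -/
lemma ae_dio : ∀ᵐ θ : ℝ, ∃ c : ℝ, 0 < c ∧ c ≤ 1 ∧ DioZ c (zpt θ) := by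
  have h1 : ∀ᵐ x : ℝ, (∀ p > (2 : ℝ), ¬LiouvilleWith p x) ∧ x ∉ Set.range ((↑) : ℚ → ℝ) :=
    ae_not_liouvilleWith.and ((Set.countable_range _).ae_notMem _)
  have h2 : ∀ᵐ θ : ℝ, (∀ p > (2 : ℝ), ¬LiouvilleWith p (θ * (2 * π)⁻¹)) ∧
      θ * (2 * π)⁻¹ ∉ Set.range ((↑) : ℚ → ℝ) := by
    rw [ae_iff] at h1 ⊢
    have h3 := Real.volume_preimage_mul_right (a := (2 * π)⁻¹) (by positivity)
      {a | ¬((∀ p > (2 : ℝ), ¬LiouvilleWith p a) ∧ a ∉ Set.range ((↑) : ℚ → ℝ))}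
    rw [h1, mul_zero] at h3
    exact h3
  filter_upwards [h2] with θ hθ
  obtain ⟨hL, hirr⟩ := hθ
  set x := θ * (2 * π)⁻¹ with hx
  have hx' : θ / (2 * π) = x := by rw [hx, div_eq_mul_inv]
  have hL3 := hL 3 (by norm_num)
  rw [LiouvilleWith] at hL3
  push Not at hL3
  have hL4 := hL3 1
  rw [eventually_atTop] at hL4
  obtain ⟨n0, hn0⟩ := hL4
  have hne : ∀ q : ℕ, 1 ≤ q → ∀ p : ℤ, x ≠ p / q := by
    intro q hq p hxp
    apply hirr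
    exact ⟨(p:ℚ) / q, by rw [hxp]; push_cast; rfl⟩
  have hpos : ∀ q : ℕ, 1 ≤ q → 0 < ‖zpt θ ^ q - 1‖ := by
    intro q hq
    have h4 := norm_zpt_pow_sub_one_ge θ q
    rw [hx'] at h4
    refine lt_of_lt_of_le ?_ h4
    have : (q:ℝ) * x - round ((q:ℝ) * x) ≠ 0 := by
      intro h0
      apply hne q hq (round ((q:ℝ) * x))
      have hq0 : (q:ℝ) ≠ 0 := by positivity
      rw [eq_div_iff hq0]
      linarith
    positivity
  have hbig : ∀ q : ℕ, 1 ≤ q → n0 ≤ q → 4 / (q:ℝ) ^ 2 ≤ ‖zpt θ ^ q - 1‖ := by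
    intro q hq hqn
    have h4 := norm_zpt_pow_sub_one_ge θ q
    rw [hx'] at h4
    refine le_trans ?_ h4
    have h5 := hn0 q hqn (round ((q:ℝ) * x)) (hne q hq _)
    have hq0 : (0:ℝ) < q := by exact_mod_cast hq
    have h6 : x - (round ((q:ℝ) * x) : ℝ) / q = ((q:ℝ) * x - round ((q:ℝ) * x)) / q := by
      field_simp
    rw [h6, abs_div, abs_of_pos hq0] at h5
    have h7 : (q:ℝ) ^ (3:ℝ) = (q:ℝ) ^ 3 := by
      rw [← Real.rpow_natCast]; norm_num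
    rw [h7, le_div_iff₀ hq0] at h5
    have h8 : 1 / (q:ℝ) ^ 3 * q = 1 / (q:ℝ) ^ 2 := by field_simp
    rw [h8] at h5
    calc 4 / (q:ℝ) ^ 2 = 4 * (1 / (q:ℝ) ^ 2) := by ring
      _ ≤ _ := by gcongr
  -- minimum over small exponents
  obtain ⟨q0, hq0mem, hq0min⟩ := Finset.exists_min_image (Finset.range (n0 + 1))
    (fun q : ℕ => if q = 0 then (1:ℝ) else (q:ℝ) ^ 2 * ‖zpt θ ^ q - 1‖)
    ⟨0, Finset.mem_range.mpr (by omega)⟩
  set f : ℕ → ℝ := fun q : ℕ => if q = 0 then (1:ℝ) else (q:ℝ) ^ 2 * ‖zpt θ ^ q - 1‖ with hf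
  have hfpos : ∀ q, 0 < f q := by
    intro q
    simp only [hf]
    split_ifs with h
    · norm_num
    · have := hpos q (by omega)
      have : (0:ℝ) < q := by positivity
      positivity
  refine ⟨min 1 (f q0), lt_min one_pos (hfpos q0), min_le_left _ _, norm_zpt θ, ?_⟩
  intro q hq
  have hqR : (0:ℝ) < q := by exact_mod_cast hq
  by_cases hqn : n0 ≤ q
  · refine le_trans ?_ (hbig q hq hqn)
    have : min 1 (f q0) ≤ 4 := (min_le_left _ _).trans (by norm_num)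
    gcongr
  · have h5 := hq0min q (Finset.mem_range.mpr (by omega))
    have h6 : f q = (q:ℝ) ^ 2 * ‖zpt θ ^ q - 1‖ := by
      simp only [hf]; rw [if_neg (by omega)]
    rw [div_le_iff₀ (by positivity)]
    calc min 1 (f q0) ≤ f q0 := min_le_right _ _
      _ ≤ f q := h5
      _ = ‖zpt θ ^ q - 1‖ * (q:ℝ) ^ 2 := by rw [h6]; ring

/-- the main almost everywhere statement -/
lemma ae_main : ∀ᵐ θ : ℝ, θ ∈ Set.Icc (0:ℝ) 7 → ∃ c : ℝ, 0 < c ∧ DioZ c (zpt θ) ∧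
    ∃ B : ℕ, 1 ≤ B ∧ ∀ᶠ k : ℕ in atTop, ∃ P : ℤ[X], P.natDegree < mk k ∧
      (∀ i, |P.coeff i| ≤ (B:ℤ)) ∧ Real.exp (-((k:ℝ) + gk k)) < ‖ev P (zpt θ)‖ ∧
      ‖ev P (zpt θ)‖ ≤ Real.exp (-(k:ℝ)) := by
  have h1 : ∀ j : ℕ, ∃ B : ℕ, 1 ≤ B ∧ ∀ᵐ θ : ℝ, θ ∈ Set.Icc (0:ℝ) 7 →
      DioZ (1 / ((j:ℝ) + 1)) (zpt θ) → ∀ᶠ k : ℕ in atTop, θ ∉ GG k B := by
    intro j
    apply ae_not_gap (by positivity)
    rw [div_le_one (by positivity)]
    linarith [Nat.cast_nonneg (α := ℝ) j]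
  choose B hB1 hB using h1
  have h2 := ae_all_iff.mpr hB
  filter_upwards [h2, ae_dio] with θ h3 h4 hmem
  obtain ⟨c, hc, hc1, hdio⟩ := h4
  obtain ⟨j, hj⟩ := exists_nat_one_div_lt hc
  have hdio' : DioZ (1 / ((j:ℝ) + 1)) (zpt θ) := hdio.mono hj.le
  refine ⟨c, hc, hdio, B j, hB1 j, ?_⟩
  filter_upwards [h3 j hmem hdio'] with k hk
  simp only [GG, Set.mem_ofPred_eq] at hk
  push Not at hk
  exact hk

end Pool.Agent.Work.MP_4c4335_nt
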