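import Mathlib
import Pool.Agent.Work.MP_4c4335_nt.Ae

/-!
# Hitting all targets
-/

namespace Pool.Agent.Work.MP_4c4335_nt

open Finset Polynomial Filter Real

/-- truncated `ℓ¹` norm -/
noncomputable def l1D (D : ℕ) (P : ℤ[X]) : ℝ := ∑ i ∈ range D, |(P.coeff i : ℝ)|

/-- `ℓ¹` norm -/
noncomputable def l1 (P : ℤ[X]) : ℝ := l1D (P.natDegree + 1) P

lemma l1D_nonneg (D : ℕ) (P : ℤ[X]) : 0 ≤ l1D D P := Finset.sum_nonneg (fun _ _ => abs_nonneg _)

lemma l1D_le_l1 (D : ℕ) (P : ℤ[X]) : l1D D P ≤ l1 P := by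
  unfold l1 l1D
  rcases le_total D (P.natDegree + 1) with h | h
  · exact Finset.sum_le_sum_of_subset_of_nonneg (Finset.range_mono h) (fun _ _ _ => abs_nonneg _)
  · rw [← Finset.sum_range_add_sum_Ico _ h]
    have : ∑ i ∈ Ico (P.natDegree + 1) D, |(P.coeff i : ℝ)| = 0 := by
      apply Finset.sum_eq_zero
      intro i hi
      rw [Finset.mem_Ico] at hi
      rw [coeff_eq_zero_of_natDegree_lt (by omega)]
      simp
    rw [this, add_zero]

lemma l1D_add_le (D : ℕ) (P Q : ℤ[X]) : l1D D (P + Q) ≤ l1D D P + l1D D Q := by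
  unfold l1D
  rw [← Finset.sum_add_distrib]
  apply Finset.sum_le_sum
  intro i _
  rw [coeff_add]
  push_cast
  exact abs_add_le _ _

lemma l1D_sum_le {ι : Type*} (D : ℕ) (s : Finset ι) (P : ι → ℤ[X]) :
    l1D D (∑ i ∈ s, P i) ≤ ∑ i ∈ s, l1D D (P i) := by
  classical
  induction s using Finset.induction_on with
  | empty => simp [l1D]
  | insert a s ha ih =>
    rw [Finset.sum_insert ha, Finset.sum_insert ha]
    exact (l1D_add_le _ _ _).trans (by linarith)

lemma l1D_monomial_mul_le (D a : ℕ) (r : ℤ) (Q : ℤ[X]) :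
    l1D D (C r * X ^ a * Q) ≤ |(r:ℝ)| * l1 Q := by
  have h1 : l1D D (C r * X ^ a * Q) = |(r:ℝ)| * l1D D (X ^ a * Q) := by
    unfold l1D
    rw [Finset.mul_sum]
    apply Finset.sum_congr rfl
    intro i _
    rw [mul_assoc, coeff_C_mul]
    push_cast
    rw [abs_mul]
  have h2 : l1D D (X ^ a * Q) ≤ l1 Q := by
    rcases le_total D a with h | h
    · have : l1D D (X ^ a * Q) = 0 := by
        unfold l1D
        apply Finset.sum_eq_zero
        intro i hi
        rw [Finset.mem_range] at hi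
        rw [coeff_X_pow_mul', if_neg (by omega)]
        simp
      rw [this]; exact l1D_nonneg _ _
    · refine le_trans ?_ (l1D_le_l1 (D - a) Q)
      unfold l1D
      obtain ⟨b, rfl⟩ : ∃ b, D = a + b := ⟨D - a, by omega⟩
      rw [Finset.sum_range_add, Nat.add_sub_cancel_left]
      have : ∑ i ∈ range a, |((X ^ a * Q).coeff i : ℝ)| = 0 := by
        apply Finset.sum_eq_zero
        intro i hi
        rw [Finset.mem_range] at hi
        rw [coeff_X_pow_mul', if_neg (by omega)]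
        simp
      rw [this, zero_add]
      apply le_of_eq
      apply Finset.sum_congr rfl
      intro i _
      rw [coeff_X_pow_mul', if_pos (by omega), Nat.add_sub_cancel_left]
  rw [h1]
  gcongr

lemma l1_mul_le (P Q : ℤ[X]) : l1 (P * Q) ≤ l1 P * l1 Q := by
  have h1 : P * Q = ∑ a ∈ range (P.natDegree + 1), C (P.coeff a) * X ^ a * Q := by
    rw [← Finset.sum_mul, ← P.as_sum_range_C_mul_X_pow]
  have h2 : l1 (P * Q) = l1D ((P * Q).natDegree + 1) (P * Q) := rfl
  rw [h2]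
  conv_lhs => rw [h1]
  refine (l1D_sum_le _ _ _).trans ?_
  refine (Finset.sum_le_sum (fun a _ => l1D_monomial_mul_le _ a (P.coeff a) Q)).trans ?_
  rw [← Finset.sum_mul]
  rfl

lemma l1_le_of_coeff_le {P : ℤ[X]} {m B : ℕ} (hP : P.natDegree < m)
    (hc : ∀ i, |P.coeff i| ≤ (B:ℤ)) : l1 P ≤ m * B := by
  unfold l1 l1D
  calc ∑ i ∈ range (P.natDegree + 1), |(P.coeff i : ℝ)|
      ≤ ∑ i ∈ range (P.natDegree + 1), (B:ℝ) := by
        apply Finset.sum_le_sum
        intro i _
        exact_mod_cast hc i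
    _ = ((P.natDegree + 1 : ℕ) : ℝ) * B := by
        rw [Finset.sum_const, Finset.card_range, nsmul_eq_mul]
    _ ≤ m * B := by
        have : ((P.natDegree + 1 : ℕ) : ℝ) ≤ m := by exact_mod_cast hP
        gcongr

/-- all targets of size between `exp (-s)` and `1` are hit by polynomials of size at most `n` -/
def Hit (z : ℂ) (s : ℕ) (n : ℝ) : Prop :=
  ∀ w : ℂ, Real.exp (-(s:ℝ)) ≤ ‖w‖ → ‖w‖ ≤ 1 → ∃ P : ℤ[X], (P.natDegree : ℝ) + 1 ≤ n ∧
    l1 P ≤ n ∧ ‖ev P z - w‖ ≤ ‖w‖ / 50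

lemma Hit.mono {z : ℂ} {s : ℕ} {n n' : ℝ} (h : Hit z s n) (hn : n ≤ n') : Hit z s n' := by
  intro w h1 h2
  obtain ⟨P, hP1, hP2, hP3⟩ := h w h1 h2
  exact ⟨P, hP1.trans hn, hP2.trans hn, hP3⟩

/-- powers close to one -/
lemma exists_pow_near_one (θ : ℝ) {η : ℝ} (hη : 0 < η) : ∃ q : ℕ, 0 < q ∧ ‖zpt θ ^ q - 1‖ ≤ η := by
  obtain ⟨n, hn⟩ := exists_nat_gt (2 * π / η)
  have hn0 : 0 < n := by
    have : (0:ℝ) < n := lt_of_le_of_lt (by positivity) hn
    exact_mod_cast this
  obtain ⟨q, hq, _, hq2⟩ := Real.exists_nat_abs_mul_sub_round_le (θ / (2 * π)) hn0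
  refine ⟨q, hq, ?_⟩
  set y := (q:ℝ) * (θ / (2 * π)) with hy
  have h1 : ‖zpt θ ^ q - 1‖ = ‖2 * Real.sin (π * (y - round y))‖ := by
    rw [zpt_pow, ← zpt_two_pi_int (round y), zpt_sub]
    congr 3
    rw [hy]
    have : (2 * π) ≠ 0 := by positivity
    field_simp
  rw [h1, norm_mul, Real.norm_eq_abs, Real.norm_eq_abs, abs_of_pos (by norm_num : (0:ℝ) < 2)]
  have h2 : |Real.sin (π * (y - round y))| ≤ |π * (y - round y)| := Real.abs_sin_le_abs
  rw [abs_mul, abs_of_pos Real.pi_pos] at h2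
  have hn1 : (0:ℝ) < (n:ℝ) + 1 := by positivity
  calc 2 * |Real.sin (π * (y - round y))| ≤ 2 * (π * |y - round y|) := by gcongr
    _ ≤ 2 * (π * (1 / ((n:ℝ) + 1))) := by gcongr
    _ = 2 * π / ((n:ℝ) + 1) := by ring
    _ ≤ η := by
        rw [div_le_iff₀ hn1]
        rw [div_lt_iff₀ hη] at hn
        nlinarith

/-- the base case -/
lemma exists_hit {c : ℝ} (hc : 0 < c) {θ : ℝ} (hz : DioZ c (zpt θ)) (s : ℕ) :
    ∃ n : ℝ, 1 ≤ n ∧ Hit (zpt θ) s n := by
  set z := zpt θ with hzd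
  have hne : ∀ q : ℕ, 1 ≤ q → z ^ q - 1 ≠ 0 := by
    intro q hq h0
    have h1 := hz.2 q hq
    rw [h0, norm_zero] at h1
    have : (0:ℝ) < q := by exact_mod_cast hq
    have : 0 < c / (q:ℝ) ^ 2 := by positivity
    linarith
  have him : z.im ≠ 0 := by
    intro h0
    have h1 : z ^ 2 - 1 = 0 := by
      have h2 : ‖z‖ ^ 2 = 1 := by rw [hz.1]; norm_num
      rw [← Complex.normSq_eq_norm_sq, Complex.normSq_apply, h0, mul_zero, add_zero] at h2
      apply Complex.ext
      · rw [Complex.sub_re, sq, Complex.mul_re, h0, Complex.one_re, Complex.zero_re]; linarith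
      · rw [Complex.sub_im, sq, Complex.mul_im, h0, Complex.one_im, Complex.zero_im]; ring
    exact hne 2 (by norm_num) h1
  obtain ⟨q, hq, hqη⟩ := exists_pow_near_one θ (η := Real.exp (-(s:ℝ)) / 50) (by positivity)
  rw [← hzd] at hqη
  set ε := z ^ q - 1 with hε
  have hε0 : ε ≠ 0 := hne q hq
  have hεpos : 0 < ‖ε‖ := norm_pos_iff.mpr hε0
  have himpos : 0 < |z.im| := abs_pos.mpr him
  set K := 1 / (‖ε‖ * |z.im|) with hK
  set A := 1 / ‖ε‖ with hA
  have hK0 : 0 ≤ K := by positivity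
  have hA0 : 0 ≤ A := by positivity
  refine ⟨(q:ℝ) + 2 + 2 * ((A + K + 1) + (K + 1)), by
    have : (0:ℝ) ≤ q := Nat.cast_nonneg q
    linarith, ?_⟩
  intro w hw1 hw2
  set b := (w / ε).im / z.im with hb
  set a := (w / ε).re - b * z.re with ha
  have hab : w / ε = a + b * z := by
    apply Complex.ext
    · simp [ha]
    · simp only [Complex.add_im, Complex.ofReal_im, Complex.mul_im, Complex.ofReal_re, zero_mul,
        add_zero, zero_add, hb]
      field_simp
  have hwε : ‖w / ε‖ ≤ A := by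
    rw [norm_div, hA]; gcongr
  have hbK : |b| ≤ K := by
    rw [hb, abs_div]
    have h1 : |(w / ε).im| ≤ A := (Complex.abs_im_le_norm _).trans hwε
    calc |(w / ε).im| / |z.im| ≤ A / |z.im| := by gcongr
      _ = K := by rw [hA, hK]; field_simp
  have haK : |a| ≤ A + K := by
    rw [ha]
    have h1 : |(w / ε).re| ≤ A := (Complex.abs_re_le_norm _).trans hwε
    have h2 : |z.re| ≤ 1 := (Complex.abs_re_le_norm _).trans hz.1.le
    calc |(w / ε).re - b * z.re| ≤ |(w / ε).re| + |b * z.re| := abs_sub _ _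
      _ ≤ A + K * 1 := by
          rw [abs_mul]; gcongr
      _ = A + K := by ring
  set P1 : ℤ[X] := C (round a) + C (round b) * X with hP1
  set P2 : ℤ[X] := X ^ q - 1 with hP2
  have hra : |(round a : ℝ)| ≤ A + K + 1 := by
    have h1 := abs_sub_round a
    have h2 : |(round a : ℝ)| ≤ |a| + |a - round a| := by
      have h3 : (round a : ℝ) = a - (a - round a) := by ring
      calc |(round a : ℝ)| = |a - (a - round a)| := by rw [← h3]
        _ ≤ _ := abs_sub _ _
    linarith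
  have hrb : |(round b : ℝ)| ≤ K + 1 := by
    have h1 := abs_sub_round b
    have h2 : |(round b : ℝ)| ≤ |b| + |b - round b| := by
      have h3 : (round b : ℝ) = b - (b - round b) := by ring
      calc |(round b : ℝ)| = |b - (b - round b)| := by rw [← h3]
        _ ≤ _ := abs_sub _ _
    linarith
  have hP1deg : P1.natDegree ≤ 1 := by
    rw [hP1]
    refine (natDegree_add_le _ _).trans ?_
    rw [natDegree_C]
    have := natDegree_C_mul_le (round b) (X : ℤ[X])
    rw [natDegree_X] at this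
    omega
  have hP2deg : P2.natDegree = q := by
    rw [hP2]
    have := natDegree_X_pow_sub_C (R := ℤ) (n := q) (r := 1)
    rwa [C_1] at this
  have hl1 : l1 P1 ≤ (A + K + 1) + (K + 1) := by
    have h1 : l1 P1 ≤ l1D 2 P1 := by
      unfold l1 l1D
      apply Finset.sum_le_sum_of_subset_of_nonneg (Finset.range_mono (by omega))
      intro _ _ _; exact abs_nonneg _
    refine h1.trans ?_
    unfold l1D
    rw [Finset.sum_range_succ, Finset.sum_range_one, hP1]
    simp only [coeff_add, coeff_C_zero, coeff_C_mul, coeff_X_zero, mul_zero, add_zero,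
      coeff_X_one, mul_one]
    rw [coeff_C, if_neg (by norm_num)]
    push_cast
    rw [zero_add]
    linarith
  have hl2 : l1 P2 ≤ 2 := by
    unfold l1
    have h1 : P2 = C 1 * X ^ q * 1 + C (-1) * X ^ 0 * 1 := by
      rw [hP2]; simp; ring
    have h0 : l1 (1 : ℤ[X]) ≤ 1 := by
      unfold l1 l1D
      rw [natDegree_one]
      simp
    have h2 := l1D_add_le (P2.natDegree + 1) (C 1 * X ^ q * 1) (C (-1) * X ^ 0 * 1)
    rw [← h1] at h2
    have h3 := l1D_monomial_mul_le (P2.natDegree + 1) q 1 1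
    have h4 := l1D_monomial_mul_le (P2.natDegree + 1) 0 (-1) 1
    have h5 : |(((-1 : ℤ)) : ℝ)| = 1 := by norm_num
    have h6 : |(((1 : ℤ)) : ℝ)| = 1 := by norm_num
    rw [h6] at h3
    rw [h5] at h4
    linarith
  refine ⟨P1 * P2, ?_, ?_, ?_⟩
  · have h1 : (P1 * P2).natDegree ≤ 1 + q := (natDegree_mul_le).trans (by omega)
    have h2 : ((P1 * P2).natDegree : ℝ) ≤ 1 + q := by exact_mod_cast h1
    linarith
  · have h1 := l1_mul_le P1 P2
    have h3 : 0 ≤ l1 P1 := l1D_nonneg _ _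
    have h4 : l1 P1 * l1 P2 ≤ ((A + K + 1) + (K + 1)) * 2 := by
      apply mul_le_mul hl1 hl2 (l1D_nonneg _ _) (by positivity)
    have : (0:ℝ) ≤ q := Nat.cast_nonneg q
    linarith
  · have h1 : ev (P1 * P2) z - w = ε * (((round a : ℝ) - a : ℝ) + ((round b : ℝ) - b : ℝ) * z) := by
      have h2 : w = ε * (a + b * z) := by rw [← hab]; field_simp
      rw [ev, map_mul, hP1, hP2]
      simp only [map_add, map_mul, map_sub, map_pow, aeval_X, map_one, aeval_C,
        algebraMap_int_eq, eq_intCast, map_intCast]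
      rw [h2, hε]
      push_cast
      ring
    rw [h1, norm_mul]
    have h3 : ‖((((round a : ℝ) - a : ℝ) : ℂ) + (((round b : ℝ) - b : ℝ) : ℂ) * z)‖ ≤ 1 := by
      refine (norm_add_le _ _).trans ?_
      rw [norm_mul, hz.1, Complex.norm_real, Complex.norm_real, Real.norm_eq_abs,
        Real.norm_eq_abs]
      have e1 := abs_sub_round a
      have e2 := abs_sub_round b
      rw [abs_sub_comm] at e1 e2
      linarith
    calc ‖ε‖ * ‖((((round a : ℝ) - a : ℝ) : ℂ) + (((round b : ℝ) - b : ℝ) : ℂ) * z)‖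
        ≤ ‖ε‖ * 1 := by gcongr
      _ ≤ Real.exp (-(s:ℝ)) / 50 := by rw [mul_one]; exact hqη
      _ ≤ ‖w‖ / 50 := by gcongr

end Pool.Agent.Work.MP_4c4335_nt
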