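import Mathlib
import Pool.Agent.Work.MP_4c4335_nt.Hit

/-!
# The recursion
-/

namespace Pool.Agent.Work.MP_4c4335_nt

open Finset Polynomial Filter Real

lemma LL_mono : Monotone LL := by
  intro a b hab
  unfold LL
  apply Nat.ceil_mono
  rcases Nat.eq_zero_or_pos a with h | h
  · subst h
    simp only [Nat.cast_zero, Real.log_zero]
    exact Real.log_natCast_nonneg b
  · exact Real.log_le_log (by exact_mod_cast h) (by exact_mod_cast hab)

lemma gk_mono : Monotone gk := fun _ _ h => Nat.pow_le_pow_left (LL_mono h) 15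

lemma mk_mono : Monotone mk := by
  intro a b h
  unfold mk
  exact Nat.mul_le_mul (Nat.mul_le_mul_left 4 h) (Nat.pow_le_pow_left (LL_mono h) 11)

lemma eventually_num (B : ℕ) : ∀ᶠ L : ℕ in atTop,
    8 * (B:ℝ) * ((LL (1 + L ^ 15) : ℝ) + 1) ^ 27 ≤ L := by
  have ht : Tendsto (fun L : ℕ => 1 + L ^ 15) atTop atTop := by
    apply tendsto_atTop_mono (f := fun L : ℕ => L) _ tendsto_id
    intro L
    rcases Nat.eq_zero_or_pos L with h | h
    · subst h; simp
    · have : L ^ 1 ≤ L ^ 15 := Nat.pow_le_pow_right h (by norm_num)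
      rw [pow_one] at this; omega
  have h1 := (isLittleO_pow_log_id_atTop (n := 27)).bound
    (show (0:ℝ) < 1 / ((8 * (B:ℝ) + 1) * 33 ^ 27) by positivity)
  have h2 := (tendsto_natCast_atTop_atTop (R := ℝ)).eventually h1
  filter_upwards [h2, ht.eventually eventually_LL_le, tendsto_log_nat.eventually_ge_atTop 1,
    eventually_ge_atTop 2] with L hL h3 h4 h5
  rw [Real.norm_of_nonneg (by positivity), id, Real.norm_of_nonneg (by positivity)] at hL
  have h6 : Real.log ((1 + L ^ 15 : ℕ) : ℝ) ≤ 16 * Real.log L := by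
    have h7 : (1 + L ^ 15 : ℕ) ≤ L ^ 16 := by
      have h8 : 1 ≤ L ^ 15 := Nat.one_le_pow _ _ (by omega)
      calc 1 + L ^ 15 ≤ L ^ 15 * 2 := by omega
        _ ≤ L ^ 15 * L := Nat.mul_le_mul_left _ h5
        _ = L ^ 16 := by ring
    have h9 : ((1 + L ^ 15 : ℕ) : ℝ) ≤ (L:ℝ) ^ 16 := by exact_mod_cast h7
    have h10 : Real.log ((1 + L ^ 15 : ℕ) : ℝ) ≤ Real.log ((L:ℝ) ^ 16) :=
      Real.log_le_log (by positivity) h9
    rw [Real.log_pow] at h10
    exact_mod_cast h10
  have h11 : (LL (1 + L ^ 15) : ℝ) + 1 ≤ 33 * Real.log L := by linarith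
  have h12 : (0:ℝ) ≤ (LL (1 + L ^ 15) : ℝ) + 1 := by positivity
  calc 8 * (B:ℝ) * ((LL (1 + L ^ 15) : ℝ) + 1) ^ 27
      ≤ (8 * (B:ℝ) + 1) * (33 * Real.log L) ^ 27 := by
        gcongr
        · linarith
    _ = ((8 * (B:ℝ) + 1) * 33 ^ 27) * (Real.log L) ^ 27 := by ring
    _ ≤ ((8 * (B:ℝ) + 1) * 33 ^ 27) * (1 / ((8 * (B:ℝ) + 1) * 33 ^ 27) * L) := by gcongr
    _ = L := by field_simp

/-- the size function -/
noncomputable def sz (A : ℝ) (s : ℕ) : ℝ := A * (s + 1) * ((LL s : ℝ) + 1) ^ 27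

lemma sz_mono {A : ℝ} (hA : 0 ≤ A) : Monotone (sz A) := by
  intro a b h
  unfold sz
  have h1 : (a:ℝ) ≤ b := by exact_mod_cast h
  have h2 : (LL a : ℝ) ≤ LL b := by exact_mod_cast LL_mono h
  gcongr

lemma le_sz {A : ℝ} (hA : 0 ≤ A) (s : ℕ) : A ≤ sz A s := by
  unfold sz
  have h1 : (1:ℝ) ≤ (s:ℝ) + 1 := by linarith [Nat.cast_nonneg (α := ℝ) s]
  have h2 : (1:ℝ) ≤ ((LL s : ℝ) + 1) ^ 27 :=
    one_le_pow₀ (by linarith [Nat.cast_nonneg (α := ℝ) (LL s)])
  calc A = A * 1 * 1 := by ring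
    _ ≤ _ := by gcongr

theorem hit_all {c : ℝ} (hc : 0 < c) {θ : ℝ} (hz : DioZ c (zpt θ)) {B : ℕ} (hB : 1 ≤ B)
    (hP : ∀ᶠ k : ℕ in atTop, ∃ P : ℤ[X], P.natDegree < mk k ∧
      (∀ i, |P.coeff i| ≤ (B:ℤ)) ∧ Real.exp (-((k:ℝ) + gk k)) < ‖ev P (zpt θ)‖ ∧
      ‖ev P (zpt θ)‖ ≤ Real.exp (-(k:ℝ))) :
    ∃ A : ℝ, 1 ≤ A ∧ ∀ s : ℕ, Hit (zpt θ) s (sz A s) := by
  obtain ⟨K0, hK0⟩ := eventually_atTop.mp hP
  have hLt : Tendsto LL atTop atTop := by
    apply tendsto_atTop.mpr
    intro b
    filter_upwards [eventually_le_LL b] with k hk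
    exact_mod_cast hk
  have hev : ∀ᶠ s : ℕ in atTop, 8 * (B:ℝ) * ((LL (1 + gk s) : ℝ) + 1) ^ 27 ≤ LL s ∧
      gk s + K0 + 3 ≤ s ∧ 2 ≤ LL s := by
    filter_upwards [hLt.eventually (eventually_num B), eventually_LL_pow_le 2 15,
      eventually_ge_atTop (2 * (K0 + 3)), hLt.eventually_ge_atTop 2] with s h1 h2 h3 h4
    refine ⟨h1, ?_, h4⟩
    have h5 : 2 * gk s ≤ s := by
      unfold gk; exact_mod_cast h2
    omega
  obtain ⟨s0, hs0⟩ := eventually_atTop.mp hev
  choose n hn1 hn using fun s => exists_hit hc hz s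
  set A := 1 + ∑ s ∈ range s0, n s with hA
  have hn0 : ∀ s, 0 ≤ n s := fun s => zero_le_one.trans (hn1 s)
  have hA1 : 1 ≤ A := by
    have : 0 ≤ ∑ s ∈ range s0, n s := Finset.sum_nonneg (fun s _ => hn0 s)
    linarith
  have hA0 : 0 ≤ A := by linarith
  refine ⟨A, hA1, ?_⟩
  intro s
  induction s using Nat.strong_induction_on with
  | _ s ih =>
    by_cases hs : s < s0
    · apply (hn s).mono
      refine le_trans ?_ (le_sz hA0 s)
      have : n s ≤ ∑ s ∈ range s0, n s :=
        Finset.single_le_sum (f := n) (fun s _ => hn0 s) (Finset.mem_range.mpr hs)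
      linarith
    · push Not at hs
      obtain ⟨hnum, hgs, hL2⟩ := hs0 s hs
      intro w hw1 hw2
      by_cases hw : Real.exp (-((s - 1 : ℕ):ℝ)) ≤ ‖w‖
      · exact ((ih (s-1) (by omega)).mono (sz_mono hA0 (Nat.sub_le s 1))) w hw hw2
      · push Not at hw
        set g := gk s with hg
        set k := s - 1 - g with hk
        have hkK : K0 ≤ k := by omega
        obtain ⟨P, hPd, hPc, hP1, hP2⟩ := hK0 k hkK
        have hks : k + g = s - 1 := by omega
        have hgk : gk k ≤ g := gk_mono (by omega)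
        have hP1' : Real.exp (-((s - 1 : ℕ):ℝ)) ≤ ‖ev P (zpt θ)‖ := by
          refine le_trans ?_ hP1.le
          apply Real.exp_le_exp.mpr
          rw [← hks]
          push_cast
          have : (gk k : ℝ) ≤ g := by exact_mod_cast hgk
          linarith
        have hPpos : 0 < ‖ev P (zpt θ)‖ := lt_of_lt_of_le (Real.exp_pos _) hP1'
        have hP0 : ev P (zpt θ) ≠ 0 := norm_pos_iff.mp hPpos
        have hu2 : ‖w / ev P (zpt θ)‖ ≤ 1 := by
          rw [norm_div, div_le_one hPpos]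
          linarith
        have hu1 : Real.exp (-((1 + g : ℕ):ℝ)) ≤ ‖w / ev P (zpt θ)‖ := by
          rw [norm_div, le_div_iff₀ hPpos]
          calc Real.exp (-((1 + g : ℕ):ℝ)) * ‖ev P (zpt θ)‖
              ≤ Real.exp (-((1 + g : ℕ):ℝ)) * Real.exp (-(k:ℝ)) := by gcongr
            _ = Real.exp (-(s:ℝ)) := by
                rw [← Real.exp_add]
                congr 1
                have : (s:ℝ) = 1 + g + k := by
                  have : s = 1 + g + k := by omega
                  exact_mod_cast this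
                rw [this]
                push_cast
                ring
            _ ≤ ‖w‖ := hw1
        obtain ⟨Q, hQ1, hQ2, hQ3⟩ := ih (1 + g) (by omega) (w / ev P (zpt θ)) hu1 hu2
        set N := sz A (1 + g) with hN
        have hN1 : 1 ≤ N := hA1.trans (le_sz hA0 _)
        have hB1 : (1:ℝ) ≤ B := by exact_mod_cast hB
        have hmks : (mk k : ℝ) ≤ mk s := by exact_mod_cast mk_mono (by omega)
        have hmk1 : (1:ℝ) ≤ mk k := by
          have : 1 ≤ mk k := by omega
          exact_mod_cast this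
        have hsz : (mk s : ℝ) * B * N ≤ sz A s := by
          have hLr : (2:ℝ) ≤ LL s := by exact_mod_cast hL2
          have hmks : (mk s : ℝ) = 4 * s * (LL s : ℝ) ^ 11 := by
            unfold mk; push_cast; ring
          have hgr : (g : ℝ) = (LL s : ℝ) ^ 15 := by
            rw [hg]; unfold gk; push_cast; ring
          rw [hN]
          unfold sz
          rw [hmks]
          push_cast
          rw [hgr]
          set L := (LL s : ℝ) with hL
          set T := ((LL (1 + g) : ℝ) + 1) ^ 27 with hT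
          have h1 : 1 + L ^ 15 + 1 ≤ 2 * L ^ 15 := by
            have : (2:ℝ) ≤ L ^ 15 := by
              calc (2:ℝ) ≤ L := hLr
                _ = L ^ 1 := (pow_one L).symm
                _ ≤ L ^ 15 := pow_le_pow_right₀ (by linarith) (by norm_num)
            linarith
          have hT0 : 0 ≤ T := by positivity
          have hL0 : 0 ≤ L := by linarith
          calc 4 * (s:ℝ) * L ^ 11 * B * (A * (1 + L ^ 15 + 1) * T)
              ≤ 4 * (s:ℝ) * L ^ 11 * B * (A * (2 * L ^ 15) * T) := by gcongr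
            _ = A * s * L ^ 26 * (8 * B * T) := by ring
            _ ≤ A * s * L ^ 26 * L := by gcongr
            _ = A * s * L ^ 27 := by ring
            _ ≤ A * (s + 1) * (L + 1) ^ 27 := by gcongr <;> linarith
        refine ⟨P * Q, ?_, ?_, ?_⟩
        · have h1 : (P * Q).natDegree ≤ P.natDegree + Q.natDegree := natDegree_mul_le
          have h2 : ((P * Q).natDegree : ℝ) ≤ P.natDegree + Q.natDegree := by exact_mod_cast h1
          have h3 : (P.natDegree : ℝ) + 1 ≤ mk k := by exact_mod_cast hPd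
          refine le_trans ?_ hsz
          have h4 : (mk s : ℝ) * N ≤ (mk s : ℝ) * B * N := by
            have : (mk s : ℝ) * 1 * N ≤ (mk s : ℝ) * B * N := by gcongr
            linarith
          have h5 : (P.natDegree : ℝ) + 1 ≤ mk s := h3.trans hmks
          have h6 : (mk s : ℝ) + N - 1 ≤ mk s * N := by nlinarith [hmk1.trans hmks]
          linarith
        · refine (l1_mul_le P Q).trans (le_trans ?_ hsz)
          have h1 := l1_le_of_coeff_le hPd hPc
          have h2 : l1 P ≤ (mk s : ℝ) * B := h1.trans (by gcongr)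
          have h3 : 0 ≤ l1 Q := l1D_nonneg _ _
          calc l1 P * l1 Q ≤ (mk s : ℝ) * B * l1 Q := by gcongr
            _ ≤ _ := by gcongr
        · have h1 : ev (P * Q) (zpt θ) = ev P (zpt θ) * ev Q (zpt θ) := by
            unfold ev; rw [map_mul]
          have h2 : ev (P * Q) (zpt θ) - w
              = ev P (zpt θ) * (ev Q (zpt θ) - w / ev P (zpt θ)) := by
            rw [h1]; field_simp
          rw [h2, norm_mul]
          calc ‖ev P (zpt θ)‖ * ‖ev Q (zpt θ) - w / ev P (zpt θ)‖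
              ≤ ‖ev P (zpt θ)‖ * (‖w / ev P (zpt θ)‖ / 50) := by gcongr
            _ = ‖w‖ / 50 := by
                rw [norm_div]; field_simp

end Pool.Agent.Work.MP_4c4335_nt
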