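import Mathlib
import Pool.Agent.Work.MP_4c4335_nt.Rec

/-!
# From hitting targets to `DPV`
-/

namespace Pool.Agent.Work.MP_4c4335_nt

open Finset Polynomial Filter Real MeasureTheory

lemma arg0_mul_exp {r α : ℝ} (hr : 0 < r) (h0 : 0 ≤ α) (h1 : α < 2 * π) :
    arg0 (r * Complex.exp (α * Complex.I)) = α := by
  have hexp : Complex.exp (α * Complex.I) = Complex.cos α + Complex.sin α * Complex.I :=
    Complex.exp_mul_I _
  rcases le_or_gt α π with h | h
  · have h2 : Complex.arg (r * Complex.exp (α * Complex.I)) = α := by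
      rw [hexp, Complex.arg_mul_cos_add_sin_mul_I hr ⟨by linarith [Real.pi_pos], h⟩]
    unfold arg0
    rw [h2, if_pos h0]
  · have h3 : Complex.exp (α * Complex.I) = Complex.exp (((α - 2 * π : ℝ) : ℂ) * Complex.I) := by
      have : (((α - 2 * π : ℝ) : ℂ) * Complex.I) = α * Complex.I - 2 * π * Complex.I := by
        push_cast; ring
      rw [this, Complex.exp_sub, Complex.exp_two_pi_mul_I, div_one]
    have h2 : Complex.arg (r * Complex.exp (α * Complex.I)) = α - 2 * π := by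
      rw [h3, Complex.exp_mul_I, Complex.arg_mul_cos_add_sin_mul_I hr
        ⟨by linarith, by linarith [Real.pi_pos]⟩]
    unfold arg0
    rw [h2, if_neg (by linarith)]
    ring

/-- estimates for the logarithm near one -/
lemma near_one {ζ : ℂ} (h : ‖ζ - 1‖ ≤ 1 / 50) :
    ζ ≠ 0 ∧ |Real.log ‖ζ‖| ≤ 0.021 ∧ |ζ.arg| ≤ 0.033 := by
  have h1 : ‖ζ‖ ≤ 1.02 := by
    calc ‖ζ‖ = ‖(ζ - 1) + 1‖ := by rw [sub_add_cancel]
      _ ≤ ‖ζ - 1‖ + ‖(1:ℂ)‖ := norm_add_le _ _
      _ ≤ 1 / 50 + 1 := by rw [norm_one]; linarith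
      _ = 1.02 := by norm_num
  have h2 : 0.98 ≤ ‖ζ‖ := by
    have : ‖(1:ℂ)‖ ≤ ‖ζ - 1‖ + ‖ζ‖ := by
      calc ‖(1:ℂ)‖ = ‖ζ - (ζ - 1)‖ := by congr 1; ring
        _ ≤ ‖ζ‖ + ‖ζ - 1‖ := norm_sub_le _ _
        _ = _ := add_comm _ _
    rw [norm_one] at this
    linarith
  have hpos : 0 < ‖ζ‖ := by linarith
  refine ⟨norm_pos_iff.mp hpos, ?_, ?_⟩
  · rw [abs_le]
    constructor
    · have h3 := Real.one_sub_inv_le_log_of_pos hpos
      have h4 : ‖ζ‖⁻¹ ≤ (0.98)⁻¹ := by gcongr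
      have h5 : (0.98:ℝ)⁻¹ ≤ 1.021 := by norm_num
      linarith
    · have h3 := Real.log_le_sub_one_of_pos hpos
      linarith
  · have hre : 0 ≤ ζ.re := by
      have h3 : |(ζ - 1).re| ≤ 1 / 50 := (Complex.abs_re_le_norm _).trans h
      rw [Complex.sub_re, Complex.one_re] at h3
      have := (abs_le.mp h3).1
      linarith
    have him : |ζ.im| ≤ 1 / 50 := by
      have h3 : |(ζ - 1).im| ≤ 1 / 50 := (Complex.abs_im_le_norm _).trans h
      rwa [Complex.sub_im, Complex.one_im, sub_zero] at h3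
    have h4 : |ζ.arg| ≤ π / 2 := Complex.abs_arg_le_pi_div_two_iff.mpr hre
    have h5 := Real.mul_abs_le_abs_sin h4
    rw [Complex.sin_arg, abs_div, abs_of_pos hpos] at h5
    have h6 : |ζ.im| / ‖ζ‖ ≤ (1 / 50) / 0.98 := by gcongr
    have h7 : 2 / π * |ζ.arg| ≤ (1 / 50) / 0.98 := h5.trans h6
    have hpi : π ≤ 3.15 := by linarith [Real.pi_lt_d2]
    have h8 : |ζ.arg| = (π / 2) * (2 / π * |ζ.arg|) := by
      field_simp
    rw [h8]
    calc (π / 2) * (2 / π * |ζ.arg|) ≤ (3.15 / 2) * ((1 / 50) / 0.98) := by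
          gcongr
      _ ≤ 0.033 := by norm_num

/-- all targets being hit gives `DPV` -/
lemma hasDPV_of_hit {θ : ℝ} {s n : ℕ} {N R : ℝ} (h : Hit (zpt θ) s N)
    (hN : 2 * N ≤ n) (hR : Real.log R ≤ s) : HasDPV n R θ := by
  intro p hp1 hp2
  set φ := max 0.035 (min p.im (2 * π - 0.035)) with hφ
  have hpi : 3.14 ≤ π := by linarith [Real.pi_gt_d2]
  have hφ0 : 0.035 ≤ φ := le_max_left _ _
  have hφ1 : φ ≤ 2 * π - 0.035 := max_le (by linarith) (min_le_right _ _)
  have hφp : |p.im - φ| ≤ 0.035 := by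
    obtain ⟨h1, h2⟩ := hp2
    rw [abs_le]
    rcases le_total p.im (2 * π - 0.035) with h3 | h3
    · rw [hφ, min_eq_left h3]
      rcases le_total 0.035 p.im with h4 | h4
      · rw [max_eq_right h4]; constructor <;> linarith
      · rw [max_eq_left h4]; constructor <;> linarith
    · rw [hφ, min_eq_right h3, max_eq_right (by linarith)]
      constructor <;> linarith
  set w : ℂ := (Real.exp p.re : ℝ) * Complex.exp (φ * Complex.I) with hw
  have hwn : ‖w‖ = Real.exp p.re := by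
    rw [hw, norm_mul, Complex.norm_exp_ofReal_mul_I, mul_one, Complex.norm_real,
      Real.norm_eq_abs, abs_of_pos (Real.exp_pos _)]
  have hw0 : w ≠ 0 := by
    rw [← norm_pos_iff, hwn]; exact Real.exp_pos _
  obtain ⟨P, hP1, hP2, hP3⟩ := h w (by
    rw [hwn]
    apply Real.exp_le_exp.mpr
    linarith [hp1.1]) (by
    rw [hwn]
    exact Real.exp_le_one_iff.mpr hp1.2)
  set u := ev P (zpt θ) with hu
  set ζ := u / w with hζ
  have huζ : u = w * ζ := by rw [hζ]; field_simp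
  have hζ1 : ‖ζ - 1‖ ≤ 1 / 50 := by
    have h1 : ζ - 1 = (u - w) / w := by rw [hζ]; field_simp
    rw [h1, norm_div, div_le_iff₀ (norm_pos_iff.mpr hw0)]
    linarith
  obtain ⟨hζ0, hζlog, hζarg⟩ := near_one hζ1
  have hu0 : u ≠ 0 := by rw [huζ]; exact mul_ne_zero hw0 hζ0
  have hval : val θ P.natDegree (fun j => P.coeff j) = u := by
    rw [hu, ev, val, aeval_eq_sum_range]
    apply Finset.sum_congr rfl
    intro i _
    simp
  have hζpos : 0 < ‖ζ‖ := norm_pos_iff.mpr hζ0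
  have hlogu : Real.log ‖u‖ = p.re + Real.log ‖ζ‖ := by
    rw [huζ, norm_mul, hwn, Real.log_mul (Real.exp_pos _).ne' hζpos.ne', Real.log_exp]
  have hargu : arg0 u = φ + ζ.arg := by
    have h1 : u = ((Real.exp p.re * ‖ζ‖ : ℝ) : ℂ) *
        Complex.exp (((φ + ζ.arg : ℝ) : ℂ) * Complex.I) := by
      rw [huζ, hw]
      have h2 : ζ = ‖ζ‖ * Complex.exp (ζ.arg * Complex.I) := (Complex.norm_mul_exp_arg_mul_I ζ).symm
      conv_lhs => rw [h2]
      have h3 : ((φ + ζ.arg : ℝ) : ℂ) * Complex.I = φ * Complex.I + ζ.arg * Complex.I := by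
        push_cast; ring
      rw [h3, Complex.exp_add]
      push_cast
      ring
    rw [h1]
    have h4 := abs_le.mp hζarg
    apply arg0_mul_exp (by positivity) <;> linarith [h4.1, h4.2]
  refine ⟨⟨Real.log ‖u‖, arg0 u⟩, ⟨P.natDegree, fun j => P.coeff j, ?_, ?_, ?_⟩, ?_⟩
  · have h1 : ((∑ j ∈ range (P.natDegree + 1), (1 + |P.coeff j|) : ℤ) : ℝ)
        = (P.natDegree : ℝ) + 1 + l1 P := by
      rw [Finset.sum_add_distrib]
      unfold l1 l1D
      push_cast
      simp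
    have h2 : ((∑ j ∈ range (P.natDegree + 1), (1 + |P.coeff j|) : ℤ) : ℝ) ≤ ((n : ℤ) : ℝ) := by
      rw [h1]
      push_cast
      linarith
    exact_mod_cast h2
  · rw [hval]; exact hu0
  · rw [hval]
  · rw [Complex.dist_eq]
    refine (Complex.norm_le_abs_re_add_abs_im _).trans ?_
    simp only [Complex.sub_re, Complex.sub_im]
    rw [hlogu, hargu]
    have h1 : |p.re - (p.re + Real.log ‖ζ‖)| = |Real.log ‖ζ‖| := by
      rw [show p.re - (p.re + Real.log ‖ζ‖) = - Real.log ‖ζ‖ by ring, abs_neg]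
    have h2 : |p.im - (φ + ζ.arg)| ≤ |p.im - φ| + |ζ.arg| := by
      rw [show p.im - (φ + ζ.arg) = (p.im - φ) - ζ.arg by ring]
      exact abs_sub _ _
    rw [h1]
    linarith

/-- the values of the polynomials of weight at most `n` are bounded from below -/
lemma exists_lower (n : ℕ) (θ : ℝ) : ∃ M : ℝ, ∀ s ∈ SS n θ, M ≤ s.re := by
  classical
  set V : Set ℂ := Set.range (fun c : Fin n → Set.Icc (-(n:ℤ)) n =>
    ∑ j : Fin n, ((c j : ℤ) : ℂ) * zpt θ ^ (j : ℕ)) with hV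
  have hVfin : V.Finite := Set.finite_range _
  have hmem : ∀ (D : ℕ) (c : ℕ → ℤ), ∑ j ∈ range (D + 1), (1 + |c j|) ≤ (n : ℤ) →
      val θ D c ∈ V := by
    intro D c hc
    have hterm : ∀ j ∈ range (D + 1), 0 ≤ 1 + |c j| := fun j _ => by positivity
    have hD : D + 1 ≤ n := by
      have h1 : ((D + 1 : ℕ) : ℤ) ≤ ∑ j ∈ range (D + 1), (1 + |c j|) := by
        calc ((D + 1 : ℕ) : ℤ) = ∑ j ∈ range (D + 1), (1 : ℤ) := by simp
          _ ≤ _ := by
            apply Finset.sum_le_sum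
            intro j _
            linarith [abs_nonneg (c j)]
      exact_mod_cast h1.trans hc
    have hcj : ∀ j ∈ range (D + 1), |c j| ≤ (n:ℤ) := by
      intro j hj
      have h1 := Finset.single_le_sum hterm hj
      linarith
    refine ⟨fun j => ⟨if (j : ℕ) ∈ range (D + 1) then c j else 0, ?_⟩, ?_⟩
    · split_ifs with hj
      · exact ⟨(abs_le.mp (hcj _ hj)).1, (abs_le.mp (hcj _ hj)).2⟩
      · constructor <;> omega
    · simp only
      rw [Finset.sum_fin_eq_sum_range]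
      unfold val
      rw [← Finset.sum_subset (Finset.range_mono hD)]
      · apply Finset.sum_congr rfl
        intro j hj
        have : j < n := lt_of_lt_of_le (Finset.mem_range.mp hj) hD
        simp [this, Finset.mem_range.mp hj]
      · intro j hj hj2
        have : j < n := Finset.mem_range.mp hj
        simp only [this, dif_pos, if_neg hj2]
        simp
  have hfin2 : ((fun v : ℂ => Real.log ‖v‖) '' V).Finite := hVfin.image _
  obtain ⟨M, hM⟩ := hfin2.bddBelow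
  refine ⟨M, ?_⟩
  rintro s ⟨D, c, hc, h0, rfl⟩
  exact hM ⟨val θ D c, hmem D c hc, rfl⟩

lemma bddAbove_DPV (n : ℕ) (θ : ℝ) : BddAbove {R : ℝ | 0 < R ∧ HasDPV n R θ} := by
  obtain ⟨M, hM⟩ := exists_lower n θ
  refine ⟨max 1 (Real.exp (0.1 - M)), ?_⟩
  rintro R ⟨hR0, hR⟩
  rcases le_total R 1 with h | h
  · exact h.trans (le_max_left _ _)
  · refine le_trans ?_ (le_max_right _ _)
    have hlog : 0 ≤ Real.log R := Real.log_nonneg h
    obtain ⟨s, hs, hds⟩ := hR ⟨-Real.log R, 0⟩ ⟨le_refl _, by simpa using hlog⟩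
      ⟨le_refl _, by positivity⟩
    have h1 := hM s hs
    rw [Complex.dist_eq] at hds
    have h2 : |(⟨-Real.log R, 0⟩ - s : ℂ).re| ≤ 0.1 := (Complex.abs_re_le_norm _).trans hds
    rw [Complex.sub_re] at h2
    have h3 := (abs_le.mp h2).1
    simp only at h3
    have h4 : Real.log R ≤ 0.1 - M := by linarith
    calc R = Real.exp (Real.log R) := (Real.exp_log hR0).symm
      _ ≤ _ := Real.exp_le_exp.mpr h4

lemma size_cond (A : ℝ) (hA : 1 ≤ A) : ∀ᶠ n : ℕ in atTop,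
    2 * sz A ⌈(n:ℝ) / (Real.log n) ^ 28⌉₊ ≤ n := by
  filter_upwards [eventually_LL_le, tendsto_log_nat.eventually_ge_atTop (8 * 3 ^ 27 * A),
    eventually_LL_pow_le 2 28, eventually_ge_atTop 1] with n h1 h2 h3 h4
  set l := Real.log n with hl
  set s := ⌈(n:ℝ) / l ^ 28⌉₊ with hs
  have hl1 : 1 ≤ l := by
    have : (1:ℝ) ≤ 8 * 3 ^ 27 * A := by nlinarith
    linarith
  have hn0 : (0:ℝ) < n := by exact_mod_cast h4
  have hl28 : 1 ≤ l ^ 28 := one_le_pow₀ hl1
  have hll : l ≤ LL n := log_le_LL n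
  have h5 : 2 * l ^ 28 ≤ n := by
    refine le_trans ?_ h3
    gcongr
  have h6 : (2:ℝ) ≤ n / l ^ 28 := by
    rw [le_div_iff₀ (by positivity)]; exact h5
  have hsle : (s:ℝ) + 1 ≤ 2 * (n / l ^ 28) := by
    have : (s:ℝ) < (n:ℝ) / l ^ 28 + 1 := Nat.ceil_lt_add_one (by positivity)
    linarith
  have hsn : s ≤ n := by
    have h7 : (n:ℝ) / l ^ 28 ≤ n := by
      apply div_le_self hn0.le hl28
    exact Nat.ceil_le.mpr h7
  have hLs : (LL s : ℝ) ≤ 2 * l := by
    have : (LL s : ℝ) ≤ LL n := by exact_mod_cast LL_mono hsn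
    linarith
  unfold sz
  calc 2 * (A * ((s:ℝ) + 1) * ((LL s : ℝ) + 1) ^ 27)
      ≤ 2 * (A * (2 * (n / l ^ 28)) * (2 * l + l) ^ 27) := by gcongr
    _ = 4 * 3 ^ 27 * A * n / l := by
        have : l ≠ 0 := by linarith
        field_simp
        ring
    _ ≤ n := by
        rw [div_le_iff₀ (by linarith)]
        have : 4 * 3 ^ 27 * A * n ≤ l * n := by
          gcongr
          nlinarith
        linarith

theorem main_thm : ∀ᵐ θ ∂(volume.restrict (Set.Ico (0:ℝ) (2 * π))), ∀ᶠ n : ℕ in atTop,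
    Real.exp (n / (Real.log n) ^ 28) ≤ RDPV n θ := by
  filter_upwards [ae_restrict_of_ae (s := Set.Ico (0:ℝ) (2 * π)) ae_main,
    ae_restrict_mem measurableSet_Ico] with θ h1 h2
  have h3 : θ ∈ Set.Icc (0:ℝ) 7 := ⟨h2.1, by
    have := h2.2
    linarith [Real.pi_lt_d2]⟩
  obtain ⟨c, hc, hz, B, hB, hP⟩ := h1 h3
  obtain ⟨A, hA, hhit⟩ := hit_all hc hz hB hP
  filter_upwards [size_cond A hA] with n hn
  apply le_csSup (bddAbove_DPV n θ)
  refine ⟨Real.exp_pos _, ?_⟩
  apply hasDPV_of_hit (hhit ⌈(n:ℝ) / (Real.log n) ^ 28⌉₊) hn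
  rw [Real.log_exp]
  exact Nat.le_ceil _

end Pool.Agent.Work.MP_4c4335_nt
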